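import Mathlib
import Pool.Agent.R306.UL2

/-!
Mean square of `E - U` over `y ↦ b exp(A y)`.
-/

set_option autoImplicit false

open MeasureTheory Filter Topology Set Real
open scoped ENNReal
open Pool.Agent.H383.AP Pool.Agent.H383.Gauss
open Pool.Agent.H383.Gen Pool.Agent.H383.GW

namespace Pool.Agent.R306.GP

open Pool.Agent.H383 Pool.Agent.H425R3.JL

variable {af : ℕ → ℝ} {φ : ℝ} {w : ℝ → ℂ} {E : ℝ → ℝ}

lemma U_cont (af : ℕ → ℝ) (φ : ℝ) (M : ℕ) : Continuous fun R => U af φ R M := by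
  unfold U
  fun_prop

/-- the square of the error as a nonnegative function -/
noncomputable def GG (E : ℝ → ℝ) (af : ℕ → ℝ) (φ : ℝ) (M : ℕ) (R : ℝ) : ℝ≥0∞ :=
  ENNReal.ofReal ((E R - U af φ R M) ^ 2)

lemma GG_meas (hE : Measurable E) (M : ℕ) : Measurable (GG E af φ M) :=
  ((hE.sub (U_cont af φ M).measurable).pow_const 2).ennreal_ofReal

lemma split_sum (G : ℝ → ℝ≥0∞) (p : ℕ) : ∀ q : ℕ, p ≤ q →
    ∫⁻ R in Ico ((p:ℝ) + 4) (q + 4), G R ≤ ∑ n ∈ Finset.Ico p q, ∫⁻ R in Ico ((n:ℝ) + 4) (n + 5), G R := by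
  intro q hpq
  induction q, hpq using Nat.le_induction with
  | base => simp
  | succ q hpq ih =>
    rw [Finset.sum_Ico_succ_top hpq]
    have h1 : Ico ((p:ℝ) + 4) (((q + 1 : ℕ) : ℝ) + 4) ⊆ Ico ((p:ℝ) + 4) (q + 4) ∪ Ico ((q:ℝ) + 4) (q + 5) := by
      intro x hx
      rw [mem_union]
      rcases lt_or_ge x ((q:ℝ) + 4) with h | h
      · left; exact ⟨hx.1, h⟩
      · right; refine ⟨h, ?_⟩
        have := hx.2
        push_cast at this
        linarith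
    calc ∫⁻ R in Ico ((p:ℝ) + 4) (((q + 1 : ℕ) : ℝ) + 4), G R
        ≤ ∫⁻ R in Ico ((p:ℝ) + 4) (q + 4) ∪ Ico ((q:ℝ) + 4) (q + 5), G R := lintegral_mono_set h1
      _ ≤ _ := lintegral_union_le _ _ _
      _ ≤ _ := by gcongr

lemma block (ha : Bd af) (ha0 : af 0 = 0) (hw : Wt w) {κ₁ κ₂ C0 : ℝ} (hC0 : 0 < C0)
    (hS : Sand E af φ w κ₁ κ₂ C0) (hE : Measurable E) :
    ∃ C : ℝ, 0 < C ∧ ∃ i0 : ℕ, ∀ i : ℕ, i0 ≤ i → ∀ M : ℕ, 1 ≤ M → (M:ℝ) ^ 100 ≤ 2 ^ i →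
      ∫⁻ R in Ico ((2:ℝ) ^ (i - 1) + 4) (2 ^ i + 4), GG E af φ M R ≤
        ENNReal.ofReal (C * (M:ℝ) ^ (-(1/200):ℝ) * 2 ^ i) := by
  obtain ⟨C, hC, N0, h⟩ := UL.ap_uni (φ := φ) ha ha0 hw hC0 hS one_pos
  obtain ⟨CT, hCT, hTl⟩ := Tl_pow
  refine ⟨C * (CT + 1), by positivity, max 1 N0, ?_⟩
  intro i hi M hM hMi
  have hi1 : 1 ≤ i := by omega
  have hN : N0 ≤ 2 ^ i := (by omega : N0 ≤ i).trans (Nat.lt_two_pow_self).le
  have hM0 : (0:ℝ) < M := by exact_mod_cast hM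
  have hM1 : (1:ℝ) ≤ M := by exact_mod_cast hM
  have h2i : (0:ℝ) < 2 ^ i := by positivity
  have hMle : (M:ℝ) ≤ ((2 ^ i : ℕ):ℝ) ^ (1/100:ℝ) := by
    push_cast
    have : (M:ℝ) = ((M:ℝ) ^ 100) ^ (1/100:ℝ) := by
      rw [← Real.rpow_natCast, ← Real.rpow_mul hM0.le]; norm_num
    rw [this]
    exact Real.rpow_le_rpow (by positivity) hMi (by norm_num)
  have hbd : ∀ X : ℝ, 4 ≤ X → X ≤ 5 → ∑ n ∈ Finset.Ico ((2:ℕ) ^ i / 2) ((2:ℕ) ^ i), (E (X + (n:ℝ)) - U af φ (X + (n:ℝ)) M) ^ 2 ≤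
      C * (CT + 1) * (M:ℝ) ^ (-(1/200):ℝ) * 2 ^ i := by
    intro X hX hX5
    have h1 := h (2 ^ i) hN M hM hMle X hX hX5
    simp only [mul_one] at h1
    refine h1.trans ?_
    push_cast
    apply mul_le_mul_of_nonneg_right _ h2i.le
    have h3 := hTl M hM
    have h4 : ((2:ℝ) ^ i) ^ (-(13/600):ℝ) ≤ (M:ℝ) ^ (-(1/200):ℝ) := by
      calc ((2:ℝ) ^ i) ^ (-(13/600):ℝ) ≤ ((M:ℝ) ^ 100) ^ (-(13/600):ℝ) :=
            Real.rpow_le_rpow_of_nonpos (by positivity) hMi (by norm_num)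
        _ = (M:ℝ) ^ (-(13/6):ℝ) := by
            rw [← Real.rpow_natCast, ← Real.rpow_mul hM0.le]; norm_num
        _ ≤ _ := Real.rpow_le_rpow_of_exponent_le hM1 (by norm_num)
    have h5 : 0 < (M:ℝ) ^ (-(1/200):ℝ) := by positivity
    calc C * (Tl M + ((2:ℝ) ^ i) ^ (-(13/600):ℝ)) ≤ C * (CT * (M:ℝ) ^ (-(1/200):ℝ) + (M:ℝ) ^ (-(1/200):ℝ)) := by
          gcongr
      _ = _ := by ring
  have e2 : 2 ^ i / 2 = 2 ^ (i - 1) := by
    obtain ⟨k, rfl⟩ : ∃ k, i = k + 1 := ⟨i - 1, by omega⟩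
    rw [pow_succ, Nat.mul_div_cancel _ (by norm_num)]
    simp
  have hsp := split_sum (GG E af φ M) (2 ^ (i - 1)) (2 ^ i) (Nat.pow_le_pow_right (by norm_num) (by omega))
  push_cast at hsp
  refine hsp.trans ?_
  have hmG := GG_meas (af := af) (φ := φ) hE M
  have htr : ∀ n : ℕ, ∫⁻ R in Ico ((n:ℝ) + 4) (n + 5), GG E af φ M R = ∫⁻ X in Ico (4:ℝ) 5, GG E af φ M (X + n) := by
    intro n
    have h1 := (measurePreserving_add_right (volume : Measure ℝ) (n:ℝ)).setLIntegral_comp_preimage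
      (s := Ico ((n:ℝ) + 4) (n + 5)) measurableSet_Ico hmG
    rw [← h1]
    congr 2
    ext X
    simp only [mem_preimage, mem_Ico]
    constructor
    · rintro ⟨h1, h2⟩; constructor <;> linarith
    · rintro ⟨h1, h2⟩; constructor <;> linarith
  rw [Finset.sum_congr rfl (fun n _ => htr n), ← lintegral_finsetSum]
  · calc ∫⁻ X in Ico (4:ℝ) 5, ∑ n ∈ Finset.Ico ((2:ℕ) ^ (i - 1)) ((2:ℕ) ^ i), GG E af φ M (X + (n:ℝ))
        ≤ ∫⁻ X in Ico (4:ℝ) 5, ENNReal.ofReal (C * (CT + 1) * (M:ℝ) ^ (-(1/200):ℝ) * 2 ^ i) := by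
          apply setLIntegral_mono measurable_const
          intro X hX
          unfold GG
          rw [← ENNReal.ofReal_sum_of_nonneg (fun _ _ => sq_nonneg _)]
          apply ENNReal.ofReal_le_ofReal
          rw [← e2]
          exact hbd X hX.1 hX.2.le
      _ = _ := by
          rw [setLIntegral_const, Real.volume_Ico]
          norm_num
  · intro n _
    exact hmG.comp (measurable_id.add_const _)

/-- index of the block of `R` -/
noncomputable def ix (R : ℝ) : ℕ := Nat.log 2 ⌊R - 4⌋₊ + 1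

lemma ix_mem {R : ℝ} (hR : 8 ≤ R) : R ∈ Ico ((2:ℝ) ^ (ix R - 1) + 4) (2 ^ (ix R) + 4) := by
  unfold ix
  have h1 : 4 ≤ ⌊R - 4⌋₊ := Nat.le_floor (by push_cast; linarith)
  have h2 : (2:ℝ) ^ (Nat.log 2 ⌊R - 4⌋₊) ≤ ⌊R - 4⌋₊ := by
    exact_mod_cast Nat.pow_log_le_self 2 (by omega)
  have h3 : (⌊R - 4⌋₊ : ℝ) + 1 ≤ 2 ^ (Nat.log 2 ⌊R - 4⌋₊ + 1) := by
    exact_mod_cast Nat.lt_pow_succ_log_self (b := 2) (by norm_num) ⌊R - 4⌋₊
  have h4 := Nat.floor_le (by linarith : 0 ≤ R - 4)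
  have h5 := Nat.lt_floor_add_one (R - 4)
  rw [Nat.add_sub_cancel]
  constructor
  · linarith
  · linarith

lemma ix_mono {R S : ℝ} (h : R ≤ S) : ix R ≤ ix S := by
  unfold ix
  have : ⌊R - 4⌋₊ ≤ ⌊S - 4⌋₊ := Nat.floor_le_floor (by linarith)
  have := Nat.log_mono_right (b := 2) this
  omega

/-- mean square over `y` -/
theorem l2_y (ha : Bd af) (ha0 : af 0 = 0) (hw : Wt w) {κ₁ κ₂ C0 : ℝ} (hC0 : 0 < C0)
    (hS : Sand E af φ w κ₁ κ₂ C0) (hE : Measurable E) {c d : ℝ} (hcd : c ≤ d) :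
    ∃ C : ℝ, 0 < C ∧ ∃ ρ : ℝ, 0 < ρ ∧ ∀ A b : ℝ, 1 ≤ A → 0 < b → ρ ≤ b * exp (A * c) → ∀ M : ℕ, 1 ≤ M →
      (M:ℝ) ^ 100 ≤ b * exp (A * c) / 2 →
      ∫⁻ y in Icc c d, ENNReal.ofReal ((E (b * exp (A * y)) - U af φ (b * exp (A * y)) M) ^ 2) ≤
        ENNReal.ofReal (C * (M:ℝ) ^ (-(1/200):ℝ)) := by
  obtain ⟨C, hC, i0, hB⟩ := block (φ := φ) ha ha0 hw hC0 hS hE
  refine ⟨2 * C * (3 + 2 * (d - c)), by have : 0 ≤ d - c := by linarith
                                        positivity, max 8 (2 ^ (i0 + 1)), by positivity, ?_⟩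
  intro A b hA hb hρ M hM hM100
  have hA0 : 0 < A := by linarith
  set f : ℝ → ℝ := fun y => b * exp (A * y) with hf
  set Rc := f c with hRc
  set Rd := f d with hRd
  have hRc8 : 8 ≤ Rc := (le_max_left _ _).trans hρ
  have hRcd : Rc ≤ Rd := by
    simp only [hRc, hRd, hf]
    apply mul_le_mul_of_nonneg_left _ hb.le
    apply Real.exp_le_exp.mpr
    exact mul_le_mul_of_nonneg_left hcd hA0.le
  have hM0 : (0:ℝ) < M := by exact_mod_cast hM
  have hfd : ∀ y ∈ Icc c d, HasDerivWithinAt f (A * f y) (Icc c d) y := by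
    intro y _
    have h := ((hasDerivAt_id y).const_mul A).exp.const_mul b
    simp only [id] at h
    exact (h.congr_deriv (by simp only [hf]; ring)).hasDerivWithinAt
  have hinj : InjOn f (Icc c d) := by
    intro x _ y _ hxy
    simp only [hf] at hxy
    have h1 := mul_left_cancel₀ hb.ne' hxy
    have h2 := Real.exp_injective h1
    exact mul_left_cancel₀ hA0.ne' h2
  have hfpos : ∀ y, 0 < f y := fun y => by simp only [hf]; positivity
  have hmono : ∀ x y, x ≤ y → f x ≤ f y := by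
    intro x y hxy
    simp only [hf]
    apply mul_le_mul_of_nonneg_left _ hb.le
    apply Real.exp_le_exp.mpr
    exact mul_le_mul_of_nonneg_left hxy hA0.le
  -- change of variables
  have h1 := lintegral_image_eq_lintegral_abs_deriv_mul (s := Icc c d) measurableSet_Icc hfd hinj
    (fun R => GG E af φ M R * ENNReal.ofReal (1 / (A * R)))
  have h2 : ∫⁻ y in Icc c d, ENNReal.ofReal ((E (b * exp (A * y)) - U af φ (b * exp (A * y)) M) ^ 2) =
      ∫⁻ y in Icc c d, ENNReal.ofReal |A * f y| * (GG E af φ M (f y) * ENNReal.ofReal (1 / (A * f y))) := by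
    apply lintegral_congr
    intro y
    have h3 : 0 < A * f y := mul_pos hA0 (hfpos y)
    rw [abs_of_pos h3]
    have h4 : ENNReal.ofReal (A * f y) * ENNReal.ofReal (1 / (A * f y)) = 1 := by
      rw [← ENNReal.ofReal_mul h3.le, mul_one_div_cancel h3.ne', ENNReal.ofReal_one]
    rw [mul_comm (GG E af φ M (f y)), ← mul_assoc, h4, one_mul]
    rfl
  rw [h2, ← h1]
  -- covering
  set i1 := ix Rc with hi1
  set i2 := ix Rd with hi2
  have hi0 : i0 ≤ i1 := by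
    have h3 := (ix_mem hRc8).2
    rw [← hi1] at h3
    have h4 : (2:ℝ) ^ (i0 + 1) ≤ Rc := (le_max_right _ _).trans hρ
    by_contra hlt
    push Not at hlt
    have h5 : (2:ℝ) ^ i1 * 2 ≤ 2 ^ i0 * 1 := by
      rw [← pow_succ, mul_one]
      exact pow_le_pow_right₀ (by norm_num) (by omega)
    rw [pow_succ] at h4
    have : (0:ℝ) < 2 ^ i1 := by positivity
    nlinarith
  have hcov : f '' Icc c d ⊆ ⋃ i : (Finset.Icc i1 i2), Ico ((2:ℝ) ^ ((i:ℕ) - 1) + 4) (2 ^ (i:ℕ) + 4) := by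
    rintro R ⟨y, hy, rfl⟩
    have h3 : Rc ≤ f y := hmono c y hy.1
    have h4 : f y ≤ Rd := hmono y d hy.2
    have h5 := ix_mem (hRc8.trans h3)
    rw [mem_iUnion]
    exact ⟨⟨ix (f y), Finset.mem_Icc.mpr ⟨ix_mono h3, ix_mono h4⟩⟩, h5⟩
  have hM2 : (M:ℝ) ^ 100 ≤ 2 ^ i1 := by
    have h3 := (ix_mem hRc8).2
    rw [← hi1] at h3
    have : (M:ℝ) ^ 100 ≤ Rc / 2 := hM100
    linarith
  have hcount : ((i2 - i1 + 1 : ℕ) : ℝ) ≤ A * (3 + 2 * (d - c)) := by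
    have hi12 : i1 ≤ i2 := ix_mono hRcd
    have h3 := (ix_mem hRc8).2
    rw [← hi1] at h3
    have h4 := (ix_mem (hRc8.trans hRcd)).1
    rw [← hi2] at h4
    have hi2' : 1 ≤ i2 := by rw [hi2]; unfold ix; omega
    have e1 : (2:ℝ) ^ i2 = 2 ^ (i2 - 1) * 2 := by rw [← pow_succ, Nat.sub_add_cancel hi2']
    have h5 : (2:ℝ) ^ (i2 - i1) * 2 ^ i1 = 2 ^ i2 := by rw [← pow_add, Nat.sub_add_cancel hi12]
    have hRR : Rd = Rc * exp (A * (d - c)) := by
      simp only [hRc, hRd, hf]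
      rw [mul_assoc, ← Real.exp_add]
      congr 2; ring
    have h6 : (2:ℝ) ^ (i2 - i1) ≤ 4 * exp (A * (d - c)) := by
      have h7 : Rc / 2 < (2:ℝ) ^ i1 := by linarith
      have h8 : (2:ℝ) ^ i2 ≤ 2 * Rd := by linarith
      have h9 : (2:ℝ) ^ (i2 - i1) * (Rc / 2) ≤ (2:ℝ) ^ (i2 - i1) * 2 ^ i1 :=
        mul_le_mul_of_nonneg_left h7.le (by positivity)
      have h10 : (2:ℝ) ^ (i2 - i1) * (Rc / 2) ≤ 2 * (Rc * exp (A * (d - c))) := by
        rw [← hRR]; linarith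
      have hRc0 : 0 < Rc := by linarith
      have h11 : ((2:ℝ) ^ (i2 - i1)) * Rc ≤ (4 * exp (A * (d - c))) * Rc := by nlinarith
      exact le_of_mul_le_mul_right h11 hRc0
    have h12 : ((i2 - i1 : ℕ) : ℝ) * Real.log 2 ≤ Real.log 4 + A * (d - c) := by
      have h13 := Real.log_le_log (by positivity) h6
      rw [Real.log_pow, Real.log_mul (by norm_num) (Real.exp_pos _).ne', Real.log_exp] at h13
      exact h13
    have hl2 : (1:ℝ)/2 < Real.log 2 := by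
      have := Real.log_two_gt_d9
      linarith
    have hl4 : Real.log 4 = 2 * Real.log 2 := by
      rw [show (4:ℝ) = 2 ^ 2 by norm_num, Real.log_pow]; push_cast; ring
    rw [hl4] at h12
    push_cast
    have hdc : 0 ≤ d - c := by linarith
    have hAd : 0 ≤ A * (d - c) := by positivity
    have h14 : (((i2 - i1 : ℕ) : ℝ) - 2) * Real.log 2 ≤ A * (d - c) := by linarith
    have h15 : ((i2 - i1 : ℕ) : ℝ) - 2 ≤ 2 * (A * (d - c)) := by
      by_contra hcon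
      push Not at hcon
      nlinarith
    nlinarith
  calc ∫⁻ R in f '' Icc c d, GG E af φ M R * ENNReal.ofReal (1 / (A * R))
      ≤ ∫⁻ R in ⋃ i : (Finset.Icc i1 i2), Ico ((2:ℝ) ^ ((i:ℕ) - 1) + 4) (2 ^ (i:ℕ) + 4),
          GG E af φ M R * ENNReal.ofReal (1 / (A * R)) := lintegral_mono_set hcov
    _ ≤ ∑' i : (Finset.Icc i1 i2), ∫⁻ R in Ico ((2:ℝ) ^ ((i:ℕ) - 1) + 4) (2 ^ (i:ℕ) + 4),
          GG E af φ M R * ENNReal.ofReal (1 / (A * R)) := lintegral_iUnion_le _ _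
    _ = ∑ i ∈ Finset.Icc i1 i2, ∫⁻ R in Ico ((2:ℝ) ^ (i - 1) + 4) (2 ^ i + 4),
          GG E af φ M R * ENNReal.ofReal (1 / (A * R)) := by
        rw [tsum_fintype, Finset.sum_coe_sort (Finset.Icc i1 i2)
          (fun i : ℕ => ∫⁻ R in Ico ((2:ℝ) ^ (i - 1) + 4) (2 ^ i + 4),
          GG E af φ M R * ENNReal.ofReal (1 / (A * R)))]
    _ ≤ ∑ _i ∈ Finset.Icc i1 i2, ENNReal.ofReal (2 * C * (M:ℝ) ^ (-(1/200):ℝ) / A) := by
        apply Finset.sum_le_sum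
        intro i hi
        rw [Finset.mem_Icc] at hi
        have hi1' : 1 ≤ i := by
          have : 1 ≤ i1 := by rw [hi1]; unfold ix; omega
          omega
        have hMi : (M:ℝ) ^ 100 ≤ 2 ^ i := hM2.trans (pow_le_pow_right₀ (by norm_num) hi.1)
        have h3 := hB i (hi0.trans hi.1) M hM hMi
        have h2i : (0:ℝ) < 2 ^ (i - 1) := by positivity
        calc ∫⁻ R in Ico ((2:ℝ) ^ (i - 1) + 4) (2 ^ i + 4), GG E af φ M R * ENNReal.ofReal (1 / (A * R))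
            ≤ ∫⁻ R in Ico ((2:ℝ) ^ (i - 1) + 4) (2 ^ i + 4), GG E af φ M R * ENNReal.ofReal (1 / (A * 2 ^ (i - 1))) := by
              apply setLIntegral_mono ((GG_meas hE M).mul_const _)
              intro R hR
              apply mul_le_mul_right
              apply ENNReal.ofReal_le_ofReal
              apply one_div_le_one_div_of_le (by positivity)
              apply mul_le_mul_of_nonneg_left _ hA0.le
              linarith [hR.1]
          _ = (∫⁻ R in Ico ((2:ℝ) ^ (i - 1) + 4) (2 ^ i + 4), GG E af φ M R) * ENNReal.ofReal (1 / (A * 2 ^ (i - 1))) := by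
              rw [lintegral_mul_const _ (GG_meas hE M)]
          _ ≤ ENNReal.ofReal (C * (M:ℝ) ^ (-(1/200):ℝ) * 2 ^ i) * ENNReal.ofReal (1 / (A * 2 ^ (i - 1))) := by
              gcongr
          _ = _ := by
              rw [← ENNReal.ofReal_mul (by positivity)]
              congr 1
              have e1 : (2:ℝ) ^ i = 2 ^ (i - 1) * 2 := by rw [← pow_succ, Nat.sub_add_cancel hi1']
              rw [e1]
              field_simp
    _ = ((i2 - i1 + 1 : ℕ) : ℝ≥0∞) * ENNReal.ofReal (2 * C * (M:ℝ) ^ (-(1/200):ℝ) / A) := by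
        rw [Finset.sum_const, Nat.card_Icc, nsmul_eq_mul]
        congr 2
        have : i1 ≤ i2 := ix_mono hRcd
        omega
    _ ≤ _ := by
        rw [← ENNReal.ofReal_natCast, ← ENNReal.ofReal_mul (by positivity)]
        apply ENNReal.ofReal_le_ofReal
        have h3 : 0 ≤ 2 * C * (M:ℝ) ^ (-(1/200):ℝ) / A := by positivity
        calc ((i2 - i1 + 1 : ℕ) : ℝ) * (2 * C * (M:ℝ) ^ (-(1/200):ℝ) / A)
            ≤ (A * (3 + 2 * (d - c))) * (2 * C * (M:ℝ) ^ (-(1/200):ℝ) / A) := mul_le_mul_of_nonneg_right hcount h3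
          _ = _ := by field_simp

end Pool.Agent.R306.GP
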