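import Mathlib
import Pool.Agent.H469R2.NK.KL

/-!
Oscillatory integrals `∫ e(b exp(a y) q(y)) dy`: first derivative test.
-/

set_option autoImplicit false

open MeasureTheory Filter Topology Set Real
open Pool.Agent.H469R2.NK (e norm_e e_add conj_e e_zero)

namespace Pool.Agent.R306.GP

lemma e_hasDerivAt {f : ℝ → ℝ} {f' y : ℝ} (h : HasDerivAt f f' y) :
    HasDerivAt (fun y => e (f y)) (e (f y) * (((2 * π * f' : ℝ) : ℂ) * Complex.I)) y := by
  unfold e
  have h1 : HasDerivAt (fun y : ℝ => ((2 * π * f y : ℝ) : ℂ)) ((2 * π * f' : ℝ) : ℂ) y :=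
    (h.const_mul (2 * π)).ofReal_comp
  exact (h1.mul_const Complex.I).cexp

lemma e_cont {f : ℝ → ℝ} {s : Set ℝ} (h : ContinuousOn f s) : ContinuousOn (fun y => e (f y)) s := by
  unfold e
  have h1 : ContinuousOn (fun y : ℝ => ((2 * π * f y : ℝ) : ℂ)) s :=
    Complex.continuous_ofReal.comp_continuousOn (continuousOn_const.mul h)
  exact (h1.mul continuousOn_const).cexp

/-- first derivative test -/
lemma vdc {f f' f'' : ℝ → ℝ} {c d : ℝ} (hcd : c ≤ d)
    (h1 : ∀ y ∈ Icc c d, HasDerivAt f (f' y) y) (h2 : ∀ y ∈ Icc c d, HasDerivAt f' (f'' y) y)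
    (h3 : ContinuousOn f'' (Icc c d)) {l : ℝ} (hl : 0 < l) (hlow : ∀ y ∈ Icc c d, l ≤ |f' y|)
    {Q : ℝ} (hQ : ∀ y ∈ Icc c d, |f'' y| ≤ Q * (f' y) ^ 2) :
    ‖∫ y in c..d, e (f y)‖ ≤ 2 / l + Q * (d - c) := by
  have hpi : (0:ℝ) < π := Real.pi_pos
  have hpi3 : (3:ℝ) < π := Real.pi_gt_three
  have hne : ∀ y ∈ Icc c d, f' y ≠ 0 := by
    intro y hy h0
    have := hlow y hy
    rw [h0, abs_zero] at this
    linarith
  have hf'c : ContinuousOn f' (Icc c d) := fun y hy => (h2 y hy).continuousAt.continuousWithinAt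
  have hfc : ContinuousOn f (Icc c d) := fun y hy => (h1 y hy).continuousAt.continuousWithinAt
  have huIcc : uIcc c d = Icc c d := uIcc_of_le hcd
  set u : ℝ → ℂ := fun y => ((2 * π : ℝ) : ℂ)⁻¹ * (-Complex.I) * ((((f' y)⁻¹ : ℝ)) : ℂ) with hu
  set u' : ℝ → ℂ := fun y => ((2 * π : ℝ) : ℂ)⁻¹ * (-Complex.I) * (((-f'' y / (f' y) ^ 2 : ℝ)) : ℂ) with hu'
  set v : ℝ → ℂ := fun y => e (f y) with hv
  set v' : ℝ → ℂ := fun y => e (f y) * (((2 * π * f' y : ℝ) : ℂ) * Complex.I) with hv'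
  have hud : ∀ y ∈ uIcc c d, HasDerivAt u (u' y) y := by
    intro y hy
    rw [huIcc] at hy
    have h := ((h2 y hy).inv (hne y hy)).ofReal_comp
    exact h.const_mul _
  have hvd : ∀ y ∈ uIcc c d, HasDerivAt v (v' y) y := by
    intro y hy
    rw [huIcc] at hy
    exact e_hasDerivAt (h1 y hy)
  have hu'c : ContinuousOn u' (Icc c d) := by
    refine ContinuousOn.mul continuousOn_const (Complex.continuous_ofReal.comp_continuousOn ?_)
    exact (h3.neg).div (hf'c.pow 2) (fun y hy => pow_ne_zero _ (hne y hy))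
  have hv'c : ContinuousOn v' (Icc c d) := by
    refine ContinuousOn.mul (e_cont hfc) (ContinuousOn.mul ?_ continuousOn_const)
    exact Complex.continuous_ofReal.comp_continuousOn (continuousOn_const.mul hf'c)
  have hu'i : IntervalIntegrable u' volume c d := (huIcc ▸ hu'c).intervalIntegrable
  have hv'i : IntervalIntegrable v' volume c d := (huIcc ▸ hv'c).intervalIntegrable
  have hparts := intervalIntegral.integral_mul_deriv_eq_deriv_mul hud hvd hu'i hv'i
  have hint : ∫ y in c..d, e (f y) = ∫ y in c..d, u y * v' y := by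
    apply intervalIntegral.integral_congr
    intro y hy
    rw [huIcc] at hy
    simp only [hu, hv']
    have h0 : ((f' y : ℝ) : ℂ) ≠ 0 := by exact_mod_cast hne y hy
    have hp : (π : ℂ) ≠ 0 := by exact_mod_cast hpi.ne'
    push_cast
    field_simp
    rw [Complex.I_sq]
    ring
  have hnu : ∀ y ∈ Icc c d, ‖u y‖ ≤ 1 / l := by
    intro y hy
    simp only [hu]
    rw [norm_mul, norm_mul, norm_neg, Complex.norm_I, mul_one, norm_inv, Complex.norm_real, Complex.norm_real,
      Real.norm_eq_abs, Real.norm_eq_abs, abs_of_pos (by positivity : 0 < 2 * π), abs_inv]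
    have h5 := hlow y hy
    have h6 : |f' y|⁻¹ ≤ 1 / l := by
      rw [inv_eq_one_div]; exact one_div_le_one_div_of_le hl h5
    have h7 : (2 * π)⁻¹ ≤ 1 := inv_le_one_of_one_le₀ (by linarith)
    calc (2 * π)⁻¹ * |f' y|⁻¹ ≤ 1 * (1 / l) := mul_le_mul h7 h6 (by positivity) (by norm_num)
      _ = _ := one_mul _
  have hcm : c ∈ Icc c d := ⟨le_rfl, hcd⟩
  have hdm : d ∈ Icc c d := ⟨hcd, le_rfl⟩
  have hb : ‖∫ y in c..d, u' y * v y‖ ≤ Q * (d - c) := by
    have h8 : ∀ y ∈ Set.uIoc c d, ‖u' y * v y‖ ≤ Q := by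
      intro y hy
      rw [uIoc_of_le hcd] at hy
      have hy' : y ∈ Icc c d := ⟨hy.1.le, hy.2⟩
      simp only [hu', hv]
      rw [norm_mul, norm_e, mul_one, norm_mul, norm_mul, norm_neg, Complex.norm_I, mul_one, norm_inv,
        Complex.norm_real, Complex.norm_real, Real.norm_eq_abs, Real.norm_eq_abs,
        abs_of_pos (by positivity : 0 < 2 * π), abs_div, abs_neg, abs_pow, sq_abs]
      have h5 := hQ y hy'
      have hpos : 0 < (f' y) ^ 2 := by
        have := hne y hy'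
        positivity
      have h6 : |f'' y| / (f' y) ^ 2 ≤ Q := by
        rw [div_le_iff₀ hpos]; exact h5
      have h7 : (2 * π)⁻¹ ≤ 1 := inv_le_one_of_one_le₀ (by linarith)
      have h9 : 0 ≤ |f'' y| / (f' y) ^ 2 := by positivity
      calc (2 * π)⁻¹ * (|f'' y| / (f' y) ^ 2) ≤ 1 * (|f'' y| / (f' y) ^ 2) :=
            mul_le_mul_of_nonneg_right h7 h9
        _ ≤ Q := by rw [one_mul]; exact h6
    have h10 := intervalIntegral.norm_integral_le_of_norm_le_const h8
    rwa [abs_of_nonneg (by linarith)] at h10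
  rw [hint, hparts]
  have e1 : ‖u d * v d‖ ≤ 1 / l := by
    rw [norm_mul, norm_e, mul_one]; exact hnu d hdm
  have e2 : ‖u c * v c‖ ≤ 1 / l := by
    rw [norm_mul, norm_e, mul_one]; exact hnu c hcm
  calc ‖u d * v d - u c * v c - ∫ y in c..d, u' y * v y‖
      ≤ ‖u d * v d - u c * v c‖ + ‖∫ y in c..d, u' y * v y‖ := norm_sub_le _ _
    _ ≤ (‖u d * v d‖ + ‖u c * v c‖) + Q * (d - c) := add_le_add (norm_sub_le _ _) hb
    _ ≤ (1 / l + 1 / l) + Q * (d - c) := by linarith
    _ = _ := by ring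

/-- the constant of the phase lemma -/
noncomputable def Cp (c d δ : ℝ) : ℝ := 4 / (1 - exp (-(δ * c))) + 24 * (d - c) / (1 - exp (-(δ * c))) ^ 2 + 1

lemma theta_pos {c δ : ℝ} (hc : 0 < c) (hδ : 0 < δ) : 0 < 1 - exp (-(δ * c)) := by
  have : exp (-(δ * c)) < 1 := by
    rw [Real.exp_lt_one_iff]
    have := mul_pos hδ hc
    linarith
  linarith

lemma Cp_pos {c d δ : ℝ} (hc : 0 < c) (hcd : c ≤ d) (hδ : 0 < δ) : 0 < Cp c d δ := by
  have h1 := theta_pos hc hδ
  have h2 : 0 ≤ d - c := by linarith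
  unfold Cp
  positivity

/-- the phase lemma -/
lemma phase {c d δ : ℝ} (hc : 0 < c) (hcd : c ≤ d) (hδ : 0 < δ) {q q' q'' : ℝ → ℝ} {τ B B1 : ℝ} (hτ : 0 < τ)
    (hB1 : 0 ≤ B1)
    (hq : ∀ y ∈ Icc c d, HasDerivAt q (q' y) y) (hq' : ∀ y ∈ Icc c d, HasDerivAt q' (q'' y) y)
    (hq'' : ContinuousOn q'' (Icc c d))
    (hb : ∀ y ∈ Icc c d, τ ≤ |q y| ∧ |q y| ≤ B ∧ |q' y| ≤ B1 ∧ |q'' y| ≤ B1)
    {a1 a2 b1 b2 : ℝ} (ha2 : 1 ≤ a2) (ha1 : 0 ≤ a1) (ha : a1 + δ ≤ a2) (hb1 : 0 ≤ b1) (hb12 : b1 ≤ b2)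
    (hb2 : 0 < b2) (hbig : 4 * B1 ≤ a2 * τ * (1 - exp (-(δ * c)))) :
    ‖∫ y in c..d, e (b2 * exp (a2 * y) * q y - b1 * exp (a1 * y) * q y)‖ ≤
      Cp c d δ * ((B + B1) / τ ^ 2 + 1 / τ) / (b2 * exp (a2 * c)) := by
  set θ := 1 - exp (-(δ * c)) with hθ
  have hθ0 : 0 < θ := theta_pos hc hδ
  have hθ1 : θ ≤ 1 := by
    have := Real.exp_pos (-(δ * c))
    linarith
  have hB0 : 0 < B := lt_of_lt_of_le hτ (((hb c ⟨le_rfl, hcd⟩).1).trans (hb c ⟨le_rfl, hcd⟩).2.1)
  set X2 : ℝ → ℝ := fun y => b2 * exp (a2 * y) with hX2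
  set X1 : ℝ → ℝ := fun y => b1 * exp (a1 * y) with hX1
  set f' : ℝ → ℝ := fun y => X2 y * (a2 * q y + q' y) - X1 y * (a1 * q y + q' y) with hf'
  set f'' : ℝ → ℝ := fun y => X2 y * (a2 ^ 2 * q y + 2 * a2 * q' y + q'' y) -
    X1 y * (a1 ^ 2 * q y + 2 * a1 * q' y + q'' y) with hf''
  have hX2d : ∀ y, HasDerivAt X2 (a2 * X2 y) y := by
    intro y
    have h := ((hasDerivAt_id y).const_mul a2).exp.const_mul b2
    simp only [id] at h
    exact h.congr_deriv (by simp only [hX2]; ring)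
  have hX1d : ∀ y, HasDerivAt X1 (a1 * X1 y) y := by
    intro y
    have h := ((hasDerivAt_id y).const_mul a1).exp.const_mul b1
    simp only [id] at h
    exact h.congr_deriv (by simp only [hX1]; ring)
  have hX2p : ∀ y, 0 < X2 y := fun y => by simp only [hX2]; positivity
  have hX1p : ∀ y, 0 ≤ X1 y := fun y => by simp only [hX1]; positivity
  have hX12 : ∀ y ∈ Icc c d, X1 y ≤ (1 - θ) * X2 y := by
    intro y hy
    have hy0 : 0 < y := lt_of_lt_of_le hc hy.1
    have h1 : exp (a1 * y) ≤ exp (-(δ * c)) * exp (a2 * y) := by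
      rw [← Real.exp_add]
      apply Real.exp_le_exp.mpr
      have h3 : δ * c ≤ δ * y := mul_le_mul_of_nonneg_left hy.1 hδ.le
      have h4 : (a1 + δ) * y ≤ a2 * y := mul_le_mul_of_nonneg_right ha hy0.le
      linarith
    have h2 : 1 - θ = exp (-(δ * c)) := by rw [hθ]; ring
    rw [h2]
    simp only [hX1, hX2]
    calc b1 * exp (a1 * y) ≤ b2 * (exp (-(δ * c)) * exp (a2 * y)) :=
          mul_le_mul hb12 h1 (Real.exp_pos _).le hb2.le
      _ = _ := by ring
  have hX2c : ∀ y ∈ Icc c d, b2 * exp (a2 * c) ≤ X2 y := by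
    intro y hy
    simp only [hX2]
    apply mul_le_mul_of_nonneg_left _ hb2.le
    apply Real.exp_le_exp.mpr
    exact mul_le_mul_of_nonneg_left hy.1 (by linarith)
  have hD := vdc (f := fun y => b2 * exp (a2 * y) * q y - b1 * exp (a1 * y) * q y) (f' := f') (f'' := f'') hcd
    (l := b2 * exp (a2 * c) * (τ * θ / 2)) (Q := 24 * (B + B1) / (τ ^ 2 * θ ^ 2) / (b2 * exp (a2 * c)))
    ?_ ?_ ?_ ?_ ?_ ?_
  · refine hD.trans (le_of_eq ?_ |>.trans (?_ :
      (4 / (τ * θ) + 24 * (B + B1) * (d - c) / (τ ^ 2 * θ ^ 2)) / (b2 * exp (a2 * c)) ≤ _))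
    · field_simp
      ring
    · apply div_le_div_of_nonneg_right _ (by positivity)
      unfold Cp
      rw [← hθ]
      have hdc : 0 ≤ d - c := by linarith
      have k1 : 4 / (τ * θ) = 4 / θ * (1 / τ) := by field_simp
      have k2 : 24 * (B + B1) * (d - c) / (τ ^ 2 * θ ^ 2) = 24 * (d - c) / θ ^ 2 * ((B + B1) / τ ^ 2) := by
        field_simp
      rw [k1, k2]
      set p := 4 / θ with hp
      set r := 24 * (d - c) / θ ^ 2 with hr
      set s := (B + B1) / τ ^ 2 with hs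
      set t := 1 / τ with ht
      have p0 : 0 ≤ p := by positivity
      have r0 : 0 ≤ r := by positivity
      have s0 : 0 ≤ s := by positivity
      have t0 : 0 ≤ t := by positivity
      nlinarith [mul_nonneg p0 s0, mul_nonneg r0 t0, mul_nonneg p0 t0, mul_nonneg r0 s0]
  · intro y hy
    have h := ((hX2d y).mul (hq y hy)).sub ((hX1d y).mul (hq y hy))
    exact h.congr_deriv (by simp only [hf']; ring)
  · intro y hy
    have h := ((hX2d y).mul (((hq y hy).const_mul a2).add (hq' y hy))).sub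
      ((hX1d y).mul (((hq y hy).const_mul a1).add (hq' y hy)))
    exact h.congr_deriv (by simp only [hf'', Pi.add_apply]; ring)
  · have c1 : ContinuousOn q (Icc c d) := fun y hy => (hq y hy).continuousAt.continuousWithinAt
    have c2 : ContinuousOn q' (Icc c d) := fun y hy => (hq' y hy).continuousAt.continuousWithinAt
    have c3 : ContinuousOn X2 (Icc c d) := fun y _ => (hX2d y).continuousAt.continuousWithinAt
    have c4 : ContinuousOn X1 (Icc c d) := fun y _ => (hX1d y).continuousAt.continuousWithinAt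
    simp only [hf'']
    fun_prop
  · have := Real.exp_pos (a2 * c)
    positivity
  · intro y hy
    obtain ⟨t1, t2, t3, t4⟩ := hb y hy
    have hX := hX12 y hy
    have hXp := hX2p y
    have hX1' := hX1p y
    simp only [hf']
    have g1 : |X2 y * (a2 * q y + q' y)| = X2 y * |a2 * q y + q' y| := by
      rw [abs_mul, abs_of_pos hXp]
    have g2 : |X1 y * (a1 * q y + q' y)| = X1 y * |a1 * q y + q' y| := by
      rw [abs_mul, abs_of_nonneg hX1']
    have g3 : a2 * |q y| - B1 ≤ |a2 * q y + q' y| := by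
      have := abs_sub_abs_le_abs_sub (a2 * q y) (-q' y)
      rw [abs_neg, sub_neg_eq_add, abs_mul, abs_of_pos (by linarith : 0 < a2)] at this
      linarith
    have g4 : |a1 * q y + q' y| ≤ a2 * |q y| + B1 := by
      refine (abs_add_le _ _).trans ?_
      rw [abs_mul, abs_of_nonneg ha1]
      have : a1 * |q y| ≤ a2 * |q y| := mul_le_mul_of_nonneg_right (by linarith) (abs_nonneg _)
      linarith
    have g5 := abs_sub_abs_le_abs_sub (X2 y * (a2 * q y + q' y)) (X1 y * (a1 * q y + q' y))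
    rw [g1, g2] at g5
    refine le_trans ?_ g5
    have g6 : X2 y * (a2 * |q y| - B1) ≤ X2 y * |a2 * q y + q' y| := mul_le_mul_of_nonneg_left g3 hXp.le
    have g7 : X1 y * |a1 * q y + q' y| ≤ (1 - θ) * X2 y * (a2 * |q y| + B1) :=
      mul_le_mul hX g4 (abs_nonneg _) (by
        have : 0 ≤ 1 - θ := by linarith
        positivity)
    have g8 : a2 * τ * θ ≤ a2 * |q y| * θ := by
      apply mul_le_mul_of_nonneg_right _ hθ0.le
      exact mul_le_mul_of_nonneg_left t1 (by linarith)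
    have g9 : X2 y * (a2 * |q y| - B1) - (1 - θ) * X2 y * (a2 * |q y| + B1) =
        X2 y * (a2 * |q y| * θ - 2 * B1 + θ * B1) := by ring
    have g10 : X2 y * (a2 * τ * θ / 2) ≤ X2 y * (a2 * |q y| * θ - 2 * B1 + θ * B1) := by
      apply mul_le_mul_of_nonneg_left _ hXp.le
      have : 0 ≤ θ * B1 := by positivity
      linarith
    have g11 : b2 * exp (a2 * c) * (τ * θ / 2) ≤ X2 y * (a2 * τ * θ / 2) := by
      apply mul_le_mul (hX2c y hy) _ (by positivity) hXp.le
      have : τ * θ ≤ a2 * τ * θ := by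
        have h0 : 0 < τ * θ := by positivity
        nlinarith
      linarith
    linarith
  · intro y hy
    obtain ⟨t1, t2, t3, t4⟩ := hb y hy
    have hX := hX12 y hy
    have hXp := hX2p y
    have hX1' := hX1p y
    have ha2p : 0 < a2 := by linarith
    -- lower bound for |f'|
    have hlow : X2 y * (a2 * τ * θ / 2) ≤ |f' y| := by
      simp only [hf']
      have g1 : |X2 y * (a2 * q y + q' y)| = X2 y * |a2 * q y + q' y| := by
        rw [abs_mul, abs_of_pos hXp]
      have g2 : |X1 y * (a1 * q y + q' y)| = X1 y * |a1 * q y + q' y| := by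
        rw [abs_mul, abs_of_nonneg hX1']
      have g3 : a2 * |q y| - B1 ≤ |a2 * q y + q' y| := by
        have := abs_sub_abs_le_abs_sub (a2 * q y) (-q' y)
        rw [abs_neg, sub_neg_eq_add, abs_mul, abs_of_pos (by linarith : 0 < a2)] at this
        linarith
      have g4 : |a1 * q y + q' y| ≤ a2 * |q y| + B1 := by
        refine (abs_add_le _ _).trans ?_
        rw [abs_mul, abs_of_nonneg ha1]
        have : a1 * |q y| ≤ a2 * |q y| := mul_le_mul_of_nonneg_right (by linarith) (abs_nonneg _)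
        linarith
      have g5 := abs_sub_abs_le_abs_sub (X2 y * (a2 * q y + q' y)) (X1 y * (a1 * q y + q' y))
      rw [g1, g2] at g5
      refine le_trans ?_ g5
      have g6 : X2 y * (a2 * |q y| - B1) ≤ X2 y * |a2 * q y + q' y| := mul_le_mul_of_nonneg_left g3 hXp.le
      have g7 : X1 y * |a1 * q y + q' y| ≤ (1 - θ) * X2 y * (a2 * |q y| + B1) :=
        mul_le_mul hX g4 (abs_nonneg _) (by
          have : 0 ≤ 1 - θ := by linarith
          positivity)
      have g8 : a2 * τ * θ ≤ a2 * |q y| * θ := by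
        apply mul_le_mul_of_nonneg_right _ hθ0.le
        exact mul_le_mul_of_nonneg_left t1 (by linarith)
      have g9 : X2 y * (a2 * |q y| - B1) - (1 - θ) * X2 y * (a2 * |q y| + B1) =
          X2 y * (a2 * |q y| * θ - 2 * B1 + θ * B1) := by ring
      have g10 : X2 y * (a2 * τ * θ / 2) ≤ X2 y * (a2 * |q y| * θ - 2 * B1 + θ * B1) := by
        apply mul_le_mul_of_nonneg_left _ hXp.le
        have : 0 ≤ θ * B1 := by positivity
        linarith
      linarith
    have hup : |f'' y| ≤ 6 * X2 y * a2 ^ 2 * (B + B1) := by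
      simp only [hf'']
      have k1 : |a2 ^ 2 * q y + 2 * a2 * q' y + q'' y| ≤ 3 * a2 ^ 2 * (B + B1) := by
        have l1 : |a2 ^ 2 * q y| ≤ a2 ^ 2 * B := by
          rw [abs_mul, abs_of_nonneg (sq_nonneg a2)]
          exact mul_le_mul_of_nonneg_left t2 (sq_nonneg _)
        have l2 : |2 * a2 * q' y| ≤ 2 * a2 * B1 := by
          rw [abs_mul, abs_of_pos (by linarith : 0 < 2 * a2)]
          exact mul_le_mul_of_nonneg_left t3 (by linarith)
        have l3 : |a2 ^ 2 * q y + 2 * a2 * q' y + q'' y| ≤ a2 ^ 2 * B + 2 * a2 * B1 + B1 := by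
          refine (abs_add_le _ _).trans (add_le_add ((abs_add_le _ _).trans (add_le_add l1 l2)) t4)
        have l4 : a2 ≤ a2 ^ 2 := by nlinarith
        have l5 : 1 ≤ a2 ^ 2 := by nlinarith
        nlinarith [mul_nonneg (sq_nonneg a2) hB0.le, mul_le_mul_of_nonneg_right l4 hB1, mul_le_mul_of_nonneg_right l5 hB1]
      have k2 : |a1 ^ 2 * q y + 2 * a1 * q' y + q'' y| ≤ 3 * a2 ^ 2 * (B + B1) := by
        have h12 : a1 ≤ a2 := by linarith
        have l1 : |a1 ^ 2 * q y| ≤ a2 ^ 2 * B := by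
          rw [abs_mul, abs_of_nonneg (sq_nonneg a1)]
          exact mul_le_mul (pow_le_pow_left₀ ha1 h12 2) t2 (abs_nonneg _) (sq_nonneg _)
        have l2 : |2 * a1 * q' y| ≤ 2 * a2 * B1 := by
          rw [abs_mul, abs_of_nonneg (by linarith : 0 ≤ 2 * a1)]
          exact mul_le_mul (by linarith) t3 (abs_nonneg _) (by linarith)
        have l3 : |a1 ^ 2 * q y + 2 * a1 * q' y + q'' y| ≤ a2 ^ 2 * B + 2 * a2 * B1 + B1 := by
          refine (abs_add_le _ _).trans (add_le_add ((abs_add_le _ _).trans (add_le_add l1 l2)) t4)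
        have l4 : a2 ≤ a2 ^ 2 := by nlinarith
        have l5 : 1 ≤ a2 ^ 2 := by nlinarith
        nlinarith [mul_nonneg (sq_nonneg a2) hB0.le, mul_le_mul_of_nonneg_right l4 hB1, mul_le_mul_of_nonneg_right l5 hB1]
      have hX1le : X1 y ≤ X2 y := by
        have : (1 - θ) * X2 y ≤ 1 * X2 y := mul_le_mul_of_nonneg_right (by linarith) hXp.le
        linarith
      have hK0 : 0 ≤ 3 * a2 ^ 2 * (B + B1) := by positivity
      calc |X2 y * (a2 ^ 2 * q y + 2 * a2 * q' y + q'' y) - X1 y * (a1 ^ 2 * q y + 2 * a1 * q' y + q'' y)|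
          ≤ |X2 y * (a2 ^ 2 * q y + 2 * a2 * q' y + q'' y)| + |X1 y * (a1 ^ 2 * q y + 2 * a1 * q' y + q'' y)| :=
            abs_sub _ _
        _ = X2 y * |a2 ^ 2 * q y + 2 * a2 * q' y + q'' y| + X1 y * |a1 ^ 2 * q y + 2 * a1 * q' y + q'' y| := by
            rw [abs_mul (X2 y), abs_mul (X1 y), abs_of_pos hXp, abs_of_nonneg hX1']
        _ ≤ X2 y * (3 * a2 ^ 2 * (B + B1)) + X2 y * (3 * a2 ^ 2 * (B + B1)) :=
            add_le_add (mul_le_mul_of_nonneg_left k1 hXp.le) (mul_le_mul hX1le k2 (abs_nonneg _) hXp.le)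
        _ = _ := by ring
    have hsq : (X2 y * (a2 * τ * θ / 2)) ^ 2 ≤ (f' y) ^ 2 := by
      rw [← sq_abs (f' y)]
      exact pow_le_pow_left₀ (by positivity) hlow 2
    have hXc := hX2c y hy
    have hbc : 0 < b2 * exp (a2 * c) := by positivity
    calc |f'' y| ≤ 6 * X2 y * a2 ^ 2 * (B + B1) := hup
      _ ≤ 24 * (B + B1) / (τ ^ 2 * θ ^ 2) / (b2 * exp (a2 * c)) * (X2 y * (a2 * τ * θ / 2)) ^ 2 := by
          rw [div_div, div_mul_eq_mul_div, le_div_iff₀ (by positivity)]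
          have : 6 * X2 y * a2 ^ 2 * (B + B1) * (τ ^ 2 * θ ^ 2 * (b2 * exp (a2 * c))) ≤
              6 * X2 y * a2 ^ 2 * (B + B1) * (τ ^ 2 * θ ^ 2 * X2 y) := by
            gcongr
          refine this.trans (le_of_eq ?_)
          ring
      _ ≤ _ := by
          apply mul_le_mul_of_nonneg_left hsq
          positivity

end Pool.Agent.R306.GP
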