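import Mathlib
import Pool.Agent.R306.GP.VdC
import Pool.Agent.Y969.TM4

/-!
Second moments of exponential sums along `b_n exp(a_n y)`, and of the powers of the model polynomials.
-/

set_option autoImplicit false

open MeasureTheory Filter Topology Set Real
open Pool.Agent.H469R2.NK (e norm_e e_add conj_e e_zero)
open Pool.Agent.H383.Gen (U Bd)
open Pool.Agent.Y969.TM

namespace Pool.Agent.R306.GP

/-- admissible sequences -/
structure Sq (a b : ℕ → ℝ) (δ : ℝ) : Prop where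
  dpos : 0 < δ
  done : δ ≤ 1
  one : ∀ n, 1 ≤ a n
  gap : ∀ n, a n + δ ≤ a (n + 1)
  pos : ∀ n, 0 < b n
  mono : Monotone b

/-- the points -/
noncomputable def pt (a b : ℕ → ℝ) (n : ℕ) (y : ℝ) : ℝ := b n * exp (a n * y)

variable {a b : ℕ → ℝ} {δ c d : ℝ}

lemma Sq.gap' (h : Sq a b δ) {n m : ℕ} (hnm : n < m) : a n + δ ≤ a m := by
  have hmono : Monotone a := monotone_nat_of_le_succ (fun k => by have := h.gap k; have := h.dpos; linarith)
  exact (h.gap n).trans (hmono hnm)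

lemma Sq.low (h : Sq a b δ) (n : ℕ) : 1 + δ * n ≤ a n := by
  induction n with
  | zero => have := h.one 0; simpa using this
  | succ n ih =>
    have := h.gap n
    push_cast
    linarith

lemma pt_pos (h : Sq a b δ) (n : ℕ) (y : ℝ) : 0 < pt a b n y := mul_pos (h.pos n) (Real.exp_pos _)

lemma pt_low (h : Sq a b δ) (hc : 0 ≤ c) (n : ℕ) : b 0 * exp (δ * c * n) ≤ pt a b n c := by
  unfold pt
  apply mul_le_mul (h.mono (Nat.zero_le n)) _ (Real.exp_pos _).le (h.pos n).le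
  apply Real.exp_le_exp.mpr
  have h1 := mul_le_mul_of_nonneg_right (h.low n) hc
  nlinarith

lemma pt_mono (h : Sq a b δ) (hc : 0 ≤ c) {n m : ℕ} (hnm : n ≤ m) : pt a b n c ≤ pt a b m c := by
  unfold pt
  apply mul_le_mul (h.mono hnm) _ (Real.exp_pos _).le (h.pos m).le
  apply Real.exp_le_exp.mpr
  apply mul_le_mul_of_nonneg_right _ hc
  rcases hnm.lt_or_eq with h1 | h1
  · have := h.gap' h1
    have := h.dpos
    linarith
  · rw [h1]

lemma pt_cont (a b : ℕ → ℝ) (n : ℕ) : Continuous (pt a b n) := by unfold pt; fun_prop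

lemma e_continuous : Continuous e := by
  unfold e
  fun_prop

/-- the second moment of a sum of exponentials -/
lemma sqsum (hcd : c ≤ d) (S : Finset ℕ) {Ψ : ℕ → ℝ → ℝ} (hΨ : ∀ n, Continuous (Ψ n)) {K : ℕ → ℝ}
    (hK : ∀ m ∈ S, ∀ n ∈ S, n < m → ‖∫ y in c..d, e (Ψ m y - Ψ n y)‖ ≤ K m ∧
      ‖∫ y in c..d, e (Ψ n y - Ψ m y)‖ ≤ K m) (hK0 : ∀ m, 0 ≤ K m) :
    ∫ y in c..d, ‖∑ n ∈ S, e (Ψ n y)‖ ^ 2 ≤ S.card * (d - c) + 2 * (S.card * ∑ m ∈ S, K m) := by
  have h1 : ∀ y : ℝ, (((‖∑ n ∈ S, e (Ψ n y)‖ ^ 2 : ℝ)) : ℂ) = ∑ m ∈ S, ∑ n ∈ S, e (Ψ m y - Ψ n y) := by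
    intro y
    have h2 : (((‖∑ n ∈ S, e (Ψ n y)‖ ^ 2 : ℝ)) : ℂ) =
        (∑ n ∈ S, e (Ψ n y)) * (starRingEnd ℂ) (∑ n ∈ S, e (Ψ n y)) := by
      rw [Complex.mul_conj, Complex.normSq_eq_norm_sq]
    rw [h2, map_sum, Finset.sum_mul_sum]
    apply Finset.sum_congr rfl
    intro m _
    apply Finset.sum_congr rfl
    intro n _
    rw [conj_e, ← e_add, sub_eq_add_neg]
  have hc2 : ∀ m n, Continuous fun y => e (Ψ m y - Ψ n y) := fun m n =>
    e_continuous.comp ((hΨ m).sub (hΨ n))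
  have h3 : ((∫ y in c..d, ‖∑ n ∈ S, e (Ψ n y)‖ ^ 2 : ℝ) : ℂ) =
      ∑ m ∈ S, ∑ n ∈ S, ∫ y in c..d, e (Ψ m y - Ψ n y) := by
    rw [← intervalIntegral.integral_ofReal]
    rw [intervalIntegral.integral_congr (fun y _ => h1 y)]
    rw [intervalIntegral.integral_finsetSum]
    · apply Finset.sum_congr rfl
      intro m _
      rw [intervalIntegral.integral_finsetSum]
      intro n _
      exact (hc2 m n).intervalIntegrable _ _
    · intro m _
      exact (continuous_finsetSum _ fun n _ => hc2 m n).intervalIntegrable _ _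
  have h4 : ∫ y in c..d, ‖∑ n ∈ S, e (Ψ n y)‖ ^ 2 ≤ ∑ m ∈ S, ∑ n ∈ S, ‖∫ y in c..d, e (Ψ m y - Ψ n y)‖ := by
    have h5 : ∫ y in c..d, ‖∑ n ∈ S, e (Ψ n y)‖ ^ 2 ≤
        ‖((∫ y in c..d, ‖∑ n ∈ S, e (Ψ n y)‖ ^ 2 : ℝ) : ℂ)‖ := by
      rw [Complex.norm_real]; exact Real.le_norm_self _
    refine h5.trans ?_
    rw [h3]
    refine (norm_sum_le _ _).trans (Finset.sum_le_sum fun m _ => norm_sum_le _ _)
  refine h4.trans ?_
  have h6 : ∀ m ∈ S, ∀ n ∈ S, ‖∫ y in c..d, e (Ψ m y - Ψ n y)‖ ≤ (if m = n then (d - c) else 0) + (K m + K n) := by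
    intro m hm n hn
    rcases lt_trichotomy n m with h | h | h
    · rw [if_neg (by omega)]
      have := (hK m hm n hn h).1
      have := hK0 n
      linarith
    · subst h
      rw [if_pos rfl]
      simp only [sub_self, e_zero]
      rw [intervalIntegral.integral_const]
      have h7 : ‖((d - c : ℝ) : ℂ)‖ = d - c := by
        rw [Complex.norm_real, Real.norm_eq_abs, abs_of_nonneg (by linarith)]
      have := hK0 n
      simp only [Complex.real_smul, mul_one]
      rw [h7]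
      linarith
    · rw [if_neg (by omega)]
      have := (hK n hn m hm h).2
      have := hK0 m
      linarith
  calc ∑ m ∈ S, ∑ n ∈ S, ‖∫ y in c..d, e (Ψ m y - Ψ n y)‖
      ≤ ∑ m ∈ S, ∑ n ∈ S, ((if m = n then (d - c) else 0) + (K m + K n)) :=
        Finset.sum_le_sum fun m hm => Finset.sum_le_sum fun n hn => h6 m hm n hn
    _ = S.card * (d - c) + 2 * (S.card * ∑ m ∈ S, K m) := by
        simp only [Finset.sum_add_distrib, Finset.sum_const, nsmul_eq_mul, ← Finset.mul_sum]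
        have : ∑ m ∈ S, ∑ n ∈ S, (if m = n then (d - c) else 0) = S.card * (d - c) := by
          rw [Finset.sum_congr rfl (fun m hm => by rw [Finset.sum_ite_eq S m, if_pos hm])]
          rw [Finset.sum_const, nsmul_eq_mul]
        rw [this]
        ring

/-- the phases with a constant frequency -/
lemma const_phase (h : Sq a b δ) (hc : 0 < c) (hcd : c ≤ d) {ω : ℝ} (hω : ω ≠ 0) {n m : ℕ} (hnm : n < m) :
    ‖∫ y in c..d, e (pt a b m y * ω - pt a b n y * ω)‖ ≤ 2 * Cp c d δ / (|ω| * pt a b m c) := by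
  have hω0 : 0 < |ω| := abs_pos.mpr hω
  have h1 := phase (q := fun _ => ω) (q' := fun _ => 0) (q'' := fun _ => 0) (τ := |ω|) (B := |ω|) (B1 := 0) hc hcd
    h.dpos hω0 le_rfl (fun y _ => hasDerivAt_const y ω) (fun y _ => hasDerivAt_const y 0) continuousOn_const
    (fun y _ => ⟨le_rfl, le_rfl, by simp, by simp⟩) (a1 := a n) (a2 := a m) (b1 := b n) (b2 := b m)
    (h.one m) (by linarith [h.one n]) (h.gap' hnm) (h.pos n).le (h.mono hnm.le) (h.pos m) (by
      have := theta_pos hc h.dpos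
      have h2 := h.one m
      have : 0 ≤ a m := by linarith
      rw [mul_zero]
      positivity)
  refine h1.trans (le_of_eq ?_)
  unfold pt
  rw [add_zero]
  field_simp
  ring

lemma single_phase (h : Sq a b δ) (hc : 0 < c) (hcd : c ≤ d) {ω : ℝ} (hω : ω ≠ 0) (n : ℕ) :
    ‖∫ y in c..d, e (pt a b n y * ω)‖ ≤ 2 * Cp c d δ / (|ω| * pt a b n c) := by
  have hω0 : 0 < |ω| := abs_pos.mpr hω
  have h1 := phase (q := fun _ => ω) (q' := fun _ => 0) (q'' := fun _ => 0) (τ := |ω|) (B := |ω|) (B1 := 0) hc hcd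
    h.dpos hω0 le_rfl (fun y _ => hasDerivAt_const y ω) (fun y _ => hasDerivAt_const y 0) continuousOn_const
    (fun y _ => ⟨le_rfl, le_rfl, by simp, by simp⟩) (a1 := a n - δ) (a2 := a n) (b1 := 0) (b2 := b n)
    (h.one n) (by linarith [h.one n, h.done]) (by linarith) le_rfl (h.pos n).le (h.pos n) (by
      have := theta_pos hc h.dpos
      have h2 := h.one n
      have : 0 ≤ a n := by linarith
      rw [mul_zero]
      positivity)
  simp only [zero_mul, sub_zero] at h1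
  refine h1.trans (le_of_eq ?_)
  unfold pt
  rw [add_zero]
  field_simp
  ring

/-- second moment with a constant frequency -/
lemma sq_const (h : Sq a b δ) (hc : 0 < c) (hcd : c ≤ d) {ω : ℝ} (hω : ω ≠ 0) (N1 N2 : ℕ) :
    ∫ y in c..d, ‖∑ n ∈ Finset.Ico N1 N2, e (pt a b n y * ω)‖ ^ 2 ≤
      (N2 - N1 : ℕ) * (d - c) + 2 * ((N2 - N1 : ℕ) * ((N2 - N1 : ℕ) * (2 * Cp c d δ / (|ω| * pt a b N1 c)))) := by
  have hω0 : 0 < |ω| := abs_pos.mpr hω
  have hCp := Cp_pos hc hcd h.dpos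
  have h1 := sqsum (c := c) (d := d) hcd (Finset.Ico N1 N2) (Ψ := fun n y => pt a b n y * ω)
    (fun n => (pt_cont a b n).mul continuous_const) (K := fun m => 2 * Cp c d δ / (|ω| * pt a b m c)) ?_ ?_
  · refine h1.trans ?_
    rw [Nat.card_Ico]
    have h2 : ∑ m ∈ Finset.Ico N1 N2, 2 * Cp c d δ / (|ω| * pt a b m c) ≤
        (N2 - N1 : ℕ) * (2 * Cp c d δ / (|ω| * pt a b N1 c)) := by
      calc ∑ m ∈ Finset.Ico N1 N2, 2 * Cp c d δ / (|ω| * pt a b m c) ≤
          ∑ _m ∈ Finset.Ico N1 N2, 2 * Cp c d δ / (|ω| * pt a b N1 c) := by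
            apply Finset.sum_le_sum
            intro m hm
            have h3 := pt_mono h hc.le (Finset.mem_Ico.mp hm).1
            have h4 := pt_pos h N1 c
            apply div_le_div_of_nonneg_left (by positivity) (by positivity)
            exact mul_le_mul_of_nonneg_left h3 hω0.le
        _ = _ := by rw [Finset.sum_const, Nat.card_Ico, nsmul_eq_mul]
    have h5 : (0:ℝ) ≤ ((N2 - N1 : ℕ) : ℝ) := Nat.cast_nonneg _
    have h6 := mul_le_mul_of_nonneg_left h2 h5
    linarith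
  · intro m _ n _ hnm
    refine ⟨const_phase h hc hcd hω hnm, ?_⟩
    have h3 := const_phase h hc hcd (neg_ne_zero.mpr hω) hnm (c := c) (d := d)
    rw [abs_neg] at h3
    refine le_trans (le_of_eq ?_) h3
    congr 2
    funext y
    congr 1
    ring
  · intro m
    have h4 := pt_pos h m c
    positivity

end Pool.Agent.R306.GP
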