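import Mathlib
import Pool.Agent.R306.GP.Sums

/-!
Second moments of the sums of the powers of the model polynomials along `b_n exp(a_n y)`.
-/

set_option autoImplicit false

open MeasureTheory Filter Topology Set Real
open Pool.Agent.H469R2.NK (e norm_e e_add conj_e e_zero)
open Pool.Agent.H383.Gen (U Bd)
open Pool.Agent.Y969.TM

namespace Pool.Agent.R306.GP

variable {a b : ℕ → ℝ} {δ c d : ℝ}

/-- the sum of the absolute values of the coefficients -/
noncomputable def AA (af : ℕ → ℝ) (M : ℕ) : ℝ := ∑ m ∈ Finset.Icc 1 (M^2), |af m|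

lemma AA_nonneg (af : ℕ → ℝ) (M : ℕ) : 0 ≤ AA af M := Finset.sum_nonneg fun _ _ => abs_nonneg _

open Classical in
lemma pow_expand (af : ℕ → ℝ) (φ : ℝ) (r M : ℕ) (R : ℝ) :
    ((U af φ R M : ℝ) : ℂ) ^ r - ZZ af φ r M =
      ∑ y ∈ (TT r M).filter (fun y => ∑ i, fq (y i) ≠ 0), (∏ i, cf af φ (y i)) * e (R * ∑ i, fq (y i)) := by
  rw [U_pow, ← Finset.sum_filter_add_sum_filter_not (TT r M) (fun y => ∑ i, fq (y i) = 0)]
  have h1 : ∑ y ∈ (TT r M).filter (fun y => ∑ i, fq (y i) = 0), (∏ i, cf af φ (y i)) * e (R * ∑ i, fq (y i)) =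
      ZZ af φ r M := by
    unfold ZZ
    apply Finset.sum_congr rfl
    intro y hy
    rw [(Finset.mem_filter.mp hy).2, mul_zero, e_zero, mul_one]
  rw [h1]
  ring

lemma gap_inv {r M : ℕ} {y : Fin r → ℕ × Bool} (hy : y ∈ TT r M) (hne : ∑ i, fq (y i) ≠ 0) {P : ℝ} (hP : 0 < P) :
    1 / (|∑ i, fq (y i)| * P) ≤ ((r * M + 1 : ℕ) : ℝ) ^ (2 ^ r) / P := by
  have h1 := sum_fq_gap hy hne
  have h0 : 0 < |∑ i, fq (y i)| := abs_pos.mpr hne
  rw [div_le_div_iff₀ (by positivity) hP, one_mul]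
  calc P = P * 1 := (mul_one P).symm
    _ ≤ P * (|∑ i, fq (y i)| * ((r * M + 1 : ℕ) : ℝ) ^ (2 ^ r)) := mul_le_mul_of_nonneg_left h1 hP.le
    _ = _ := by ring

lemma sum_norm_filter (af : ℕ → ℝ) (φ : ℝ) (r M : ℕ) (p : (Fin r → ℕ × Bool) → Prop) [DecidablePred p] :
    ∑ y ∈ (TT r M).filter p, ‖∏ i, cf af φ (y i)‖ ≤ AA af M ^ r := by
  unfold AA
  rw [← sum_prod_norm af φ r M]
  exact Finset.sum_le_sum_of_subset_of_nonneg (Finset.filter_subset _ _) fun _ _ _ => norm_nonneg _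

/-- second moment -/
lemma pow_sq (h : Sq a b δ) (hc : 0 < c) (hcd : c ≤ d) (af : ℕ → ℝ) (φ : ℝ) (r M N1 N2 : ℕ) :
    ∫ y in c..d, ‖∑ n ∈ Finset.Ico N1 N2, (((U af φ (pt a b n y) M : ℝ) : ℂ) ^ r - ZZ af φ r M)‖ ^ 2 ≤
      AA af M ^ r * (AA af M ^ r * ((N2 - N1 : ℕ) * (d - c) + 2 * ((N2 - N1 : ℕ) * ((N2 - N1 : ℕ) *
        (2 * Cp c d δ * (((r * M + 1 : ℕ) : ℝ) ^ (2 ^ r) / pt a b N1 c)))))) := by
  classical
  set T := (TT r M).filter (fun y => ∑ i, fq (y i) ≠ 0) with hT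
  set cc : (Fin r → ℕ × Bool) → ℂ := fun y => ∏ i, cf af φ (y i) with hcc
  set s : (Fin r → ℕ × Bool) → ℝ → ℂ := fun η y => ∑ n ∈ Finset.Ico N1 N2, e (pt a b n y * ∑ i, fq (η i)) with hs
  have hCp := Cp_pos hc hcd h.dpos
  have hpt := pt_pos h N1 c
  have e1 : ∀ y : ℝ, ∑ n ∈ Finset.Ico N1 N2, (((U af φ (pt a b n y) M : ℝ) : ℂ) ^ r - ZZ af φ r M) =
      ∑ η ∈ T, cc η * s η y := by
    intro y
    simp only [pow_expand, hs, hcc, hT]
    rw [Finset.sum_comm]
    apply Finset.sum_congr rfl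
    intro η _
    rw [Finset.mul_sum]
  have hA : ∑ η ∈ T, ‖cc η‖ ≤ AA af M ^ r := sum_norm_filter af φ r M _
  have hA0 : 0 ≤ AA af M ^ r := pow_nonneg (AA_nonneg _ _) _
  have hscont : ∀ η, Continuous (s η) := by
    intro η
    simp only [hs]
    exact continuous_finsetSum _ fun n _ => e_continuous.comp ((pt_cont a b n).mul continuous_const)
  have e2 : ∀ y : ℝ, ‖∑ η ∈ T, cc η * s η y‖ ^ 2 ≤ AA af M ^ r * ∑ η ∈ T, ‖cc η‖ * ‖s η y‖ ^ 2 := by
    intro y
    have h1 : ‖∑ η ∈ T, cc η * s η y‖ ≤ ∑ η ∈ T, √‖cc η‖ * (√‖cc η‖ * ‖s η y‖) := by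
      refine (norm_sum_le _ _).trans (le_of_eq ?_)
      apply Finset.sum_congr rfl
      intro η _
      rw [norm_mul, ← mul_assoc, Real.mul_self_sqrt (norm_nonneg _)]
    calc ‖∑ η ∈ T, cc η * s η y‖ ^ 2 ≤ (∑ η ∈ T, √‖cc η‖ * (√‖cc η‖ * ‖s η y‖)) ^ 2 :=
          pow_le_pow_left₀ (norm_nonneg _) h1 2
      _ ≤ (∑ η ∈ T, √‖cc η‖ ^ 2) * ∑ η ∈ T, (√‖cc η‖ * ‖s η y‖) ^ 2 := Finset.sum_mul_sq_le_sq_mul_sq _ _ _
      _ = (∑ η ∈ T, ‖cc η‖) * ∑ η ∈ T, ‖cc η‖ * ‖s η y‖ ^ 2 := by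
          congr 1
          · exact Finset.sum_congr rfl fun η _ => Real.sq_sqrt (norm_nonneg _)
          · exact Finset.sum_congr rfl fun η _ => by rw [mul_pow, Real.sq_sqrt (norm_nonneg _)]
      _ ≤ _ := by
          apply mul_le_mul_of_nonneg_right hA
          exact Finset.sum_nonneg fun η _ => by positivity
  have hcontL : Continuous fun y => ‖∑ n ∈ Finset.Ico N1 N2, (((U af φ (pt a b n y) M : ℝ) : ℂ) ^ r - ZZ af φ r M)‖ ^ 2 := by
    simp only [e1]
    exact (continuous_finsetSum _ fun η _ => continuous_const.mul (hscont η)).norm.pow 2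
  have hcontR : Continuous fun y => AA af M ^ r * ∑ η ∈ T, ‖cc η‖ * ‖s η y‖ ^ 2 :=
    continuous_const.mul (continuous_finsetSum _ fun η _ => continuous_const.mul ((hscont η).norm.pow 2))
  calc ∫ y in c..d, ‖∑ n ∈ Finset.Ico N1 N2, (((U af φ (pt a b n y) M : ℝ) : ℂ) ^ r - ZZ af φ r M)‖ ^ 2
      ≤ ∫ y in c..d, AA af M ^ r * ∑ η ∈ T, ‖cc η‖ * ‖s η y‖ ^ 2 := by
        apply intervalIntegral.integral_mono_on hcd (hcontL.intervalIntegrable _ _) (hcontR.intervalIntegrable _ _)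
        intro y _
        rw [e1]
        exact e2 y
    _ = AA af M ^ r * ∑ η ∈ T, ‖cc η‖ * ∫ y in c..d, ‖s η y‖ ^ 2 := by
        rw [intervalIntegral.integral_const_mul, intervalIntegral.integral_finsetSum]
        · congr 1
          apply Finset.sum_congr rfl
          intro η _
          rw [intervalIntegral.integral_const_mul]
        · intro η _
          exact (continuous_const.mul ((hscont η).norm.pow 2)).intervalIntegrable _ _
    _ ≤ AA af M ^ r * ∑ η ∈ T, ‖cc η‖ * ((N2 - N1 : ℕ) * (d - c) + 2 * ((N2 - N1 : ℕ) * ((N2 - N1 : ℕ) *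
        (2 * Cp c d δ * (((r * M + 1 : ℕ) : ℝ) ^ (2 ^ r) / pt a b N1 c))))) := by
        apply mul_le_mul_of_nonneg_left _ hA0
        apply Finset.sum_le_sum
        intro η hη
        apply mul_le_mul_of_nonneg_left _ (norm_nonneg _)
        rw [hT, Finset.mem_filter] at hη
        have h2 := sq_const h hc hcd hη.2 N1 N2
        refine h2.trans ?_
        have h3 := gap_inv hη.1 hη.2 hpt
        have h4 : 2 * Cp c d δ / (|∑ i, fq (η i)| * pt a b N1 c) ≤
            2 * Cp c d δ * (((r * M + 1 : ℕ) : ℝ) ^ (2 ^ r) / pt a b N1 c) := by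
          rw [div_eq_mul_one_div]
          exact mul_le_mul_of_nonneg_left h3 (by positivity)
        have h5 : (0:ℝ) ≤ ((N2 - N1 : ℕ) : ℝ) := Nat.cast_nonneg _
        have h6 := mul_le_mul_of_nonneg_left (mul_le_mul_of_nonneg_left h4 h5) h5
        linarith
    _ ≤ _ := by
        apply mul_le_mul_of_nonneg_left _ hA0
        rw [← Finset.sum_mul]
        apply mul_le_mul_of_nonneg_right hA
        have h5 : (0:ℝ) ≤ ((N2 - N1 : ℕ) : ℝ) := Nat.cast_nonneg _
        have h6 : 0 ≤ d - c := by linarith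
        positivity

/-- the mean over the interval of parameters -/
lemma pow_mean_int (h : Sq a b δ) (hc : 0 < c) (hcd : c ≤ d) (af : ℕ → ℝ) (φ : ℝ) (r M n : ℕ) :
    ‖∫ y in c..d, (((U af φ (pt a b n y) M : ℝ) : ℂ) ^ r - ZZ af φ r M)‖ ≤
      AA af M ^ r * (2 * Cp c d δ * (((r * M + 1 : ℕ) : ℝ) ^ (2 ^ r) / pt a b n c)) := by
  classical
  have hCp := Cp_pos hc hcd h.dpos
  have hpt := pt_pos h n c
  simp only [pow_expand]
  rw [intervalIntegral.integral_finsetSum]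
  · refine (norm_sum_le _ _).trans ?_
    calc ∑ η ∈ (TT r M).filter (fun y => ∑ i, fq (y i) ≠ 0), ‖∫ y in c..d, (∏ i, cf af φ (η i)) * e (pt a b n y * ∑ i, fq (η i))‖
        ≤ ∑ η ∈ (TT r M).filter (fun y => ∑ i, fq (y i) ≠ 0), ‖∏ i, cf af φ (η i)‖ *
          (2 * Cp c d δ * (((r * M + 1 : ℕ) : ℝ) ^ (2 ^ r) / pt a b n c)) := by
          apply Finset.sum_le_sum
          intro η hη
          rw [intervalIntegral.integral_const_mul, norm_mul]
          apply mul_le_mul_of_nonneg_left _ (norm_nonneg _)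
          rw [Finset.mem_filter] at hη
          refine (single_phase h hc hcd hη.2 n).trans ?_
          rw [div_eq_mul_one_div]
          exact mul_le_mul_of_nonneg_left (gap_inv hη.1 hη.2 hpt) (by positivity)
      _ ≤ _ := by
          rw [← Finset.sum_mul]
          exact mul_le_mul_of_nonneg_right (sum_norm_filter af φ r M _) (by positivity)
  · intro η _
    exact (continuous_const.mul (e_continuous.comp ((pt_cont a b n).mul continuous_const))).intervalIntegrable _ _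

end Pool.Agent.R306.GP
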