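import Mathlib
import Pool.Agent.R306.GP.Pows
import Pool.Agent.R306.GP.MS

/-!
Almost everywhere statements along `b_n exp(a_n y)`: tools.
-/

set_option autoImplicit false

open MeasureTheory Filter Topology Set Real
open scoped ENNReal
open Pool.Agent.H469R2.NK (e norm_e e_add conj_e e_zero)
open Pool.Agent.H383.Gen (U Bd)
open Pool.Agent.H383.GW (Wt Sand)
open Pool.Agent.Y969.TM

namespace Pool.Agent.R306.GP

/-- a series of integrals that converges gives convergence to zero almost everywhere -/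
lemma ae_zero {μ : Measure ℝ} {g : ℕ → ℝ → ℝ} (hm : ∀ j, Measurable (g j)) {B : ℕ → ℝ} (hB : Summable B)
    {j0 : ℕ} (hint : ∀ j, j0 ≤ j → ∫⁻ y, ENNReal.ofReal (g j y) ∂μ ≤ ENNReal.ofReal (B j)) (h0 : ∀ j y, 0 ≤ g j y) :
    ∀ᵐ y ∂μ, Tendsto (fun j => g j y) atTop (𝓝 0) := by
  have hB' : Summable fun j => |B (j + j0)| := ((summable_nat_add_iff j0).mpr hB).abs
  have h1 : ∫⁻ y, ∑' j, ENNReal.ofReal (g (j + j0) y) ∂μ ≤ ∑' j, ENNReal.ofReal |B (j + j0)| := by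
    rw [lintegral_tsum (fun j => (hm _).ennreal_ofReal.aemeasurable)]
    exact ENNReal.tsum_le_tsum fun j => (hint _ (by omega)).trans (ENNReal.ofReal_le_ofReal (le_abs_self _))
  have h2 : ∑' j, ENNReal.ofReal |B (j + j0)| ≠ ∞ := by
    rw [← ENNReal.ofReal_tsum_of_nonneg (fun _ => abs_nonneg _) hB']
    exact ENNReal.ofReal_ne_top
  have h3 : ∀ᵐ y ∂μ, ∑' j, ENNReal.ofReal (g (j + j0) y) < ∞ :=
    ae_lt_top (Measurable.tsum fun j => (hm _).ennreal_ofReal) (ne_top_of_le_ne_top h2 h1)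
  filter_upwards [h3] with y hy
  have h4 := ENNReal.tendsto_atTop_zero_of_tsum_ne_top hy.ne
  have h5 : Tendsto (fun j => g (j + j0) y) atTop (𝓝 0) := by
    have h6 := (ENNReal.tendsto_toReal ENNReal.zero_ne_top).comp h4
    simp only [ENNReal.toReal_zero] at h6
    refine h6.congr fun j => ?_
    simp only [Function.comp_apply]
    exact ENNReal.toReal_ofReal (h0 _ _)
  exact (tendsto_add_atTop_iff_nat j0).mp h5

/-- version with real integrals of continuous functions -/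
lemma ae_zero' {c d : ℝ} (hcd : c ≤ d) {g : ℕ → ℝ → ℝ} (hm : ∀ j, Continuous (g j)) {B : ℕ → ℝ} (hB : Summable B)
    {j0 : ℕ} (hint : ∀ j, j0 ≤ j → ∫ y in c..d, g j y ≤ B j) (h0 : ∀ j y, 0 ≤ g j y) :
    ∀ᵐ y ∂(volume.restrict (Icc c d)), Tendsto (fun j => g j y) atTop (𝓝 0) := by
  refine ae_zero (fun j => (hm j).measurable) hB (j0 := j0) ?_ h0
  intro j hj
  have h1 : IntegrableOn (g j) (Icc c d) := (hm j).integrableOn_Icc
  rw [← ofReal_integral_eq_lintegral_ofReal h1 (Eventually.of_forall (h0 j))]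
  apply ENNReal.ofReal_le_ofReal
  rw [integral_Icc_eq_integral_Ioc, ← intervalIntegral.integral_of_le hcd]
  exact hint j hj

/-- exponentials beat powers -/
lemma ev_poly {β s : ℝ} (hβ : 0 < β) (hs : 0 < s) (C : ℝ) (K : ℕ) : ∃ n0 : ℕ, ∀ n : ℕ, n0 ≤ n →
    C * ((n:ℝ) + 1) ^ K ≤ β * exp (s * n) := by
  have h1 : Tendsto (fun x : ℝ => (x + 1) ^ K * exp (-s * (x + 1))) atTop (𝓝 0) := by
    have h2 := (isLittleO_pow_exp_pos_mul_atTop (k := K) hs).tendsto_div_nhds_zero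
    have h3 : Tendsto (fun x : ℝ => x + 1) atTop atTop := tendsto_atTop_add_const_right _ _ tendsto_id
    refine (h2.comp h3).congr fun x => ?_
    simp only [Function.comp_apply]
    rw [neg_mul, Real.exp_neg]
    rfl
  have h2 := h1.comp tendsto_natCast_atTop_atTop
  have h3 := h2.const_mul (C * exp s)
  rw [mul_zero] at h3
  have h4 := (h3.eventually (gt_mem_nhds hβ))
  rw [eventually_atTop] at h4
  obtain ⟨n0, h4⟩ := h4
  refine ⟨n0, fun n hn => ?_⟩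
  have h5 := h4 n hn
  simp only [Function.comp_apply] at h5
  have h6 : exp (-s * ((n:ℝ) + 1)) = (exp s)⁻¹ * (exp (s * n))⁻¹ := by
    rw [← Real.exp_neg, ← Real.exp_neg, ← Real.exp_add]
    congr 1; ring
  rw [h6] at h5
  have h7 : 0 < exp (s * n) := Real.exp_pos _
  have h8 : C * exp s * (((n:ℝ) + 1) ^ K * ((exp s)⁻¹ * (exp (s * n))⁻¹)) = C * ((n:ℝ) + 1) ^ K / exp (s * n) := by
    have := Real.exp_pos s
    field_simp
  rw [h8, div_lt_iff₀ h7] at h5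
  exact h5.le

/-- from dyadic blocks to all sums -/
lemma ces {h : ℕ → ℝ} (h0 : ∀ n, 0 ≤ h n) {L : ℝ} (hL : 0 ≤ L)
    (hb : ∀ᶠ j : ℕ in atTop, ∑ n ∈ Finset.Ico (2 ^ j) (2 ^ (j + 1)), h n ≤ L * 2 ^ j) :
    ∀ ε : ℝ, 0 < ε → ∀ᶠ N : ℕ in atTop, ∑ n ∈ Finset.range N, h n ≤ (2 * L + ε) * N := by
  intro ε hε
  rw [eventually_atTop] at hb
  obtain ⟨j0, hb⟩ := hb
  set C := ∑ n ∈ Finset.range (2 ^ j0), h n with hC
  have hsum : ∀ J, j0 ≤ J → ∑ n ∈ Finset.range (2 ^ J), h n ≤ C + L * 2 ^ J := by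
    intro J hJ
    induction J, hJ using Nat.le_induction with
    | base =>
      have : 0 ≤ L * 2 ^ j0 := by positivity
      linarith
    | succ J hJ ih =>
      rw [Finset.range_eq_Ico, ← Finset.sum_Ico_consecutive _ (Nat.zero_le (2 ^ J))
        (Nat.pow_le_pow_right (by norm_num) (by omega)), ← Finset.range_eq_Ico]
      have := hb J hJ
      rw [show (2:ℝ) ^ (J + 1) = 2 ^ J * 2 from pow_succ _ _]
      linarith
  have h1 : ∀ᶠ N : ℕ in atTop, C / ε ≤ N := by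
    obtain ⟨n, hn⟩ := exists_nat_ge (C / ε)
    filter_upwards [eventually_ge_atTop n] with N hN
    exact hn.trans (by exact_mod_cast hN)
  filter_upwards [h1, eventually_ge_atTop (2 ^ j0), eventually_ge_atTop 1] with N hN hN2 hN3
  have h2 : N < 2 ^ (Nat.log 2 N + 1) := Nat.lt_pow_succ_log_self (by norm_num) N
  have h3 : 2 ^ (Nat.log 2 N) ≤ N := Nat.pow_log_le_self 2 (by omega)
  have h4 : j0 ≤ Nat.log 2 N := Nat.le_log_of_pow_le (by norm_num) hN2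
  have h5 := hsum (Nat.log 2 N + 1) (by omega)
  have h6 : ∑ n ∈ Finset.range N, h n ≤ ∑ n ∈ Finset.range (2 ^ (Nat.log 2 N + 1)), h n :=
    Finset.sum_le_sum_of_subset_of_nonneg (Finset.range_subset_range.mpr h2.le) (fun n _ _ => h0 n)
  have h7 : (2:ℝ) ^ (Nat.log 2 N + 1) ≤ 2 * N := by
    rw [pow_succ]
    have : (2:ℝ) ^ (Nat.log 2 N) ≤ N := by exact_mod_cast h3
    linarith
  have h8 : L * 2 ^ (Nat.log 2 N + 1) ≤ L * (2 * N) := mul_le_mul_of_nonneg_left h7 hL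
  rw [div_le_iff₀ hε] at hN
  linarith

lemma AA_le {af : ℕ → ℝ} (ha : Bd af) : ∃ C : ℝ, 1 ≤ C ∧ ∀ M : ℕ, AA af M ≤ C * (M:ℝ) ^ 2 := by
  obtain ⟨C, hC, h⟩ := Pool.Agent.H425R3.JL.sum_a_le ha
  refine ⟨C + 1, by linarith, fun M => (h M).trans ?_⟩
  have : 0 ≤ (M:ℝ) ^ 2 := by positivity
  nlinarith

variable {a b : ℕ → ℝ} {δ c d : ℝ}

/-- the second moment over a dyadic block, for slowly growing degree -/
lemma blk_sq (h : Sq a b δ) (hc : 0 < c) (hcd : c ≤ d) {af : ℕ → ℝ} {Cs : ℝ} (hCs : 1 ≤ Cs)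
    (hAA : ∀ M : ℕ, AA af M ≤ Cs * (M:ℝ) ^ 2) (φ : ℝ) {r q : ℕ} (hq : 8 * r ≤ q) (hq1 : 1 ≤ q) :
    ∃ C : ℝ, 0 < C ∧ ∃ j0 : ℕ, ∀ j : ℕ, j0 ≤ j →
      ∫ y in c..d, ‖((2:ℝ) ^ j : ℂ)⁻¹ * ∑ n ∈ Finset.Ico (2 ^ j) (2 ^ (j + 1)),
        (((U af φ (pt a b n y) (2 ^ (j / q)) : ℝ) : ℂ) ^ r - ZZ af φ r (2 ^ (j / q)))‖ ^ 2 ≤ C * (3 / 4) ^ j := by
  have hCp := Cp_pos hc hcd h.dpos
  have hsc : 0 < δ * c := mul_pos h.dpos hc
  obtain ⟨n0, hn0⟩ := ev_poly (h.pos 0) hsc (4 * Cp c d δ * ((r:ℝ) + 1) ^ (2 ^ r)) (2 ^ r + 1)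
  refine ⟨Cs ^ (2 * r) * ((d - c) + 1), by
    have : 0 ≤ d - c := by linarith
    positivity, n0, ?_⟩
  intro j hj
  set N : ℕ := 2 ^ j with hN
  set M : ℕ := 2 ^ (j / q) with hM
  have hNpos : (0:ℝ) < (N:ℝ) := by rw [hN]; positivity
  have hN1 : (1:ℝ) ≤ (N:ℝ) := by
    have : 1 ≤ N := Nat.one_le_two_pow
    exact_mod_cast this
  have hNR : ((2:ℝ) ^ j) = (N:ℝ) := by rw [hN]; push_cast; rfl
  have hMN : (M:ℝ) ≤ N := by
    have : M ≤ N := Nat.pow_le_pow_right (by norm_num) (Nat.div_le_self j q)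
    exact_mod_cast this
  have hM0 : (0:ℝ) < M := by rw [hM]; positivity
  have h1 := pow_sq h hc hcd af φ r M N (2 ^ (j + 1))
  have hcard : (2 ^ (j + 1) - N : ℕ) = N := by rw [hN, pow_succ]; omega
  rw [hcard] at h1
  have hnorm : ∀ z : ℂ, ‖((2:ℝ) ^ j : ℂ)⁻¹ * z‖ ^ 2 = ((N:ℝ) ^ 2)⁻¹ * ‖z‖ ^ 2 := by
    intro z
    rw [norm_mul, mul_pow, norm_inv, norm_pow, Complex.norm_real, Real.norm_eq_abs, abs_of_pos (by norm_num : (0:ℝ) < 2),
      hNR, inv_pow]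
  simp only [hnorm]
  rw [intervalIntegral.integral_const_mul]
  have hA1 : AA af M ^ r * AA af M ^ r ≤ Cs ^ (2 * r) * (3 / 2) ^ j := by
    have h2 : AA af M ^ r * AA af M ^ r = AA af M ^ (2 * r) := by rw [← pow_add]; congr 1; ring
    rw [h2]
    have h3 : AA af M ^ (2 * r) ≤ (Cs * (M:ℝ) ^ 2) ^ (2 * r) := pow_le_pow_left₀ (AA_nonneg _ _) (hAA M) _
    refine h3.trans ?_
    rw [mul_pow]
    apply mul_le_mul_of_nonneg_left _ (by positivity)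
    have h4 : (((M:ℝ) ^ 2) ^ (2 * r)) ^ 2 ≤ ((3 / 2 : ℝ) ^ j) ^ 2 := by
      rw [← pow_mul, ← pow_mul, hM]
      push_cast
      rw [← pow_mul, ← pow_mul, mul_comm j 2, pow_mul (3/2 : ℝ) 2 j]
      calc (2:ℝ) ^ (j / q * (2 * (2 * r * 2))) ≤ 2 ^ j := by
            apply pow_le_pow_right₀ (by norm_num)
            calc j / q * (2 * (2 * r * 2)) = j / q * (8 * r) := by ring
              _ ≤ j / q * q := Nat.mul_le_mul_left _ hq
              _ ≤ j := Nat.div_mul_le_self j q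
        _ ≤ _ := pow_le_pow_left₀ (by norm_num) (by norm_num) j
    exact (pow_le_pow_iff_left₀ (by positivity) (by positivity) (by norm_num)).mp h4
  have hpt0 := pt_pos h N c
  have hNn0 : n0 ≤ N := hj.trans (Nat.lt_two_pow_self).le
  have h5 : 2 * ((N:ℝ) * ((N:ℝ) * (2 * Cp c d δ * (((r * M + 1 : ℕ) : ℝ) ^ (2 ^ r) / pt a b N c)))) ≤ N := by
    have h6 := (hn0 N hNn0).trans (pt_low h hc.le N)
    have h7 : ((r * M + 1 : ℕ) : ℝ) ^ (2 ^ r) ≤ (((r:ℝ) + 1) * ((N:ℝ) + 1)) ^ (2 ^ r) := by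
      apply pow_le_pow_left₀ (by positivity)
      push_cast
      have hr0 : (0:ℝ) ≤ r := Nat.cast_nonneg r
      nlinarith
    rw [mul_pow] at h7
    have h8 : 4 * Cp c d δ * ((N:ℝ) * ((r * M + 1 : ℕ) : ℝ) ^ (2 ^ r)) ≤ pt a b N c := by
      refine le_trans ?_ h6
      calc 4 * Cp c d δ * ((N:ℝ) * ((r * M + 1 : ℕ) : ℝ) ^ (2 ^ r))
          ≤ 4 * Cp c d δ * (((N:ℝ) + 1) * ((((r:ℝ) + 1)) ^ (2 ^ r) * ((N:ℝ) + 1) ^ (2 ^ r))) := by
            gcongr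
            linarith
        _ = _ := by rw [pow_succ]; ring
    have h9 : 2 * ((N:ℝ) * ((N:ℝ) * (2 * Cp c d δ * (((r * M + 1 : ℕ) : ℝ) ^ (2 ^ r) / pt a b N c)))) =
        N * ((4 * Cp c d δ * ((N:ℝ) * ((r * M + 1 : ℕ) : ℝ) ^ (2 ^ r))) / pt a b N c) := by ring
    rw [h9]
    have h10 : (4 * Cp c d δ * ((N:ℝ) * ((r * M + 1 : ℕ) : ℝ) ^ (2 ^ r))) / pt a b N c ≤ 1 := by
      rw [div_le_one hpt0]; exact h8
    nlinarith
  have hdc : 0 ≤ d - c := by linarith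
  have hX0 : 0 ≤ (N:ℝ) * (d - c) + 2 * ((N:ℝ) * ((N:ℝ) * (2 * Cp c d δ * (((r * M + 1 : ℕ) : ℝ) ^ (2 ^ r) / pt a b N c)))) := by
    positivity
  have h11 : ((N:ℝ) ^ 2)⁻¹ * N = (1 / 2) ^ j := by
    rw [← hNR, one_div, inv_pow]
    field_simp
  calc ((N:ℝ) ^ 2)⁻¹ * ∫ y in c..d, ‖∑ n ∈ Finset.Ico N (2 ^ (j + 1)), (((U af φ (pt a b n y) M : ℝ) : ℂ) ^ r - ZZ af φ r M)‖ ^ 2
      ≤ ((N:ℝ) ^ 2)⁻¹ * (AA af M ^ r * (AA af M ^ r * ((N:ℝ) * (d - c) + 2 * ((N:ℝ) * ((N:ℝ) *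
        (2 * Cp c d δ * (((r * M + 1 : ℕ) : ℝ) ^ (2 ^ r) / pt a b N c))))))) :=
        mul_le_mul_of_nonneg_left h1 (by positivity)
    _ = ((N:ℝ) ^ 2)⁻¹ * ((AA af M ^ r * AA af M ^ r) * ((N:ℝ) * (d - c) + 2 * ((N:ℝ) * ((N:ℝ) *
        (2 * Cp c d δ * (((r * M + 1 : ℕ) : ℝ) ^ (2 ^ r) / pt a b N c)))))) := by ring
    _ ≤ ((N:ℝ) ^ 2)⁻¹ * ((Cs ^ (2 * r) * (3 / 2) ^ j) * ((N:ℝ) * (d - c) + N)) := by
        apply mul_le_mul_of_nonneg_left _ (by positivity)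
        apply mul_le_mul hA1 (by linarith) hX0 (by positivity)
    _ = Cs ^ (2 * r) * ((d - c) + 1) * ((3 / 2) ^ j * (((N:ℝ) ^ 2)⁻¹ * N)) := by ring
    _ = _ := by
        rw [h11, ← mul_pow]
        norm_num

end Pool.Agent.R306.GP
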