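import Mathlib
import Pool.Agent.R306.GP.AEa

/-!
Almost everywhere statements along `b_n exp(a_n y)`: the approximation of the error term.
-/

set_option autoImplicit false

open MeasureTheory Filter Topology Set Real
open scoped ENNReal
open Pool.Agent.H469R2.NK (e norm_e e_add conj_e e_zero)
open Pool.Agent.H383.Gen (U Bd)
open Pool.Agent.H383.GW (Wt Sand)
open Pool.Agent.Y969.TM

namespace Pool.Agent.R306.GP

/-- the data: the error term, its coefficients, and the mean-square approximation -/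
structure Ctx (E : ℝ → ℝ) (af : ℕ → ℝ) (φ : ℝ) : Prop where
  bd : Bd af
  meas : Measurable E
  l2 : ∀ c d : ℝ, c ≤ d → ∃ C : ℝ, 0 < C ∧ ∃ ρ : ℝ, 0 < ρ ∧ ∀ A b : ℝ, 1 ≤ A → 0 < b → ρ ≤ b * exp (A * c) →
      ∀ M : ℕ, 1 ≤ M → (M:ℝ) ^ 100 ≤ b * exp (A * c) / 2 →
      ∫⁻ y in Icc c d, ENNReal.ofReal ((E (b * exp (A * y)) - U af φ (b * exp (A * y)) M) ^ 2) ≤
        ENNReal.ofReal (C * (M:ℝ) ^ (-(1/200):ℝ))

theorem Ctx.of {E : ℝ → ℝ} {af : ℕ → ℝ} {φ : ℝ} {w : ℝ → ℂ} (ha : Bd af) (ha0 : af 0 = 0) (hw : Wt w)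
    {κ₁ κ₂ C0 : ℝ} (hC0 : 0 < C0) (hS : Sand E af φ w κ₁ κ₂ C0) (hE : Measurable E) : Ctx E af φ :=
  ⟨ha, hE, fun _ _ hcd => l2_y ha ha0 hw hC0 hS hE hcd⟩

variable {E : ℝ → ℝ} {af : ℕ → ℝ} {φ : ℝ} {a b : ℕ → ℝ} {δ c d : ℝ}

lemma Upt_cont (af : ℕ → ℝ) (φ : ℝ) (a b : ℕ → ℝ) (n M : ℕ) : Continuous fun y => U af φ (pt a b n y) M :=
  (U_cont af φ M).comp (pt_cont a b n)

lemma pt_meas (hE : Measurable E) (n : ℕ) : Measurable fun y => E (pt a b n y) :=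
  hE.comp (pt_cont a b n).measurable

/-- mean square of the difference of two model polynomials -/
lemma diff_sq (hX : Ctx E af φ) (h : Sq a b δ) (hcd : c ≤ d) : ∃ C : ℝ, 0 < C ∧ ∃ ρ : ℝ, 0 < ρ ∧
    ∀ n M1 M2 : ℕ, 1 ≤ M1 → 1 ≤ M2 → ρ ≤ pt a b n c → (M1:ℝ) ^ 100 ≤ pt a b n c / 2 →
      (M2:ℝ) ^ 100 ≤ pt a b n c / 2 →
      ∫ y in c..d, (U af φ (pt a b n y) M1 - U af φ (pt a b n y) M2) ^ 2 ≤
        C * ((M1:ℝ) ^ (-(1/200):ℝ) + (M2:ℝ) ^ (-(1/200):ℝ)) := by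
  obtain ⟨C, hC, ρ, hρ, hl⟩ := hX.l2 c d hcd
  refine ⟨2 * C, by positivity, ρ, hρ, ?_⟩
  intro n M1 M2 hM1 hM2 hp h1 h2
  have k1 := hl (a n) (b n) (h.one n) (h.pos n) hp M1 hM1 h1
  have k2 := hl (a n) (b n) (h.one n) (h.pos n) hp M2 hM2 h2
  have hm1 : Measurable fun y => ENNReal.ofReal ((E (pt a b n y) - U af φ (pt a b n y) M1) ^ 2) :=
    (((pt_meas hX.meas n).sub (Upt_cont af φ a b n M1).measurable).pow_const 2).ennreal_ofReal
  have hpt : ∀ y, ENNReal.ofReal ((U af φ (pt a b n y) M1 - U af φ (pt a b n y) M2) ^ 2) ≤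
      2 * (ENNReal.ofReal ((E (pt a b n y) - U af φ (pt a b n y) M1) ^ 2) +
        ENNReal.ofReal ((E (pt a b n y) - U af φ (pt a b n y) M2) ^ 2)) := by
    intro y
    rw [← ENNReal.ofReal_add (sq_nonneg _) (sq_nonneg _), ← ENNReal.ofReal_ofNat, ← ENNReal.ofReal_mul (by norm_num)]
    apply ENNReal.ofReal_le_ofReal
    nlinarith [sq_nonneg ((E (pt a b n y) - U af φ (pt a b n y) M1) + (E (pt a b n y) - U af φ (pt a b n y) M2))]
  have hcont : Continuous fun y => (U af φ (pt a b n y) M1 - U af φ (pt a b n y) M2) ^ 2 :=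
    ((Upt_cont af φ a b n M1).sub (Upt_cont af φ a b n M2)).pow 2
  have h3 : ENNReal.ofReal (∫ y in c..d, (U af φ (pt a b n y) M1 - U af φ (pt a b n y) M2) ^ 2) ≤
      ENNReal.ofReal (2 * C * ((M1:ℝ) ^ (-(1/200):ℝ) + (M2:ℝ) ^ (-(1/200):ℝ))) := by
    rw [intervalIntegral.integral_of_le hcd, ← integral_Icc_eq_integral_Ioc,
      ofReal_integral_eq_lintegral_ofReal hcont.integrableOn_Icc (Eventually.of_forall fun _ => sq_nonneg _)]
    calc ∫⁻ y in Icc c d, ENNReal.ofReal ((U af φ (pt a b n y) M1 - U af φ (pt a b n y) M2) ^ 2)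
        ≤ ∫⁻ y in Icc c d, 2 * (ENNReal.ofReal ((E (pt a b n y) - U af φ (pt a b n y) M1) ^ 2) +
          ENNReal.ofReal ((E (pt a b n y) - U af φ (pt a b n y) M2) ^ 2)) := lintegral_mono hpt
      _ = 2 * ((∫⁻ y in Icc c d, ENNReal.ofReal ((E (pt a b n y) - U af φ (pt a b n y) M1) ^ 2)) +
          (∫⁻ y in Icc c d, ENNReal.ofReal ((E (pt a b n y) - U af φ (pt a b n y) M2) ^ 2))) := by
          rw [lintegral_const_mul' _ _ (by norm_num), lintegral_add_left hm1]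
      _ ≤ 2 * (ENNReal.ofReal (C * (M1:ℝ) ^ (-(1/200):ℝ)) + ENNReal.ofReal (C * (M2:ℝ) ^ (-(1/200):ℝ))) := by
          gcongr
          · exact k1
          · exact k2
      _ = _ := by
          rw [← ENNReal.ofReal_add (by positivity) (by positivity), ← ENNReal.ofReal_ofNat,
            ← ENNReal.ofReal_mul (by norm_num)]
          congr 1; ring
  exact (ENNReal.ofReal_le_ofReal_iff (by positivity)).mp h3

/-- uniform bound for the moments of the model polynomials of polynomial degree -/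
lemma mom_bd (ha : Bd af) (h : Sq a b δ) (hc : 0 < c) (hcd : c ≤ d) (p l : ℕ) : ∃ C : ℝ, 0 < C ∧ ∃ n0 : ℕ,
    ∀ n : ℕ, n0 ≤ n → ∀ M : ℕ, M ≤ (n + 1) ^ p → ∫ y in c..d, (U af φ (pt a b n y) M) ^ (2 * l) ≤ C := by
  obtain ⟨Cs, hCs, hAA⟩ := AA_le ha
  obtain ⟨K, hK, hZ⟩ := ZZ_bound φ ha
  have hCp := Cp_pos hc hcd h.dpos
  have hsc : 0 < δ * c := mul_pos h.dpos hc
  obtain ⟨n0, hn0⟩ := ev_poly (h.pos 0) hsc (Cs ^ (2 * l) * (2 * Cp c d δ * (2 * (l:ℝ) + 1) ^ (2 ^ (2 * l))))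
    (2 * p * (2 * l) + p * 2 ^ (2 * l))
  refine ⟨1 + (d - c) * (K * ((2 * l).factorial : ℝ)), by
    have : 0 ≤ d - c := by linarith
    positivity, n0, ?_⟩
  intro n hn M hM
  have hp := pt_pos h n c
  have hMr : (M:ℝ) ≤ ((n:ℝ) + 1) ^ p := by exact_mod_cast hM
  have h1 := pow_mean_int h hc hcd af φ (2 * l) M n
  have hn1 : (1:ℝ) ≤ (n:ℝ) + 1 := by
    have : (0:ℝ) ≤ n := Nat.cast_nonneg n
    linarith
  have h2 : AA af M ^ (2 * l) * (2 * Cp c d δ * (((2 * l * M + 1 : ℕ) : ℝ) ^ (2 ^ (2 * l)) / pt a b n c)) ≤ 1 := by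
    have h3 : AA af M ^ (2 * l) ≤ Cs ^ (2 * l) * ((n:ℝ) + 1) ^ (2 * p * (2 * l)) := by
      have h4 : AA af M ≤ Cs * ((n:ℝ) + 1) ^ (2 * p) := by
        refine (hAA M).trans ?_
        apply mul_le_mul_of_nonneg_left _ (by linarith)
        calc (M:ℝ) ^ 2 ≤ (((n:ℝ) + 1) ^ p) ^ 2 := pow_le_pow_left₀ (Nat.cast_nonneg _) hMr 2
          _ = _ := by rw [← pow_mul, mul_comm p 2]
      calc AA af M ^ (2 * l) ≤ (Cs * ((n:ℝ) + 1) ^ (2 * p)) ^ (2 * l) := pow_le_pow_left₀ (AA_nonneg _ _) h4 _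
        _ = _ := by rw [mul_pow, ← pow_mul]
    have h5 : ((2 * l * M + 1 : ℕ) : ℝ) ^ (2 ^ (2 * l)) ≤ (2 * (l:ℝ) + 1) ^ (2 ^ (2 * l)) * ((n:ℝ) + 1) ^ (p * 2 ^ (2 * l)) := by
      have h6 : ((2 * l * M + 1 : ℕ) : ℝ) ≤ (2 * (l:ℝ) + 1) * ((n:ℝ) + 1) ^ p := by
        push_cast
        have hl : (0:ℝ) ≤ l := Nat.cast_nonneg l
        have h7 : (1:ℝ) ≤ ((n:ℝ) + 1) ^ p := one_le_pow₀ hn1
        nlinarith
      calc ((2 * l * M + 1 : ℕ) : ℝ) ^ (2 ^ (2 * l)) ≤ ((2 * (l:ℝ) + 1) * ((n:ℝ) + 1) ^ p) ^ (2 ^ (2 * l)) :=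
            pow_le_pow_left₀ (Nat.cast_nonneg _) h6 _
        _ = _ := by rw [mul_pow, ← pow_mul]
    have h8 := (hn0 n hn).trans (pt_low h hc.le n)
    calc AA af M ^ (2 * l) * (2 * Cp c d δ * (((2 * l * M + 1 : ℕ) : ℝ) ^ (2 ^ (2 * l)) / pt a b n c))
        ≤ (Cs ^ (2 * l) * ((n:ℝ) + 1) ^ (2 * p * (2 * l))) * (2 * Cp c d δ *
          (((2 * (l:ℝ) + 1) ^ (2 ^ (2 * l)) * ((n:ℝ) + 1) ^ (p * 2 ^ (2 * l))) / pt a b n c)) := by
          gcongr
      _ = (Cs ^ (2 * l) * (2 * Cp c d δ * (2 * (l:ℝ) + 1) ^ (2 ^ (2 * l))) *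
          ((n:ℝ) + 1) ^ (2 * p * (2 * l) + p * 2 ^ (2 * l))) / pt a b n c := by
          rw [pow_add]; ring
      _ ≤ 1 := by rw [div_le_one hp]; exact h8
  have h3 : ‖∫ y in c..d, (((U af φ (pt a b n y) M : ℝ) : ℂ) ^ (2 * l) - ZZ af φ (2 * l) M)‖ ≤ 1 := by
    refine h1.trans (le_trans (le_of_eq ?_) h2)
    push_cast
    ring
  have hc1 : Continuous fun y => ((U af φ (pt a b n y) M : ℝ) : ℂ) ^ (2 * l) :=
    (Complex.continuous_ofReal.comp (Upt_cont af φ a b n M)).pow _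
  have h4 : ((∫ y in c..d, (U af φ (pt a b n y) M) ^ (2 * l) : ℝ) : ℂ) =
      (∫ y in c..d, (((U af φ (pt a b n y) M : ℝ) : ℂ) ^ (2 * l) - ZZ af φ (2 * l) M)) + (d - c) * ZZ af φ (2 * l) M := by
    rw [intervalIntegral.integral_sub (hc1.intervalIntegrable _ _) intervalIntegrable_const,
      intervalIntegral.integral_const, ← intervalIntegral.integral_ofReal]
    simp only [Complex.ofReal_pow, Complex.real_smul, Complex.ofReal_sub]
    ring
  have h5 : ∫ y in c..d, (U af φ (pt a b n y) M) ^ (2 * l) ≤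
      ‖((∫ y in c..d, (U af φ (pt a b n y) M) ^ (2 * l) : ℝ) : ℂ)‖ := by
    rw [Complex.norm_real]; exact Real.le_norm_self _
  refine h5.trans ?_
  rw [h4]
  refine (norm_add_le _ _).trans (add_le_add h3 ?_)
  rw [norm_mul]
  have h6 : ‖((d:ℂ) - c)‖ = d - c := by
    rw [← Complex.ofReal_sub, Complex.norm_real, Real.norm_eq_abs, abs_of_nonneg (by linarith)]
  rw [h6]
  exact mul_le_mul_of_nonneg_left (hZ l M) (by linarith)

lemma pow_diff_le (x y : ℝ) (l : ℕ) : (x - y) ^ (2 * l) ≤ 2 ^ (2 * l) * (x ^ (2 * l) + y ^ (2 * l)) := by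
  have h1 : (x - y) ^ (2 * l) = |x - y| ^ (2 * l) := by
    rw [pow_mul, pow_mul, sq_abs]
  have h2 : x ^ (2 * l) = |x| ^ (2 * l) := by rw [pow_mul, pow_mul, sq_abs]
  have h3 : y ^ (2 * l) = |y| ^ (2 * l) := by rw [pow_mul, pow_mul, sq_abs]
  rw [h1, h2, h3]
  have h4 : |x - y| ≤ |x| + |y| := abs_sub _ _
  have hx := abs_nonneg x
  have hy := abs_nonneg y
  rcases le_total |x| |y| with hxy | hxy
  · calc |x - y| ^ (2 * l) ≤ (2 * |y|) ^ (2 * l) := pow_le_pow_left₀ (abs_nonneg _) (by linarith) _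
      _ = 2 ^ (2 * l) * |y| ^ (2 * l) := mul_pow _ _ _
      _ ≤ _ := by
          apply mul_le_mul_of_nonneg_left _ (by positivity)
          have : 0 ≤ |x| ^ (2 * l) := by positivity
          linarith
  · calc |x - y| ^ (2 * l) ≤ (2 * |x|) ^ (2 * l) := pow_le_pow_left₀ (abs_nonneg _) (by linarith) _
      _ = 2 ^ (2 * l) * |x| ^ (2 * l) := mul_pow _ _ _
      _ ≤ _ := by
          apply mul_le_mul_of_nonneg_left _ (by positivity)
          have : 0 ≤ |y| ^ (2 * l) := by positivity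
          linarith

/-- high moments of the difference of model polynomials -/
lemma diff_pow (hX : Ctx E af φ) (h : Sq a b δ) (hc : 0 < c) (hcd : c ≤ d) {p : ℕ} (hp1 : 1 ≤ p) (k : ℕ) (hk : 1 ≤ k) : ∃ C : ℝ, 0 < C ∧
    ∃ n0 : ℕ, ∀ n : ℕ, n0 ≤ n → ∀ M' : ℕ, 1 ≤ M' → M' ≤ n + 1 →
      ∫ y in c..d, (U af φ (pt a b n y) ((n + 1) ^ p) - U af φ (pt a b n y) M') ^ (2 * k) ≤
        C * (M':ℝ) ^ (-(1/400):ℝ) := by
  obtain ⟨C1, hC1, ρ, hρ, hD⟩ := diff_sq hX h hcd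
  obtain ⟨C2, hC2, n1, hM⟩ := mom_bd (φ := φ) hX.bd h hc hcd p (2 * k - 1)
  have hsc : 0 < δ * c := mul_pos h.dpos hc
  obtain ⟨n2, hn2⟩ := ev_poly (h.pos 0) hsc ρ 0
  obtain ⟨n3, hn3⟩ := ev_poly (h.pos 0) hsc 2 (p * 100)
  refine ⟨2 * C1 + 2 ^ (2 * (2 * k - 1)) * (2 * C2), by positivity, max n1 (max n2 n3), ?_⟩
  intro n hn M' hM1 hMn
  have hn1 : n1 ≤ n := by omega
  have hn2' : n2 ≤ n := by omega
  have hn3' : n3 ≤ n := by omega
  have hpl := pt_low h hc.le n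
  have hρ' : ρ ≤ pt a b n c := by
    have := hn2 n hn2'
    rw [pow_zero, mul_one] at this
    linarith
  have hbig : ((n:ℝ) + 1) ^ (p * 100) ≤ pt a b n c / 2 := by
    have := hn3 n hn3'
    linarith
  have hn0 : (0:ℝ) ≤ n := Nat.cast_nonneg n
  have hM400 : (((n + 1) ^ p : ℕ) : ℝ) ^ 100 ≤ pt a b n c / 2 := by
    push_cast
    rw [← pow_mul]
    exact hbig
  have hMle : M' ≤ (n + 1) ^ p := hMn.trans (Nat.le_self_pow (by omega) _)
  have hMr : (M':ℝ) ≤ (((n + 1) ^ p : ℕ) : ℝ) := by exact_mod_cast hMle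
  have hM'100 : (M':ℝ) ^ 100 ≤ pt a b n c / 2 := (pow_le_pow_left₀ (Nat.cast_nonneg _) hMr 100).trans hM400
  have hM'0 : (0:ℝ) < M' := by exact_mod_cast hM1
  have hM'1 : (1:ℝ) ≤ M' := by exact_mod_cast hM1
  set X : ℝ → ℝ := fun y => U af φ (pt a b n y) ((n + 1) ^ p) with hXd
  set Y : ℝ → ℝ := fun y => U af φ (pt a b n y) M' with hYd
  have hXc : Continuous X := Upt_cont af φ a b n _
  have hYc : Continuous Y := Upt_cont af φ a b n _
  have d1 : ∫ y in c..d, (X y - Y y) ^ 2 ≤ 2 * C1 * (M':ℝ) ^ (-(1/200):ℝ) := by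
    refine (hD n ((n + 1) ^ p) M' (Nat.one_le_pow _ _ (by omega)) hM1 hρ' hM400 hM'100).trans ?_
    have h5 : (((n + 1) ^ p : ℕ) : ℝ) ^ (-(1/200):ℝ) ≤ (M':ℝ) ^ (-(1/200):ℝ) :=
      Real.rpow_le_rpow_of_nonpos hM'0 hMr (by norm_num)
    nlinarith
  have m1 := hM n hn1 ((n + 1) ^ p) le_rfl
  have m2 := hM n hn1 M' hMle
  have d2 : ∫ y in c..d, (X y - Y y) ^ (2 * (2 * k - 1)) ≤ 2 ^ (2 * (2 * k - 1)) * (2 * C2) := by
    calc ∫ y in c..d, (X y - Y y) ^ (2 * (2 * k - 1))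
        ≤ ∫ y in c..d, 2 ^ (2 * (2 * k - 1)) * ((X y) ^ (2 * (2 * k - 1)) + (Y y) ^ (2 * (2 * k - 1))) := by
          apply intervalIntegral.integral_mono_on hcd
          · exact ((hXc.sub hYc).pow _).intervalIntegrable _ _
          · exact (continuous_const.mul ((hXc.pow _).add (hYc.pow _))).intervalIntegrable _ _
          · intro y _
            exact pow_diff_le _ _ _
      _ = 2 ^ (2 * (2 * k - 1)) * ((∫ y in c..d, (X y) ^ (2 * (2 * k - 1))) + ∫ y in c..d, (Y y) ^ (2 * (2 * k - 1))) := by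
          have i1 : IntervalIntegrable (fun y => X y ^ (2 * (2 * k - 1))) volume c d :=
            (hXc.pow _).intervalIntegrable _ _
          have i2 : IntervalIntegrable (fun y => Y y ^ (2 * (2 * k - 1))) volume c d :=
            (hYc.pow _).intervalIntegrable _ _
          rw [intervalIntegral.integral_const_mul, intervalIntegral.integral_add i1 i2]
      _ ≤ _ := by
          apply mul_le_mul_of_nonneg_left _ (by positivity)
          linarith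
  set lam : ℝ := (M':ℝ) ^ (1/400:ℝ) with hlam
  have hlam0 : 0 < lam := by positivity
  have hli : lam⁻¹ = (M':ℝ) ^ (-(1/400):ℝ) := by
    rw [hlam, ← Real.rpow_neg hM'0.le]
  have hpw : ∀ y, (X y - Y y) ^ (2 * k) ≤ lam * (X y - Y y) ^ 2 + lam⁻¹ * (X y - Y y) ^ (2 * (2 * k - 1)) := by
    intro y
    set D := X y - Y y
    have e1 : D ^ (2 * k) = D * D ^ (2 * k - 1) := by
      rw [← pow_succ']; congr 1; omega
    have e2 : D ^ (2 * (2 * k - 1)) = (D ^ (2 * k - 1)) ^ 2 := by rw [← pow_mul]; congr 1; ring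
    rw [e1, e2]
    set Z := D ^ (2 * k - 1)
    have h6 : lam * D ^ 2 + lam⁻¹ * Z ^ 2 - 2 * (D * Z) = lam⁻¹ * (lam * D - Z) ^ 2 := by
      field_simp
      ring
    have h7 : 0 ≤ lam⁻¹ * (lam * D - Z) ^ 2 := by positivity
    have h8 : 0 ≤ lam * D ^ 2 := by positivity
    have h9 : 0 ≤ lam⁻¹ * Z ^ 2 := by positivity
    nlinarith
  calc ∫ y in c..d, (X y - Y y) ^ (2 * k)
      ≤ ∫ y in c..d, (lam * (X y - Y y) ^ 2 + lam⁻¹ * (X y - Y y) ^ (2 * (2 * k - 1))) := by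
        apply intervalIntegral.integral_mono_on hcd
        · exact ((hXc.sub hYc).pow _).intervalIntegrable _ _
        · exact ((continuous_const.mul ((hXc.sub hYc).pow _)).add (continuous_const.mul ((hXc.sub hYc).pow _))).intervalIntegrable _ _
        · intro y _
          exact hpw y
    _ = lam * (∫ y in c..d, (X y - Y y) ^ 2) + lam⁻¹ * ∫ y in c..d, (X y - Y y) ^ (2 * (2 * k - 1)) := by
        have i1 : IntervalIntegrable (fun y => lam * (X y - Y y) ^ 2) volume c d :=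
          (continuous_const.mul ((hXc.sub hYc).pow _)).intervalIntegrable _ _
        have i2 : IntervalIntegrable (fun y => lam⁻¹ * (X y - Y y) ^ (2 * (2 * k - 1))) volume c d :=
          (continuous_const.mul ((hXc.sub hYc).pow _)).intervalIntegrable _ _
        rw [intervalIntegral.integral_add i1 i2, intervalIntegral.integral_const_mul, intervalIntegral.integral_const_mul]
    _ ≤ lam * (2 * C1 * (M':ℝ) ^ (-(1/200):ℝ)) + lam⁻¹ * (2 ^ (2 * (2 * k - 1)) * (2 * C2)) := by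
        gcongr
    _ = _ := by
        have e3 : lam * (M':ℝ) ^ (-(1/200):ℝ) = (M':ℝ) ^ (-(1/400):ℝ) := by
          rw [hlam, ← Real.rpow_add hM'0]; norm_num
        rw [hli]
        calc lam * (2 * C1 * (M':ℝ) ^ (-(1/200):ℝ)) + (M':ℝ) ^ (-(1/400):ℝ) * (2 ^ (2 * (2 * k - 1)) * (2 * C2))
            = 2 * C1 * (lam * (M':ℝ) ^ (-(1/200):ℝ)) + (M':ℝ) ^ (-(1/400):ℝ) * (2 ^ (2 * (2 * k - 1)) * (2 * C2)) := by ring
          _ = _ := by rw [e3]; ring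

end Pool.Agent.R306.GP
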