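import Mathlib
import Pool.Agent.R306.GP.AEb

/-!
Almost everywhere statements along `b_n exp(a_n y)`: blocks.
-/

set_option autoImplicit false

open MeasureTheory Filter Topology Set Real
open scoped ENNReal
open Pool.Agent.H469R2.NK (e norm_e e_add conj_e e_zero)
open Pool.Agent.H383.Gen (U Bd)
open Pool.Agent.H383.GW (Wt Sand)
open Pool.Agent.Y969.TM

namespace Pool.Agent.R306.GP

variable {E : ℝ → ℝ} {af : ℕ → ℝ} {φ : ℝ} {a b : ℕ → ℝ} {δ c d : ℝ}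

lemma tendsto_of_sq {x : ℕ → ℝ} (h : Tendsto (fun n => (x n) ^ 2) atTop (𝓝 0)) : Tendsto x atTop (𝓝 0) := by
  have h1 := (Real.continuous_sqrt.tendsto 0).comp h
  rw [Real.sqrt_zero] at h1
  rw [tendsto_zero_iff_abs_tendsto_zero]
  refine h1.congr fun n => ?_
  simp only [Function.comp_apply]
  exact Real.sqrt_sq_eq_abs _

/-- the error term is approximated by the model polynomials of large degree -/
lemma ae_err (hX : Ctx E af φ) (h : Sq a b δ) (hc : 0 < c) (hcd : c ≤ d) {p : ℕ} (hp : 400 ≤ p) :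
    ∀ᵐ y ∂(volume.restrict (Icc c d)),
      Tendsto (fun n => E (pt a b n y) - U af φ (pt a b n y) ((n + 1) ^ p)) atTop (𝓝 0) := by
  obtain ⟨C, hC, ρ, hρ, hl⟩ := hX.l2 c d hcd
  have hsc : 0 < δ * c := mul_pos h.dpos hc
  obtain ⟨n2, hn2⟩ := ev_poly (h.pos 0) hsc ρ 0
  obtain ⟨n3, hn3⟩ := ev_poly (h.pos 0) hsc 2 (p * 100)
  have hs : Summable fun n : ℕ => C * ((n:ℝ) + 1) ^ (-2:ℝ) := by
    apply Summable.mul_left
    have h1 : Summable fun n : ℕ => (n:ℝ) ^ (-2:ℝ) := by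
      rw [Real.summable_nat_rpow]; norm_num
    have h2 := (summable_nat_add_iff 1).mpr h1
    refine h2.congr fun n => ?_
    push_cast
    rfl
  have h1 := ae_zero (μ := volume.restrict (Icc c d))
    (g := fun n y => (E (pt a b n y) - U af φ (pt a b n y) ((n + 1) ^ p)) ^ 2)
    (fun n => ((pt_meas hX.meas n).sub (Upt_cont af φ a b n _).measurable).pow_const 2) hs (j0 := max n2 n3) ?_
    (fun _ _ => sq_nonneg _)
  · filter_upwards [h1] with y hy
    exact tendsto_of_sq hy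
  · intro n hn
    have hn2' : n2 ≤ n := by omega
    have hn3' : n3 ≤ n := by omega
    have hpl := pt_low h hc.le n
    have hρ' : ρ ≤ pt a b n c := by
      have := hn2 n hn2'
      rw [pow_zero, mul_one] at this
      linarith
    have hbig : ((n:ℝ) + 1) ^ (p * 100) ≤ pt a b n c / 2 := by
      have := hn3 n hn3'
      linarith
    have hM400 : (((n + 1) ^ p : ℕ) : ℝ) ^ 100 ≤ pt a b n c / 2 := by
      push_cast
      rw [← pow_mul]
      exact hbig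
    refine (hl (a n) (b n) (h.one n) (h.pos n) hρ' ((n + 1) ^ p) (Nat.one_le_pow _ _ (by omega)) hM400).trans ?_
    apply ENNReal.ofReal_le_ofReal
    apply mul_le_mul_of_nonneg_left _ hC.le
    have hn1 : (1:ℝ) ≤ (n:ℝ) + 1 := by
      have : (0:ℝ) ≤ n := Nat.cast_nonneg n
      linarith
    push_cast
    rw [← Real.rpow_natCast, ← Real.rpow_mul (by linarith)]
    apply Real.rpow_le_rpow_of_exponent_le hn1
    have hpr : (400:ℝ) ≤ p := by exact_mod_cast hp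
    linarith

/-- degree of the block -/
lemma deg_le {q : ℕ} (hq1 : 1 ≤ q) (j : ℕ) : (((2 ^ (j / q) : ℕ)) : ℝ) ^ (-(1/400):ℝ) ≤
    (2:ℝ) ^ (1/400:ℝ) * ((2:ℝ) ^ (-(1/(400 * q)):ℝ)) ^ j := by
  have hq0 : (0:ℝ) < q := by exact_mod_cast hq1
  push_cast
  rw [← Real.rpow_natCast, ← Real.rpow_mul (by norm_num), ← Real.rpow_natCast, ← Real.rpow_mul (by norm_num),
    ← Real.rpow_add (by norm_num)]
  apply Real.rpow_le_rpow_of_exponent_le (by norm_num)
  have h1 : j < q * (j / q + 1) := Nat.lt_mul_div_succ j (by omega)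
  have h2 : (j:ℝ) ≤ q * (((j / q : ℕ) : ℝ) + 1) := by exact_mod_cast h1.le
  have h3 : (j:ℝ) / q ≤ ((j / q : ℕ) : ℝ) + 1 := by
    rw [div_le_iff₀ hq0]; linarith
  have h4 : -(1 / (400 * (q:ℝ))) * j = -(1/400) * (j / q) := by field_simp
  rw [h4]
  linarith

lemma deg_summable {q : ℕ} (hq1 : 1 ≤ q) (C : ℝ) :
    Summable fun j : ℕ => C * ((2:ℝ) ^ (1/400:ℝ) * ((2:ℝ) ^ (-(1/(400 * q)):ℝ)) ^ j) := by
  have hq0 : (0:ℝ) < q := by exact_mod_cast hq1
  apply Summable.mul_left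
  apply Summable.mul_left
  apply summable_geometric_of_lt_one (by positivity)
  apply Real.rpow_lt_one_of_one_lt_of_neg (by norm_num)
  have : 0 < 1 / (400 * (q:ℝ)) := by positivity
  linarith

lemma card_blk (j : ℕ) : (Finset.Ico (2 ^ j) (2 ^ (j + 1))).card = 2 ^ j := by
  rw [Nat.card_Ico, pow_succ]; omega

/-- the contribution of the high frequencies -/
lemma ae_diff (hX : Ctx E af φ) (h : Sq a b δ) (hc : 0 < c) (hcd : c ≤ d) {p : ℕ} (hp1 : 1 ≤ p) {k : ℕ} (hk : 1 ≤ k)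
    {q : ℕ} (hq1 : 1 ≤ q) :
    ∀ᵐ y ∂(volume.restrict (Icc c d)), Tendsto (fun j : ℕ => (∑ n ∈ Finset.Ico (2 ^ j) (2 ^ (j + 1)),
      (U af φ (pt a b n y) ((n + 1) ^ p) - U af φ (pt a b n y) (2 ^ (j / q))) ^ (2 * k)) / 2 ^ j) atTop (𝓝 0) := by
  obtain ⟨C, hC, n0, hD⟩ := diff_pow hX h hc hcd hp1 k hk
  have hcont : ∀ (n M M' : ℕ), Continuous fun y => (U af φ (pt a b n y) M - U af φ (pt a b n y) M') ^ (2 * k) :=
    fun n M M' => ((Upt_cont af φ a b n M).sub (Upt_cont af φ a b n M')).pow _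
  refine ae_zero' hcd (fun j => ?_) (deg_summable hq1 C) (j0 := n0) ?_ ?_
  · exact (continuous_finsetSum _ fun n _ => hcont n _ _).div_const _
  · intro j hj
    have h1 : ∫ y in c..d, (∑ n ∈ Finset.Ico (2 ^ j) (2 ^ (j + 1)),
        (U af φ (pt a b n y) ((n + 1) ^ p) - U af φ (pt a b n y) (2 ^ (j / q))) ^ (2 * k)) / 2 ^ j =
        (∑ n ∈ Finset.Ico (2 ^ j) (2 ^ (j + 1)), ∫ y in c..d,
        (U af φ (pt a b n y) ((n + 1) ^ p) - U af φ (pt a b n y) (2 ^ (j / q))) ^ (2 * k)) / 2 ^ j := by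
      rw [intervalIntegral.integral_div, intervalIntegral.integral_finsetSum]
      intro n _
      exact (hcont n _ _).intervalIntegrable _ _
    rw [h1, div_le_iff₀ (by positivity)]
    calc ∑ n ∈ Finset.Ico (2 ^ j) (2 ^ (j + 1)), ∫ y in c..d,
        (U af φ (pt a b n y) ((n + 1) ^ p) - U af φ (pt a b n y) (2 ^ (j / q))) ^ (2 * k)
        ≤ ∑ _n ∈ Finset.Ico (2 ^ j) (2 ^ (j + 1)), C * ((2:ℝ) ^ (1/400:ℝ) * ((2:ℝ) ^ (-(1/(400 * q)):ℝ)) ^ j) := by
          apply Finset.sum_le_sum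
          intro n hn
          have hn1 := (Finset.mem_Ico.mp hn).1
          have hjn : j < 2 ^ j := Nat.lt_two_pow_self
          have hMn : 2 ^ (j / q) ≤ n + 1 :=
            (Nat.pow_le_pow_right (by norm_num) (Nat.div_le_self j q)).trans (by omega)
          refine (hD n (by omega) (2 ^ (j / q)) Nat.one_le_two_pow hMn).trans ?_
          exact mul_le_mul_of_nonneg_left (deg_le hq1 j) hC.le
      _ = _ := by
          rw [Finset.sum_const, card_blk, nsmul_eq_mul]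
          push_cast
          ring
  · intro j y
    exact div_nonneg (Finset.sum_nonneg fun n _ => Even.pow_nonneg (even_two_mul k) _) (by positivity)

lemma geo_summable (C : ℝ) : Summable fun j : ℕ => C * (3 / 4 : ℝ) ^ j :=
  (summable_geometric_of_lt_one (by norm_num) (by norm_num)).mul_left C

/-- consequence of `blk_sq` -/
lemma ae_blk (h : Sq a b δ) (hc : 0 < c) (hcd : c ≤ d) {af : ℕ → ℝ} {Cs : ℝ} (hCs : 1 ≤ Cs)
    (hAA : ∀ M : ℕ, AA af M ≤ Cs * (M:ℝ) ^ 2) (φ : ℝ) {r q : ℕ} (hq : 8 * r ≤ q) (hq1 : 1 ≤ q) :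
    ∀ᵐ y ∂(volume.restrict (Icc c d)), ∀ ε : ℝ, 0 < ε → ∀ᶠ j : ℕ in atTop, ‖((∑ n ∈ Finset.Ico (2 ^ j) (2 ^ (j + 1)),
      (U af φ (pt a b n y) (2 ^ (j / q))) ^ r : ℝ) : ℂ)‖ ≤ (‖ZZ af φ r (2 ^ (j / q))‖ + ε) * 2 ^ j := by
  obtain ⟨C, hC, j0, hb⟩ := blk_sq h hc hcd hCs hAA φ hq hq1
  have hcont : ∀ (j : ℕ), Continuous fun y => ‖((2:ℝ) ^ j : ℂ)⁻¹ * ∑ n ∈ Finset.Ico (2 ^ j) (2 ^ (j + 1)),
      (((U af φ (pt a b n y) (2 ^ (j / q)) : ℝ) : ℂ) ^ r - ZZ af φ r (2 ^ (j / q)))‖ ^ 2 := by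
    intro j
    refine ((continuous_const.mul (continuous_finsetSum _ fun n _ => ?_)).norm).pow 2
    exact ((Complex.continuous_ofReal.comp (Upt_cont af φ a b n _)).pow r).sub continuous_const
  have h1 := ae_zero' hcd hcont (geo_summable C) (j0 := j0) hb (fun _ _ => sq_nonneg _)
  filter_upwards [h1] with y hy ε hε
  have h2 := tendsto_of_sq hy
  filter_upwards [h2.eventually (gt_mem_nhds hε)] with j hj
  have h3 : (0:ℝ) < 2 ^ j := by positivity
  have h4 : ‖∑ n ∈ Finset.Ico (2 ^ j) (2 ^ (j + 1)),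
      (((U af φ (pt a b n y) (2 ^ (j / q)) : ℝ) : ℂ) ^ r - ZZ af φ r (2 ^ (j / q)))‖ ≤ ε * 2 ^ j := by
    rw [norm_mul, norm_inv, norm_pow, Complex.norm_real, Real.norm_eq_abs, abs_of_pos (by norm_num : (0:ℝ) < 2)] at hj
    rw [inv_mul_lt_iff₀ h3] at hj
    linarith
  have h5 : ((∑ n ∈ Finset.Ico (2 ^ j) (2 ^ (j + 1)), (U af φ (pt a b n y) (2 ^ (j / q))) ^ r : ℝ) : ℂ) =
      (∑ n ∈ Finset.Ico (2 ^ j) (2 ^ (j + 1)),
      (((U af φ (pt a b n y) (2 ^ (j / q)) : ℝ) : ℂ) ^ r - ZZ af φ r (2 ^ (j / q)))) + (2 ^ j : ℂ) * ZZ af φ r (2 ^ (j / q)) := by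
    rw [Finset.sum_sub_distrib, Finset.sum_const, card_blk, nsmul_eq_mul]
    push_cast
    ring
  rw [h5]
  refine (norm_add_le _ _).trans ?_
  rw [norm_mul, norm_pow]
  have h6 : ‖(2:ℂ)‖ = 2 := by simp
  rw [h6]
  linarith

/-- the moments of the model polynomials of small degree -/
lemma ae_bdd (ha : Bd af) (h : Sq a b δ) (hc : 0 < c) (hcd : c ≤ d) {k q : ℕ} (hq : 16 * k ≤ q) (hq1 : 1 ≤ q) :
    ∃ C : ℝ, 0 < C ∧ ∀ᵐ y ∂(volume.restrict (Icc c d)), ∀ᶠ j : ℕ in atTop,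
      ∑ n ∈ Finset.Ico (2 ^ j) (2 ^ (j + 1)), (U af φ (pt a b n y) (2 ^ (j / q))) ^ (2 * k) ≤ C * 2 ^ j := by
  obtain ⟨Cs, hCs, hAA⟩ := AA_le ha
  obtain ⟨K, hK, hZ⟩ := ZZ_bound φ ha
  refine ⟨K * ((2 * k).factorial : ℝ) + 1, by positivity, ?_⟩
  filter_upwards [ae_blk h hc hcd hCs hAA φ (r := 2 * k) (q := q) (by omega) hq1] with y hy
  filter_upwards [hy 1 one_pos] with j hj
  rw [Complex.norm_real] at hj
  refine (Real.le_norm_self _).trans (hj.trans ?_)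
  apply mul_le_mul_of_nonneg_right _ (by positivity)
  have := hZ k (2 ^ (j / q))
  linarith

/-- coefficients above `K²` -/
noncomputable def cutc (af : ℕ → ℝ) (K m : ℕ) : ℝ := if K ^ 2 < m then af m else 0

lemma U_cut {K M : ℕ} (hKM : K ≤ M) (R : ℝ) : U (cutc af K) φ R M = U af φ R M - U af φ R K := by
  have h0 : K ^ 2 ≤ M ^ 2 := Nat.pow_le_pow_left hKM 2
  have h1 : (Finset.Icc 1 (M ^ 2)).filter (fun m => ¬ K ^ 2 < m) = Finset.Icc 1 (K ^ 2) := by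
    ext m
    simp only [Finset.mem_filter, Finset.mem_Icc]
    omega
  unfold U
  rw [← Finset.sum_filter_add_sum_filter_not (Finset.Icc 1 (M ^ 2)) (fun m => K ^ 2 < m)
    (fun m => af m * Real.cos (2 * Real.pi * (R * √(m:ℝ)) - φ)), h1, add_sub_cancel_right]
  rw [Finset.sum_filter]
  apply Finset.sum_congr rfl
  intro m _
  unfold cutc
  split_ifs <;> ring

lemma AA_cut (K M : ℕ) : AA (cutc af K) M ≤ AA af M := by
  unfold AA
  apply Finset.sum_le_sum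
  intro m _
  unfold cutc
  split_ifs
  · exact le_rfl
  · rw [abs_zero]; exact abs_nonneg _

/-- the zero-frequency part of the square -/
lemma zz_cut (hX : Ctx E af φ) (h : Sq a b δ) (hc : 0 < c) (hcd : c < d) : ∃ C : ℝ, 0 < C ∧ ∀ K M : ℕ, 1 ≤ K → K ≤ M →
    ‖ZZ (cutc af K) φ 2 M‖ ≤ C * (K:ℝ) ^ (-(1/200):ℝ) := by
  obtain ⟨C, hC, ρ, hρ, hD⟩ := diff_sq hX h hcd.le
  have hdc : 0 < d - c := by linarith
  have hCp := Cp_pos hc hcd.le h.dpos
  have hsc : 0 < δ * c := mul_pos h.dpos hc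
  refine ⟨2 * C / (d - c), by positivity, ?_⟩
  intro K M hK hKM
  have hK0 : (0:ℝ) < K := by exact_mod_cast hK
  have hKMr : (K:ℝ) ≤ M := by exact_mod_cast hKM
  have key : ∀ ε : ℝ, 0 < ε → (d - c) * ‖ZZ (cutc af K) φ 2 M‖ ≤ 2 * C * (K:ℝ) ^ (-(1/200):ℝ) + ε := by
    intro ε hε
    set W := AA (cutc af K) M ^ 2 * (2 * Cp c d δ * (((2 * M + 1 : ℕ) : ℝ) ^ (2 ^ 2))) with hW
    have hW0 : 0 ≤ W := by
      have := AA_nonneg (cutc af K) M
      positivity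
    obtain ⟨n0, hn0⟩ := ev_poly (h.pos 0) hsc (ρ + 2 * (M:ℝ) ^ 100 + W / ε) 0
    have h1 := (hn0 n0 le_rfl).trans (pt_low h hc.le n0)
    rw [pow_zero, mul_one] at h1
    have hM100 : 0 ≤ (M:ℝ) ^ 100 := by positivity
    have hWε : 0 ≤ W / ε := by positivity
    have hp := pt_pos h n0 c
    have g1 : ρ ≤ pt a b n0 c := by linarith
    have g2 : (M:ℝ) ^ 100 ≤ pt a b n0 c / 2 := by linarith
    have g3 : (K:ℝ) ^ 100 ≤ pt a b n0 c / 2 := (pow_le_pow_left₀ hK0.le hKMr 100).trans g2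
    have g4 : W / pt a b n0 c ≤ ε := by
      rw [div_le_iff₀ hp]
      have : W / ε ≤ pt a b n0 c := by linarith
      rw [div_le_iff₀ hε] at this
      linarith
    have h2 := hD n0 M K (hK.trans hKM) hK g1 g2 g3
    have h3 := pow_mean_int h hc hcd.le (cutc af K) φ 2 M n0
    have h4 : AA (cutc af K) M ^ 2 * (2 * Cp c d δ * (((2 * M + 1 : ℕ) : ℝ) ^ (2 ^ 2) / pt a b n0 c)) = W / pt a b n0 c := by
      rw [hW]; ring
    rw [h4] at h3
    have hc1 : Continuous fun y => ((U (cutc af K) φ (pt a b n0 y) M : ℝ) : ℂ) ^ 2 :=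
      (Complex.continuous_ofReal.comp (Upt_cont _ φ a b n0 M)).pow _
    have h5 : ((d:ℂ) - c) * ZZ (cutc af K) φ 2 M = ((∫ y in c..d, (U (cutc af K) φ (pt a b n0 y) M) ^ 2 : ℝ) : ℂ) -
        ∫ y in c..d, (((U (cutc af K) φ (pt a b n0 y) M : ℝ) : ℂ) ^ 2 - ZZ (cutc af K) φ 2 M) := by
      rw [intervalIntegral.integral_sub (hc1.intervalIntegrable _ _) intervalIntegrable_const,
        intervalIntegral.integral_const, ← intervalIntegral.integral_ofReal]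
      simp only [Complex.ofReal_pow, Complex.real_smul, Complex.ofReal_sub]
      ring
    have h6 : ‖((d:ℂ) - c)‖ = d - c := by
      rw [← Complex.ofReal_sub, Complex.norm_real, Real.norm_eq_abs, abs_of_pos hdc]
    have h7 : ‖((∫ y in c..d, (U (cutc af K) φ (pt a b n0 y) M) ^ 2 : ℝ) : ℂ)‖ ≤ 2 * C * (K:ℝ) ^ (-(1/200):ℝ) := by
      rw [Complex.norm_real, Real.norm_eq_abs, abs_of_nonneg (intervalIntegral.integral_nonneg hcd.le fun _ _ => sq_nonneg _)]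
      have e1 : ∫ y in c..d, (U (cutc af K) φ (pt a b n0 y) M) ^ 2 =
          ∫ y in c..d, (U af φ (pt a b n0 y) M - U af φ (pt a b n0 y) K) ^ 2 := by
        apply intervalIntegral.integral_congr
        intro y _
        simp only
        rw [U_cut hKM]
      rw [e1]
      refine h2.trans ?_
      have h8 : (M:ℝ) ^ (-(1/200):ℝ) ≤ (K:ℝ) ^ (-(1/200):ℝ) :=
        Real.rpow_le_rpow_of_nonpos hK0 hKMr (by norm_num)
      nlinarith
    calc (d - c) * ‖ZZ (cutc af K) φ 2 M‖ = ‖((d:ℂ) - c) * ZZ (cutc af K) φ 2 M‖ := by rw [norm_mul, h6]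
      _ ≤ _ := by
          rw [h5]
          refine (norm_sub_le _ _).trans (add_le_add h7 (h3.trans g4))
  have h9 := le_of_forall_pos_le_add key
  rw [div_mul_eq_mul_div, le_div_iff₀ hdc]
  linarith

/-- approximation of the model polynomials of small degree by a fixed one -/
lemma ae_fix (hX : Ctx E af φ) (h : Sq a b δ) (hc : 0 < c) (hcd : c < d) {q : ℕ} (hq : 16 ≤ q) :
    ∃ C : ℝ, 0 < C ∧ ∀ K : ℕ, 1 ≤ K → ∀ᵐ y ∂(volume.restrict (Icc c d)), ∀ ε : ℝ, 0 < ε → ∀ᶠ j : ℕ in atTop,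
      ∑ n ∈ Finset.Ico (2 ^ j) (2 ^ (j + 1)), (U af φ (pt a b n y) (2 ^ (j / q)) - U af φ (pt a b n y) K) ^ 2 ≤
        (C * (K:ℝ) ^ (-(1/200):ℝ) + ε) * 2 ^ j := by
  obtain ⟨Cs, hCs, hAA⟩ := AA_le hX.bd
  obtain ⟨C, hC, hZ⟩ := zz_cut hX h hc hcd
  refine ⟨C, hC, fun K hK => ?_⟩
  have hq1 : 1 ≤ q := by omega
  filter_upwards [ae_blk h hc hcd.le hCs (fun M => (AA_cut K M).trans (hAA M)) φ (r := 2) (q := q) (by omega) hq1] with y hy ε hε
  have hKj : ∀ᶠ j : ℕ in atTop, K ≤ 2 ^ (j / q) := by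
    filter_upwards [eventually_ge_atTop (K * q)] with j hj
    have : K ≤ j / q := (Nat.le_div_iff_mul_le (by omega)).mpr hj
    exact this.trans (Nat.lt_two_pow_self).le
  filter_upwards [hy ε hε, hKj] with j hj hKj
  rw [Complex.norm_real] at hj
  have h1 := (Real.le_norm_self _).trans hj
  have h2 : ∑ n ∈ Finset.Ico (2 ^ j) (2 ^ (j + 1)), (U af φ (pt a b n y) (2 ^ (j / q)) - U af φ (pt a b n y) K) ^ 2 =
      ∑ n ∈ Finset.Ico (2 ^ j) (2 ^ (j + 1)), (U (cutc af K) φ (pt a b n y) (2 ^ (j / q))) ^ 2 := by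
    apply Finset.sum_congr rfl
    intro n _
    rw [U_cut hKj]
  rw [h2]
  refine h1.trans ?_
  apply mul_le_mul_of_nonneg_right _ (by positivity)
  have := hZ K _ hK hKj
  linarith

end Pool.Agent.R306.GP
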