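import Mathlib
import Pool.Agent.R306.GP.AEc

/-!
Almost everywhere statements along `b_n exp(a_n y)`: moments of the error term, approximation by fixed model
polynomials, and Weyl sums.
-/

set_option autoImplicit false

open MeasureTheory Filter Topology Set Real
open scoped ENNReal
open Pool.Agent.H469R2.NK (e norm_e e_add conj_e e_zero)
open Pool.Agent.H383.Gen (U Bd)
open Pool.Agent.H383.GW (Wt Sand)
open Pool.Agent.Y969.TM

namespace Pool.Agent.R306.GP

variable {E : ℝ → ℝ} {af : ℕ → ℝ} {φ : ℝ} {a b : ℕ → ℝ} {δ c d : ℝ}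

lemma pow_add_le' (x y : ℝ) (l : ℕ) : (x + y) ^ (2 * l) ≤ 2 ^ (2 * l) * (x ^ (2 * l) + y ^ (2 * l)) := by
  have h := pow_diff_le x (-y) l
  rwa [sub_neg_eq_add, Even.neg_pow (even_two_mul l)] at h

lemma blk_small {x : ℕ → ℝ} (hx : Tendsto x atTop (𝓝 0)) {η : ℝ} (hη : 0 < η) (k : ℕ) :
    ∀ᶠ j : ℕ in atTop, ∑ n ∈ Finset.Ico (2 ^ j) (2 ^ (j + 1)), (x n) ^ (2 * k) ≤ η ^ (2 * k) * 2 ^ j := by
  have h1 : ∀ᶠ n in atTop, |x n| ≤ η := by
    have := (tendsto_zero_iff_abs_tendsto_zero x).mp hx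
    filter_upwards [this.eventually (gt_mem_nhds hη)] with n hn
    exact hn.le
  rw [eventually_atTop] at h1
  obtain ⟨n0, h1⟩ := h1
  filter_upwards [eventually_ge_atTop n0] with j hj
  calc ∑ n ∈ Finset.Ico (2 ^ j) (2 ^ (j + 1)), (x n) ^ (2 * k) ≤ ∑ _n ∈ Finset.Ico (2 ^ j) (2 ^ (j + 1)), η ^ (2 * k) := by
        apply Finset.sum_le_sum
        intro n hn
        have hn1 := (Finset.mem_Ico.mp hn).1
        have hjn : j < 2 ^ j := Nat.lt_two_pow_self
        have h2 : (x n) ^ (2 * k) = |x n| ^ (2 * k) := by rw [pow_mul, pow_mul, sq_abs]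
        rw [h2]
        exact pow_le_pow_left₀ (abs_nonneg _) (h1 n (by omega)) _
    _ = _ := by
        rw [Finset.sum_const, card_blk, nsmul_eq_mul]
        push_cast
        ring

lemma blk_div {f : ℕ → ℝ} (hf : Tendsto (fun j : ℕ => f j / 2 ^ j) atTop (𝓝 0)) {η : ℝ} (hη : 0 < η) :
    ∀ᶠ j : ℕ in atTop, f j ≤ η * 2 ^ j := by
  filter_upwards [hf.eventually (gt_mem_nhds hη)] with j hj
  rw [div_lt_iff₀ (by positivity)] at hj
  exact hj.le

/-- all moments are bounded -/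
theorem good1 (hX : Ctx E af φ) (h : Sq a b δ) (hc : 0 < c) (hcd : c < d) (k : ℕ) :
    ∀ᵐ y ∂(volume.restrict (Icc c d)), ∃ C : ℝ, ∀ᶠ N : ℕ in atTop,
      ∑ n ∈ Finset.range N, (E (pt a b n y)) ^ (2 * k) ≤ C * N := by
  rcases Nat.eq_zero_or_pos k with rfl | hk
  · refine Eventually.of_forall fun y => ⟨1, Eventually.of_forall fun N => ?_⟩
    simp
  obtain ⟨p, hp⟩ : ∃ p : ℕ, 400 ≤ p := ⟨400, le_rfl⟩
  obtain ⟨C, hC, hbd⟩ := ae_bdd (φ := φ) hX.bd h hc hcd.le (k := k) (q := 16 * k) le_rfl (by omega)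
  filter_upwards [ae_err hX h hc hcd.le hp, ae_diff hX h hc hcd.le (p := p) (by omega) hk (q := 16 * k) (by omega), hbd]
    with y h1 h2 h3
  set L := 2 ^ (2 * k) * (1 + 2 ^ (2 * k) * (1 + C)) with hL
  have hL0 : 0 ≤ L := by positivity
  refine ⟨2 * L + 1, ces (fun n => Even.pow_nonneg (even_two_mul k) _) hL0 ?_ 1 one_pos⟩
  filter_upwards [blk_small h1 one_pos k, blk_div h2 one_pos, h3] with j g1 g2 g3
  rw [one_pow, one_mul] at g1
  rw [one_mul] at g2
  set X : ℕ → ℝ := fun n => E (pt a b n y) - U af φ (pt a b n y) ((n + 1) ^ p) with hXd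
  set Y : ℕ → ℝ := fun n => U af φ (pt a b n y) ((n + 1) ^ p) - U af φ (pt a b n y) (2 ^ (j / (16 * k))) with hYd
  set Z : ℕ → ℝ := fun n => U af φ (pt a b n y) (2 ^ (j / (16 * k))) with hZd
  have e1 : ∀ n, E (pt a b n y) = X n + (Y n + Z n) := by
    intro n; simp only [hXd, hYd, hZd]; ring
  calc ∑ n ∈ Finset.Ico (2 ^ j) (2 ^ (j + 1)), (E (pt a b n y)) ^ (2 * k)
      ≤ ∑ n ∈ Finset.Ico (2 ^ j) (2 ^ (j + 1)), 2 ^ (2 * k) * ((X n) ^ (2 * k) + 2 ^ (2 * k) * ((Y n) ^ (2 * k) + (Z n) ^ (2 * k))) := by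
        apply Finset.sum_le_sum
        intro n _
        rw [e1]
        refine (pow_add_le' _ _ k).trans ?_
        apply mul_le_mul_of_nonneg_left _ (by positivity)
        have := pow_add_le' (Y n) (Z n) k
        linarith
    _ = 2 ^ (2 * k) * (∑ n ∈ Finset.Ico (2 ^ j) (2 ^ (j + 1)), (X n) ^ (2 * k) + 2 ^ (2 * k) *
        (∑ n ∈ Finset.Ico (2 ^ j) (2 ^ (j + 1)), (Y n) ^ (2 * k) + ∑ n ∈ Finset.Ico (2 ^ j) (2 ^ (j + 1)), (Z n) ^ (2 * k))) := by
        rw [← Finset.mul_sum, Finset.sum_add_distrib, ← Finset.mul_sum, Finset.sum_add_distrib]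
    _ ≤ 2 ^ (2 * k) * ((2:ℝ) ^ j + 2 ^ (2 * k) * (2 ^ j + C * 2 ^ j)) := by
        gcongr
    _ = _ := by rw [hL]; ring

/-- approximation by fixed model polynomials -/
theorem good2 (hX : Ctx E af φ) (h : Sq a b δ) (hc : 0 < c) (hcd : c < d) :
    ∀ᵐ y ∂(volume.restrict (Icc c d)), ∀ ε : ℝ, 0 < ε → ∀ᶠ K : ℕ in atTop, ∀ᶠ N : ℕ in atTop,
      ∑ n ∈ Finset.range N, (E (pt a b n y) - U af φ (pt a b n y) K) ^ 2 ≤ ε * N := by
  obtain ⟨p, hp⟩ : ∃ p : ℕ, 400 ≤ p := ⟨400, le_rfl⟩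
  obtain ⟨C, hC, hfix⟩ := ae_fix hX h hc hcd (q := 16) le_rfl
  have hfix' : ∀ᵐ y ∂(volume.restrict (Icc c d)), ∀ K : ℕ, 1 ≤ K → ∀ ε : ℝ, 0 < ε → ∀ᶠ j : ℕ in atTop,
      ∑ n ∈ Finset.Ico (2 ^ j) (2 ^ (j + 1)), (U af φ (pt a b n y) (2 ^ (j / 16)) - U af φ (pt a b n y) K) ^ 2 ≤
        (C * (K:ℝ) ^ (-(1/200):ℝ) + ε) * 2 ^ j := by
    rw [ae_all_iff]
    intro K
    by_cases hK : 1 ≤ K
    · filter_upwards [hfix K hK] with y hy _
      exact hy
    · exact Eventually.of_forall fun y h0 => absurd h0 hK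
  filter_upwards [ae_err hX h hc hcd.le hp, ae_diff hX h hc hcd.le (p := p) (by omega) (k := 1) le_rfl (q := 16) (by omega), hfix']
    with y h1 h2 h3 ε hε
  set η := min 1 (ε / 256) with hη
  have hη0 : 0 < η := by positivity
  have hη1 : η ≤ 1 := min_le_left _ _
  have hηε : η ≤ ε / 256 := min_le_right _ _
  have hCK : ∀ᶠ K : ℕ in atTop, C * (K:ℝ) ^ (-(1/200):ℝ) < η := by
    have g1 : Tendsto (fun K : ℕ => C * (K:ℝ) ^ (-(1/200):ℝ)) atTop (𝓝 (C * 0)) :=
      ((tendsto_rpow_neg_atTop (by norm_num : (0:ℝ) < 1/200)).comp tendsto_natCast_atTop_atTop).const_mul C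
    rw [mul_zero] at g1
    exact g1.eventually (gt_mem_nhds hη0)
  filter_upwards [hCK, eventually_ge_atTop 1] with K hK hK1
  have h4 := h3 K hK1 η hη0
  have hces := ces (h := fun n => (E (pt a b n y) - U af φ (pt a b n y) K) ^ 2) (fun n => sq_nonneg _)
    (L := 4 * (η + 4 * (η + 2 * η))) (by positivity) ?_ (ε / 2) (by positivity)
  · filter_upwards [hces] with N hN
    refine hN.trans ?_
    apply mul_le_mul_of_nonneg_right _ (Nat.cast_nonneg N)
    linarith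
  · filter_upwards [blk_small h1 hη0 1, blk_div h2 hη0, h4] with j g1 g2 g3
    simp only [mul_one] at g1 g2
    set X : ℕ → ℝ := fun n => E (pt a b n y) - U af φ (pt a b n y) ((n + 1) ^ p) with hXd
    set Y : ℕ → ℝ := fun n => U af φ (pt a b n y) ((n + 1) ^ p) - U af φ (pt a b n y) (2 ^ (j / 16)) with hYd
    set Z : ℕ → ℝ := fun n => U af φ (pt a b n y) (2 ^ (j / 16)) - U af φ (pt a b n y) K with hZd
    have e1 : ∀ n, E (pt a b n y) - U af φ (pt a b n y) K = X n + (Y n + Z n) := by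
      intro n; simp only [hXd, hYd, hZd]; ring
    have g1' : ∑ n ∈ Finset.Ico (2 ^ j) (2 ^ (j + 1)), (X n) ^ 2 ≤ η * 2 ^ j := by
      refine g1.trans ?_
      apply mul_le_mul_of_nonneg_right _ (by positivity)
      nlinarith
    calc ∑ n ∈ Finset.Ico (2 ^ j) (2 ^ (j + 1)), (E (pt a b n y) - U af φ (pt a b n y) K) ^ 2
        ≤ ∑ n ∈ Finset.Ico (2 ^ j) (2 ^ (j + 1)), 4 * ((X n) ^ 2 + 4 * ((Y n) ^ 2 + (Z n) ^ 2)) := by
          apply Finset.sum_le_sum
          intro n _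
          rw [e1]
          nlinarith [sq_nonneg (X n - (Y n + Z n)), sq_nonneg (Y n - Z n), sq_nonneg (X n), sq_nonneg (Y n + Z n),
            sq_nonneg (Y n), sq_nonneg (Z n)]
      _ = 4 * (∑ n ∈ Finset.Ico (2 ^ j) (2 ^ (j + 1)), (X n) ^ 2 + 4 *
          (∑ n ∈ Finset.Ico (2 ^ j) (2 ^ (j + 1)), (Y n) ^ 2 + ∑ n ∈ Finset.Ico (2 ^ j) (2 ^ (j + 1)), (Z n) ^ 2)) := by
          rw [← Finset.mul_sum, Finset.sum_add_distrib, ← Finset.mul_sum, Finset.sum_add_distrib]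
      _ ≤ 4 * (η * (2:ℝ) ^ j + 4 * (η * 2 ^ j + (η + η) * 2 ^ j)) := by
          gcongr
          refine g3.trans ?_
          gcongr
      _ = _ := by ring

/-- averages of bounded numbers are controlled by those over squares -/
lemma sqfill {z : ℕ → ℂ} (hz : ∀ n, ‖z n‖ ≤ 1)
    (h : Tendsto (fun m : ℕ => (∑ n ∈ Finset.range (m ^ 2), z n) / ((m:ℂ) ^ 2)) atTop (𝓝 0)) :
    Tendsto (fun N : ℕ => (∑ n ∈ Finset.range N, z n) / (N:ℂ)) atTop (𝓝 0) := by
  have hs : Tendsto (fun N : ℕ => Nat.sqrt N) atTop atTop := by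
    rw [tendsto_atTop]
    intro b
    filter_upwards [eventually_ge_atTop (b ^ 2)] with N hN
    rw [Nat.le_sqrt']
    exact hN
  have h1 := (tendsto_zero_iff_norm_tendsto_zero.mp h).comp hs
  have h2 : Tendsto (fun N : ℕ => (2:ℝ) / (Nat.sqrt N : ℝ)) atTop (𝓝 0) :=
    (tendsto_const_nhds.div_atTop tendsto_natCast_atTop_atTop).comp hs
  have h3 := h1.add h2
  rw [add_zero] at h3
  rw [tendsto_zero_iff_norm_tendsto_zero]
  refine squeeze_zero' (Eventually.of_forall fun _ => norm_nonneg _) ?_ h3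
  filter_upwards [eventually_ge_atTop 1] with N hN
  simp only [Function.comp_apply]
  set m := Nat.sqrt N with hm
  have hm1 : 1 ≤ m := by rw [hm, Nat.le_sqrt']; simpa using hN
  have hmN : m ^ 2 ≤ N := Nat.sqrt_le' N
  have hNm : N ≤ m ^ 2 + 2 * m := by
    have := Nat.lt_succ_sqrt' N
    rw [← hm] at this
    have e1 : (m + 1) ^ 2 = m ^ 2 + 2 * m + 1 := by ring
    have e2 : m.succ = m + 1 := rfl
    rw [e2, e1] at this
    omega
  have hm0 : (0:ℝ) < m := by exact_mod_cast hm1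
  have hN0 : (0:ℝ) < N := by exact_mod_cast hN
  have hmNr : (m:ℝ) ^ 2 ≤ N := by exact_mod_cast hmN
  have hsplit : ∑ n ∈ Finset.range N, z n = ∑ n ∈ Finset.range (m ^ 2), z n + ∑ n ∈ Finset.Ico (m ^ 2) N, z n := by
    rw [Finset.range_eq_Ico, Finset.range_eq_Ico, Finset.sum_Ico_consecutive _ (Nat.zero_le _) hmN]
  have h5 : ‖∑ n ∈ Finset.Ico (m ^ 2) N, z n‖ ≤ 2 * m := by
    calc ‖∑ n ∈ Finset.Ico (m ^ 2) N, z n‖ ≤ ∑ n ∈ Finset.Ico (m ^ 2) N, ‖z n‖ := norm_sum_le _ _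
      _ ≤ ∑ _n ∈ Finset.Ico (m ^ 2) N, (1:ℝ) := Finset.sum_le_sum fun n _ => hz n
      _ = ((N - m ^ 2 : ℕ) : ℝ) := by rw [Finset.sum_const, Nat.card_Ico, nsmul_eq_mul, mul_one]
      _ ≤ 2 * m := by
          have : N - m ^ 2 ≤ 2 * m := by omega
          exact_mod_cast this
  rw [norm_div, norm_div, Complex.norm_natCast, norm_pow, Complex.norm_natCast, hsplit]
  calc ‖∑ n ∈ Finset.range (m ^ 2), z n + ∑ n ∈ Finset.Ico (m ^ 2) N, z n‖ / N
      ≤ (‖∑ n ∈ Finset.range (m ^ 2), z n‖ + 2 * m) / (m:ℝ) ^ 2 := by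
        apply div_le_div₀ (by positivity) ((norm_add_le _ _).trans (by linarith)) (by positivity) hmNr
    _ = _ := by
        rw [add_div]
        congr 1
        field_simp

lemma Sq.large (h : Sq a b δ) (X : ℝ) : ∃ n0 : ℕ, ∀ n : ℕ, n0 ≤ n → X ≤ a n := by
  obtain ⟨n0, hn0⟩ := exists_nat_ge (X / δ)
  refine ⟨n0, fun n hn => ?_⟩
  have h1 := h.low n
  have h2 : X / δ ≤ n := hn0.trans (by exact_mod_cast hn)
  rw [div_le_iff₀ h.dpos] at h2
  linarith

/-- Weyl sums with a moving frequency -/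
theorem weyl (h : Sq a b δ) (hc : 0 < c) (hcd : c ≤ d) (P : Polynomial ℝ)
    (hP : ∀ y ∈ Icc c d, P.eval (exp y) ≠ 0) :
    ∀ᵐ y ∂(volume.restrict (Icc c d)),
      Tendsto (fun N : ℕ => (∑ n ∈ Finset.range N, e (pt a b n y * P.eval (exp y))) / (N:ℂ)) atTop (𝓝 0) := by
  set q : ℝ → ℝ := fun y => P.eval (exp y) with hq
  set q' : ℝ → ℝ := fun y => P.derivative.eval (exp y) * exp y with hq'
  set q'' : ℝ → ℝ := fun y => P.derivative.derivative.eval (exp y) * exp y * exp y + P.derivative.eval (exp y) * exp y with hq''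
  have hqc : Continuous q := P.continuous.comp Real.continuous_exp
  have hq'c : Continuous q' := (P.derivative.continuous.comp Real.continuous_exp).mul Real.continuous_exp
  have hq''c : Continuous q'' := by
    have := P.derivative.derivative.continuous.comp Real.continuous_exp
    exact ((this.mul Real.continuous_exp).mul Real.continuous_exp).add hq'c
  have hqd : ∀ y, HasDerivAt q (q' y) y := fun y => (P.hasDerivAt (exp y)).comp y (Real.hasDerivAt_exp y)
  have hq'd : ∀ y, HasDerivAt q' (q'' y) y := fun y =>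
    ((P.derivative.hasDerivAt (exp y)).comp y (Real.hasDerivAt_exp y)).mul (Real.hasDerivAt_exp y)
  -- bounds
  obtain ⟨x0, hx0, hmin⟩ := isCompact_Icc.exists_isMinOn (nonempty_Icc.mpr hcd) (f := fun y => |q y|) hqc.abs.continuousOn
  obtain ⟨B0, hB0⟩ := isCompact_Icc.exists_bound_of_continuousOn (s := Icc c d) (f := q) hqc.continuousOn
  obtain ⟨B1, hB1⟩ := isCompact_Icc.exists_bound_of_continuousOn (s := Icc c d) (f := q') hq'c.continuousOn
  obtain ⟨B2, hB2⟩ := isCompact_Icc.exists_bound_of_continuousOn (s := Icc c d) (f := q'') hq''c.continuousOn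
  set τ := |q x0| with hτ
  have hτ0 : 0 < τ := abs_pos.mpr (hP x0 hx0)
  set B := max B1 B2 with hB
  have hcm : c ∈ Icc c d := ⟨le_rfl, hcd⟩
  have hB00 : 0 ≤ B := by
    have := hB1 c hcm
    have := norm_nonneg (q' c)
    have : B1 ≤ B := le_max_left _ _
    linarith
  have hbd : ∀ y ∈ Icc c d, τ ≤ |q y| ∧ |q y| ≤ B0 ∧ |q' y| ≤ B ∧ |q'' y| ≤ B := by
    intro y hy
    refine ⟨hmin hy, hB0 y hy, (hB1 y hy).trans (le_max_left _ _), (hB2 y hy).trans (le_max_right _ _)⟩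
  have hB0p : 0 < B0 := lt_of_lt_of_le hτ0 ((hbd c hcm).1.trans (hbd c hcm).2.1)
  have hθ := theta_pos hc h.dpos
  have hCp := Cp_pos hc hcd h.dpos
  obtain ⟨n0, hn0⟩ := h.large (4 * B / (τ * (1 - exp (-(δ * c)))))
  have hbig : ∀ m, n0 ≤ m → 4 * B ≤ a m * τ * (1 - exp (-(δ * c))) := by
    intro m hm
    have := hn0 m hm
    rw [div_le_iff₀ (by positivity)] at this
    linarith
  set W := Cp c d δ * ((B0 + B) / τ ^ 2 + 1 / τ) with hW
  have hW0 : 0 < W := by positivity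
  have hsc : 0 < δ * c := mul_pos h.dpos hc
  have hb0 := h.pos 0
  -- the sum of the errors
  have hKsum : Summable fun m : ℕ => W / b 0 * (exp (-(δ * c))) ^ m := by
    apply Summable.mul_left
    exact summable_geometric_of_lt_one (Real.exp_pos _).le (by rw [Real.exp_lt_one_iff]; linarith)
  set T := ∑' m : ℕ, W / b 0 * (exp (-(δ * c))) ^ m with hT
  have hT0 : 0 ≤ T := tsum_nonneg fun m => by positivity
  have hKle : ∀ m : ℕ, W / pt a b m c ≤ W / b 0 * (exp (-(δ * c))) ^ m := by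
    intro m
    have h1 := pt_low h hc.le m
    have h2 : (exp (-(δ * c))) ^ m = (exp (δ * c * m))⁻¹ := by
      rw [← Real.exp_nat_mul, ← Real.exp_neg]; congr 1; ring
    rw [h2]
    calc W / pt a b m c ≤ W / (b 0 * exp (δ * c * m)) := by
          apply div_le_div_of_nonneg_left hW0.le (by positivity) h1
      _ = _ := by field_simp
  have hsq : ∀ N : ℕ, ∫ y in c..d, ‖∑ n ∈ Finset.Ico n0 N, e (pt a b n y * q y)‖ ^ 2 ≤ (d - c + 2 * T) * N := by
    intro N
    have h1 := sqsum hcd (Finset.Ico n0 N) (Ψ := fun n y => pt a b n y * q y)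
      (fun n => (pt_cont a b n).mul hqc) (K := fun m => W / pt a b m c) ?_ (fun m => by
        have := pt_pos h m c
        positivity)
    · refine h1.trans ?_
      have h2 : ((Finset.Ico n0 N).card : ℝ) ≤ N := by
        rw [Nat.card_Ico]
        exact_mod_cast Nat.sub_le N n0
      have h3 : ∑ m ∈ Finset.Ico n0 N, W / pt a b m c ≤ T :=
        (Finset.sum_le_sum fun m _ => hKle m).trans (hKsum.sum_le_tsum _ fun m _ => by positivity)
      have h4 : 0 ≤ ∑ m ∈ Finset.Ico n0 N, W / pt a b m c := Finset.sum_nonneg fun m _ => by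
        have := pt_pos h m c
        positivity
      have h5 : 0 ≤ d - c := by linarith
      have h6 : (0:ℝ) ≤ N := Nat.cast_nonneg N
      calc ((Finset.Ico n0 N).card : ℝ) * (d - c) + 2 * ((Finset.Ico n0 N).card * ∑ m ∈ Finset.Ico n0 N, W / pt a b m c)
          ≤ N * (d - c) + 2 * (N * T) := by gcongr
        _ = _ := by ring
    · intro m hm n hn hnm
      have hm0 := (Finset.mem_Ico.mp hm).1
      have g1 := phase (q := q) (q' := q') (q'' := q'') (τ := τ) (B := B0) (B1 := B) hc hcd h.dpos hτ0 hB00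
        (fun y _ => hqd y) (fun y _ => hq'd y) hq''c.continuousOn hbd (a1 := a n) (a2 := a m) (b1 := b n) (b2 := b m)
        (h.one m) (by linarith [h.one n]) (h.gap' hnm) (h.pos n).le (h.mono hnm.le) (h.pos m) (hbig m hm0)
      have g2 := phase (q := fun y => -q y) (q' := fun y => -q' y) (q'' := fun y => -q'' y) (τ := τ) (B := B0) (B1 := B) hc hcd h.dpos hτ0 hB00
        (fun y _ => (hqd y).neg) (fun y _ => (hq'd y).neg) hq''c.neg.continuousOn (fun y hy => by
          simp only [abs_neg]; exact hbd y hy) (a1 := a n) (a2 := a m) (b1 := b n) (b2 := b m)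
        (h.one m) (by linarith [h.one n]) (h.gap' hnm) (h.pos n).le (h.mono hnm.le) (h.pos m) (hbig m hm0)
      refine ⟨g1, ?_⟩
      refine le_trans (le_of_eq ?_) g2
      congr 2
      funext y
      congr 1
      unfold pt
      ring
  -- squares
  have hS : Summable fun m : ℕ => (d - c + 2 * T) * (1 / (m:ℝ) ^ 2) :=
    (Real.summable_one_div_nat_pow.mpr (by norm_num)).mul_left _
  have hcontS : ∀ m : ℕ, Continuous fun y => (‖∑ n ∈ Finset.Ico n0 (m ^ 2), e (pt a b n y * q y)‖ / (m:ℝ) ^ 2) ^ 2 := by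
    intro m
    refine ((continuous_finsetSum _ fun n _ => ?_).norm.div_const _).pow 2
    exact e_continuous.comp ((pt_cont a b n).mul hqc)
  have hae := ae_zero' hcd hcontS hS (j0 := 1) ?_ (fun _ _ => sq_nonneg _)
  · filter_upwards [hae] with y hy
    have h1 := tendsto_of_sq hy
    apply sqfill (fun n => (norm_e _).le)
    rw [tendsto_zero_iff_norm_tendsto_zero]
    have h2 : Tendsto (fun m : ℕ => ((n0:ℝ)) / (m:ℝ) ^ 2) atTop (𝓝 0) := by
      have h5 : Tendsto (fun m : ℕ => (m:ℝ) ^ 2) atTop atTop :=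
        (tendsto_pow_atTop (by norm_num : (2:ℕ) ≠ 0)).comp tendsto_natCast_atTop_atTop
      exact tendsto_const_nhds.div_atTop h5
    have h3 := h1.add h2
    rw [add_zero] at h3
    refine squeeze_zero' (Eventually.of_forall fun _ => norm_nonneg _) ?_ h3
    filter_upwards [eventually_ge_atTop (n0 + 1)] with m hm
    have hm0 : (0:ℝ) < m := by
      have : 0 < m := by omega
      exact_mod_cast this
    have hnm : n0 ≤ m ^ 2 := by nlinarith
    rw [norm_div, norm_pow, Complex.norm_natCast, ← add_div]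
    apply div_le_div_of_nonneg_right _ (by positivity)
    rw [Finset.range_eq_Ico, ← Finset.sum_Ico_consecutive _ (Nat.zero_le n0) hnm]
    refine (norm_add_le _ _).trans ?_
    rw [add_comm]
    apply add_le_add le_rfl
    calc ‖∑ n ∈ Finset.Ico 0 n0, e (pt a b n y * P.eval (exp y))‖ ≤ ∑ n ∈ Finset.Ico 0 n0, ‖e (pt a b n y * P.eval (exp y))‖ := norm_sum_le _ _
      _ = n0 := by simp [norm_e]
  · intro m hm
    have hm0 : (0:ℝ) < m := by exact_mod_cast hm
    have h1 := hsq (m ^ 2)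
    have e1 : ∫ y in c..d, (‖∑ n ∈ Finset.Ico n0 (m ^ 2), e (pt a b n y * q y)‖ / (m:ℝ) ^ 2) ^ 2 =
        ((m:ℝ) ^ 4)⁻¹ * ∫ y in c..d, ‖∑ n ∈ Finset.Ico n0 (m ^ 2), e (pt a b n y * q y)‖ ^ 2 := by
      rw [← intervalIntegral.integral_const_mul]
      apply intervalIntegral.integral_congr
      intro y _
      have e2 : ∀ x : ℝ, (x / (m:ℝ) ^ 2) ^ 2 = ((m:ℝ) ^ 4)⁻¹ * x ^ 2 := by
        intro x
        rw [div_pow, ← pow_mul, div_eq_inv_mul]
      exact e2 _
    rw [e1]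
    push_cast at h1
    calc ((m:ℝ) ^ 4)⁻¹ * ∫ y in c..d, ‖∑ n ∈ Finset.Ico n0 (m ^ 2), e (pt a b n y * q y)‖ ^ 2
        ≤ ((m:ℝ) ^ 4)⁻¹ * ((d - c + 2 * T) * (m:ℝ) ^ 2) := mul_le_mul_of_nonneg_left h1 (by positivity)
      _ = _ := by field_simp

end Pool.Agent.R306.GP
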