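import Mathlib
import Pool.Agent.R306.GP.AEd

/-!
Mixed moments and characteristic functions of the model polynomials along `b_n exp(a_n y) exp(j y)`.
-/

set_option autoImplicit false

open MeasureTheory Filter Topology Set Real
open scoped ENNReal
open Pool.Agent.H469R2.NK (e norm_e e_add conj_e e_zero)
open Pool.Agent.H383.Gen (U Bd)
open Pool.Agent.H383.GW (Wt Sand)
open Pool.Agent.Y969.TM

namespace Pool.Agent.R306.GP

variable {E : ℝ → ℝ} {af : ℕ → ℝ} {φ : ℝ} {a b : ℕ → ℝ} {δ c d : ℝ}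

/-- Weyl sums with a moving frequency, all `y > 0` -/
theorem weyl_ae (h : Sq a b δ) {P : Polynomial ℝ} (hP : P ≠ 0) :
    ∀ᵐ y : ℝ, 0 < y →
      Tendsto (fun N : ℕ => (∑ n ∈ Finset.range N, e (pt a b n y * P.eval (exp y))) / (N:ℂ)) atTop (𝓝 0) := by
  have h1 : ∀ᵐ y : ℝ, ∀ c d : ℚ, (0 < (c:ℝ) ∧ (c:ℝ) ≤ d ∧ ∀ x ∈ Icc (c:ℝ) d, P.eval (exp x) ≠ 0) → y ∈ Icc (c:ℝ) d →
      Tendsto (fun N : ℕ => (∑ n ∈ Finset.range N, e (pt a b n y * P.eval (exp y))) / (N:ℂ)) atTop (𝓝 0) := by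
    rw [ae_all_iff]
    intro c
    rw [ae_all_iff]
    intro d
    by_cases hcd : 0 < (c:ℝ) ∧ (c:ℝ) ≤ d ∧ ∀ x ∈ Icc (c:ℝ) d, P.eval (exp x) ≠ 0
    · have h2 := weyl h hcd.1 hcd.2.1 P hcd.2.2
      rw [ae_restrict_iff' measurableSet_Icc] at h2
      filter_upwards [h2] with y hy _
      exact hy
    · exact Eventually.of_forall fun y h0 => absurd h0 hcd
  have h3 : ∀ᵐ y : ℝ, P.eval (exp y) ≠ 0 := by
    have hfin : {y : ℝ | P.eval (exp y) = 0}.Finite := by
      have h4 : {x : ℝ | P.eval x = 0}.Finite := by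
        refine (P.roots.toFinset.finite_toSet).subset fun x hx => ?_
        simp only [Finset.mem_coe, Multiset.mem_toFinset]
        exact (Polynomial.mem_roots hP).mpr hx
      exact h4.preimage (Real.exp_injective.injOn)
    have h5 : volume {y : ℝ | P.eval (exp y) = 0} = 0 := hfin.measure_zero _
    rw [ae_iff]
    convert h5 using 2
    ext y
    simp
  filter_upwards [h1, h3] with y hy hy3 hy0
  have hopen : IsOpen {x : ℝ | 0 < x ∧ P.eval (exp x) ≠ 0} := by
    apply IsOpen.inter isOpen_Ioi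
    exact (P.continuous.comp Real.continuous_exp).isOpen_preimage _ isOpen_ne
  obtain ⟨ε, hε, hball⟩ := Metric.isOpen_iff.mp hopen y ⟨hy0, hy3⟩
  obtain ⟨c, hc1, hc2⟩ := exists_rat_btwn (show y - ε < y by linarith)
  obtain ⟨d, hd1, hd2⟩ := exists_rat_btwn (show y < y + ε by linarith)
  have hsub : ∀ x ∈ Icc (c:ℝ) d, 0 < x ∧ P.eval (exp x) ≠ 0 := by
    intro x hx
    apply hball
    rw [Metric.mem_ball, Real.dist_eq, abs_lt]
    constructor
    · linarith [hx.1]
    · linarith [hx.2]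
  have hcd : (c:ℝ) ≤ d := by linarith
  exact hy c d ⟨(hsub c ⟨le_rfl, hcd⟩).1, hcd, fun x hx => (hsub x hx).2⟩ ⟨hc2.le, hd1.le⟩

/-- the points of the vector -/
noncomputable def pj (a b : ℕ → ℝ) (n : ℕ) (y : ℝ) (j : ℕ) : ℝ := exp (j * y) * pt a b n y

open Classical in
/-- the mixed moments -/
theorem mixed (h : Sq a b δ) (af : ℕ → ℝ) (φ : ℝ) : ∀ᵐ y : ℝ, 0 < y → ∀ (k : ℕ) (p : Fin k → ℕ) (K : ℕ),
    Tendsto (fun N : ℕ => (∑ n ∈ Finset.range N, ∏ j : Fin k, ((U af φ (pj a b n y j) K : ℝ) : ℂ) ^ (p j)) / (N:ℂ)) atTop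
      (𝓝 (∏ j, ZZ af φ (p j) K)) := by
  -- almost everywhere for the countably many polynomials
  have key : ∀ᵐ y : ℝ, ∀ (k : ℕ) (p : Fin k → ℕ) (K : ℕ), 0 < y →
      ∀ x ∈ Fintype.piFinset (fun j : Fin k => TT (p j) K),
        (∑ j : Fin k, Polynomial.monomial (j:ℕ) (∑ i, fq (x j i)) : Polynomial ℝ) ≠ 0 →
      Tendsto (fun N : ℕ => (∑ n ∈ Finset.range N, e (pt a b n y *
        (∑ j : Fin k, Polynomial.monomial (j:ℕ) (∑ i, fq (x j i)) : Polynomial ℝ).eval (exp y))) / (N:ℂ)) atTop (𝓝 0) := by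
    rw [ae_all_iff]
    intro k
    rw [ae_all_iff]
    intro p
    rw [ae_all_iff]
    intro K
    have h1 : ∀ᵐ y : ℝ, ∀ x : (Fintype.piFinset (fun j : Fin k => TT (p j) K)), 0 < y →
        (∑ j : Fin k, Polynomial.monomial (j:ℕ) (∑ i, fq (x.1 j i)) : Polynomial ℝ) ≠ 0 →
      Tendsto (fun N : ℕ => (∑ n ∈ Finset.range N, e (pt a b n y *
        (∑ j : Fin k, Polynomial.monomial (j:ℕ) (∑ i, fq (x.1 j i)) : Polynomial ℝ).eval (exp y))) / (N:ℂ)) atTop (𝓝 0) := by
      rw [ae_all_iff]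
      intro x
      by_cases hx : (∑ j : Fin k, Polynomial.monomial (j:ℕ) (∑ i, fq (x.1 j i)) : Polynomial ℝ) ≠ 0
      · filter_upwards [weyl_ae h hx] with y hy h0 _
        exact hy h0
      · exact Eventually.of_forall fun y _ h0 => absurd h0 hx
    filter_upwards [h1] with y hy hy0 x hx hP
    exact hy ⟨x, hx⟩ hy0 hP
  filter_upwards [key] with y hy hy0 k p K
  have hexp : ∀ n : ℕ, ∏ j : Fin k, ((U af φ (pj a b n y j) K : ℝ) : ℂ) ^ (p j) =
      ∑ x ∈ Fintype.piFinset (fun j : Fin k => TT (p j) K), (∏ j, ∏ i, cf af φ (x j i)) *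
        e (pt a b n y * (∑ j : Fin k, Polynomial.monomial (j:ℕ) (∑ i, fq (x j i)) : Polynomial ℝ).eval (exp y)) := by
    intro n
    simp only [U_pow]
    rw [Finset.prod_univ_sum]
    apply Finset.sum_congr rfl
    intro x _
    rw [Finset.prod_mul_distrib, ← e_sum]
    congr 2
    rw [Polynomial.eval_finsetSum, Finset.mul_sum]
    apply Finset.sum_congr rfl
    intro j _
    rw [Polynomial.eval_monomial, ← Real.exp_nat_mul]
    unfold pj
    ring
  have hlim : ∀ x ∈ Fintype.piFinset (fun j : Fin k => TT (p j) K),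
      Tendsto (fun N : ℕ => (∑ n ∈ Finset.range N, e (pt a b n y *
        (∑ j : Fin k, Polynomial.monomial (j:ℕ) (∑ i, fq (x j i)) : Polynomial ℝ).eval (exp y))) / (N:ℂ)) atTop
        (𝓝 (∏ j, if ∑ i, fq (x j i) = 0 then (1:ℂ) else 0)) := by
    intro x hx
    by_cases hP : (∑ j : Fin k, Polynomial.monomial (j:ℕ) (∑ i, fq (x j i)) : Polynomial ℝ) = 0
    · have hz : ∀ j : Fin k, ∑ i, fq (x j i) = 0 := by
        intro j
        have h2 := congrArg (fun Q => Polynomial.coeff Q (j:ℕ)) hP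
        simp only [Polynomial.finsetSum_coeff, Polynomial.coeff_monomial, Polynomial.coeff_zero] at h2
        rw [Finset.sum_eq_single j] at h2
        · simpa using h2
        · intro i _ hij
          rw [if_neg]
          intro h3
          exact hij (Fin.ext h3)
        · intro h3
          exact absurd (Finset.mem_univ j) h3
      have h3 : (∏ j, if ∑ i, fq (x j i) = 0 then (1:ℂ) else 0) = 1 := by
        apply Finset.prod_eq_one
        intro j _
        rw [if_pos (hz j)]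
      rw [h3, hP]
      refine tendsto_const_nhds.congr' ?_
      filter_upwards [eventually_ge_atTop 1] with N hN
      have hN0 : (N:ℂ) ≠ 0 := by
        have : N ≠ 0 := by omega
        exact_mod_cast this
      simp only [Polynomial.eval_zero, mul_zero, e_zero, Finset.sum_const, Finset.card_range, nsmul_eq_mul, mul_one]
      rw [div_self hN0]
    · have h3 : (∏ j, if ∑ i, fq (x j i) = 0 then (1:ℂ) else 0) = 0 := by
        by_contra hne
        apply hP
        apply Finset.sum_eq_zero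
        intro j _
        have h4 := Finset.prod_ne_zero_iff.mp hne j (Finset.mem_univ j)
        by_cases h5 : ∑ i, fq (x j i) = 0
        · rw [h5, Polynomial.monomial_zero_right]
        · rw [if_neg h5] at h4
          exact absurd rfl h4
      rw [h3]
      exact hy k p K hy0 x hx hP
  have h6 : Tendsto (fun N : ℕ => ∑ x ∈ Fintype.piFinset (fun j : Fin k => TT (p j) K), (∏ j, ∏ i, cf af φ (x j i)) *
      ((∑ n ∈ Finset.range N, e (pt a b n y *
        (∑ j : Fin k, Polynomial.monomial (j:ℕ) (∑ i, fq (x j i)) : Polynomial ℝ).eval (exp y))) / (N:ℂ))) atTop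
      (𝓝 (∑ x ∈ Fintype.piFinset (fun j : Fin k => TT (p j) K), (∏ j, ∏ i, cf af φ (x j i)) *
        (∏ j, if ∑ i, fq (x j i) = 0 then (1:ℂ) else 0))) :=
    tendsto_finsetSum _ fun x hx => (hlim x hx).const_mul _
  have h7 : ∑ x ∈ Fintype.piFinset (fun j : Fin k => TT (p j) K), (∏ j, ∏ i, cf af φ (x j i)) *
        (∏ j, if ∑ i, fq (x j i) = 0 then (1:ℂ) else 0) = ∏ j, ZZ af φ (p j) K := by
    simp only [← Finset.prod_mul_distrib]
    rw [← Finset.prod_univ_sum (fun j : Fin k => TT (p j) K)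
      (fun j (η : Fin (p j) → ℕ × Bool) => (∏ i, cf af φ (η i)) * (if ∑ i, fq (η i) = 0 then (1:ℂ) else 0))]
    apply Finset.prod_congr rfl
    intro j _
    unfold ZZ
    rw [Finset.sum_filter]
    apply Finset.sum_congr rfl
    intro η _
    split_ifs <;> simp
  rw [h7] at h6
  refine h6.congr fun N => ?_
  simp only [hexp]
  rw [Finset.sum_comm, Finset.sum_div]
  apply Finset.sum_congr rfl
  intro x _
  rw [← Finset.mul_sum, mul_div_assoc]

/-- interchange of limits -/
lemma lim3 {F : ℕ → ℂ} {G : ℕ → ℕ → ℂ} {g : ℕ → ℂ} {l : ℂ} (h1 : ∀ L, Tendsto (G L) atTop (𝓝 (g L)))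
    (h2 : Tendsto g atTop (𝓝 l)) (h3 : ∀ ε : ℝ, 0 < ε → ∀ᶠ L in atTop, ∀ᶠ N in atTop, ‖F N - G L N‖ ≤ ε) :
    Tendsto F atTop (𝓝 l) := by
  rw [Metric.tendsto_nhds]
  intro ε hε
  have hε4 : 0 < ε / 4 := by positivity
  obtain ⟨L, hL1, hL2⟩ := ((h3 (ε / 4) hε4).and ((Metric.tendsto_nhds.mp h2) (ε / 4) hε4)).exists
  filter_upwards [hL1, (Metric.tendsto_nhds.mp (h1 L)) (ε / 4) hε4] with N hN1 hN2
  rw [dist_eq_norm] at hL2 hN2 ⊢
  have e1 : F N - l = (F N - G L N) + (G L N - g L) + (g L - l) := by ring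
  rw [e1]
  refine lt_of_le_of_lt (norm_add₃_le) ?_
  linarith

lemma prod_diff {ι : Type*} (s : Finset ι) {x y : ι → ℂ} (hx : ∀ i, ‖x i‖ ≤ 1) (hy : ∀ i, ‖y i‖ ≤ 2) :
    ‖∏ i ∈ s, x i - ∏ i ∈ s, y i‖ ≤ 2 ^ s.card * ∑ i ∈ s, ‖x i - y i‖ := by
  classical
  induction s using Finset.induction_on with
  | empty => simp
  | insert i s hi ih =>
    rw [Finset.prod_insert hi, Finset.prod_insert hi, Finset.sum_insert hi, Finset.card_insert_of_notMem hi]
    have h1 : x i * ∏ j ∈ s, x j - y i * ∏ j ∈ s, y j =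
        (x i - y i) * ∏ j ∈ s, x j + y i * (∏ j ∈ s, x j - ∏ j ∈ s, y j) := by ring
    have h2 : ‖∏ j ∈ s, x j‖ ≤ 1 := by
      rw [norm_prod]
      exact Finset.prod_le_one (fun _ _ => norm_nonneg _) fun j _ => hx j
    rw [h1]
    refine (norm_add_le _ _).trans ?_
    rw [norm_mul, norm_mul]
    have h3 : ‖x i - y i‖ * ‖∏ j ∈ s, x j‖ ≤ ‖x i - y i‖ := mul_le_of_le_one_right (norm_nonneg _) h2
    have h4 : ‖y i‖ * ‖∏ j ∈ s, x j - ∏ j ∈ s, y j‖ ≤ 2 * (2 ^ s.card * ∑ j ∈ s, ‖x j - y j‖) :=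
      mul_le_mul (hy i) ih (norm_nonneg _) (by norm_num)
    have h5 : (1:ℝ) ≤ 2 ^ (s.card + 1) := one_le_pow₀ (by norm_num)
    have h6 := norm_nonneg (x i - y i)
    rw [pow_succ] at h5 ⊢
    nlinarith

/-- the limit of the characteristic functions of the model polynomial -/
noncomputable def mK (af : ℕ → ℝ) (φ : ℝ) (K : ℕ) (t : ℝ) : ℂ :=
  ∑' r : ℕ, (Complex.I * t) ^ r / (r.factorial : ℂ) * ZZ af φ r K

lemma ZZ_le (af : ℕ → ℝ) (φ : ℝ) (r K : ℕ) : ‖ZZ af φ r K‖ ≤ AA af K ^ r := by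
  classical
  unfold ZZ
  exact (norm_sum_le _ _).trans (sum_norm_filter af φ r K _)

lemma mK_lim (af : ℕ → ℝ) (φ : ℝ) (K : ℕ) (t : ℝ) :
    Tendsto (fun L : ℕ => ∑ r ∈ Finset.range L, (Complex.I * t) ^ r / (r.factorial : ℂ) * ZZ af φ r K) atTop
      (𝓝 (mK af φ K t)) := by
  have hs : Summable fun r : ℕ => (Complex.I * t) ^ r / (r.factorial : ℂ) * ZZ af φ r K := by
    refine Summable.of_norm_bounded (Real.summable_pow_div_factorial (|t| * AA af K)) fun r => ?_
    rw [norm_mul, norm_div, norm_pow, norm_mul, Complex.norm_I, one_mul, Complex.norm_real, Real.norm_eq_abs,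
      Complex.norm_natCast, mul_pow]
    have h1 := ZZ_le af φ r K
    have h2 : 0 ≤ |t| ^ r / (r.factorial : ℝ) := by positivity
    calc |t| ^ r / (r.factorial : ℝ) * ‖ZZ af φ r K‖ ≤ |t| ^ r / (r.factorial : ℝ) * AA af K ^ r :=
          mul_le_mul_of_nonneg_left h1 h2
      _ = _ := by ring
  exact hs.hasSum.tendsto_sum_nat

lemma abs_U_le' (af : ℕ → ℝ) (φ R : ℝ) (K : ℕ) : |U af φ R K| ≤ AA af K :=
  Pool.Agent.H425R3.JL.abs_U_le af φ R K

/-- characteristic functions of the model polynomials -/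
theorem charK {k : ℕ} {q : ℕ → Fin k → ℝ} {K : ℕ} (hy : ∀ (p : Fin k → ℕ),
    Tendsto (fun N : ℕ => (∑ n ∈ Finset.range N, ∏ j : Fin k, ((U af φ (q n j) K : ℝ) : ℂ) ^ (p j)) / (N:ℂ)) atTop
      (𝓝 (∏ j, ZZ af φ (p j) K))) (t : Fin k → ℝ) :
    Tendsto (fun N : ℕ => (∑ n ∈ Finset.range N, ∏ j, Complex.exp (Complex.I * (t j * U af φ (q n j) K : ℝ))) / (N:ℂ)) atTop
      (𝓝 (∏ j, mK af φ K (t j))) := by
  classical
  refine lim3 (G := fun L N => (∑ n ∈ Finset.range N, ∏ j, ∑ r ∈ Finset.range L,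
    (Complex.I * (t j * U af φ (q n j) K : ℝ)) ^ r / (r.factorial : ℂ)) / (N:ℂ))
    (g := fun L => ∏ j, ∑ r ∈ Finset.range L, (Complex.I * t j) ^ r / (r.factorial : ℂ) * ZZ af φ r K) ?_ ?_ ?_
  · intro L
    have h1 : ∀ n : ℕ, ∏ j, ∑ r ∈ Finset.range L, (Complex.I * (t j * U af φ (q n j) K : ℝ)) ^ r / (r.factorial : ℂ) =
        ∑ x ∈ Fintype.piFinset (fun _ : Fin k => Finset.range L),
          (∏ j, (Complex.I * t j) ^ (x j) / ((x j).factorial : ℂ)) * ∏ j : Fin k, ((U af φ (q n j) K : ℝ) : ℂ) ^ (x j) := by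
      intro n
      rw [Finset.prod_univ_sum]
      apply Finset.sum_congr rfl
      intro x _
      rw [← Finset.prod_mul_distrib]
      apply Finset.prod_congr rfl
      intro j _
      push_cast
      rw [← mul_assoc, mul_pow]
      ring
    have h2 : ∏ j, ∑ r ∈ Finset.range L, (Complex.I * t j) ^ r / (r.factorial : ℂ) * ZZ af φ r K =
        ∑ x ∈ Fintype.piFinset (fun _ : Fin k => Finset.range L),
          (∏ j, (Complex.I * t j) ^ (x j) / ((x j).factorial : ℂ)) * ∏ j, ZZ af φ (x j) K := by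
      rw [Finset.prod_univ_sum]
      apply Finset.sum_congr rfl
      intro x _
      rw [← Finset.prod_mul_distrib]
    simp only [h1, h2]
    have h3 : Tendsto (fun N : ℕ => ∑ x ∈ Fintype.piFinset (fun _ : Fin k => Finset.range L),
        (∏ j, (Complex.I * t j) ^ (x j) / ((x j).factorial : ℂ)) *
        ((∑ n ∈ Finset.range N, ∏ j : Fin k, ((U af φ (q n j) K : ℝ) : ℂ) ^ (x j)) / (N:ℂ))) atTop
        (𝓝 (∑ x ∈ Fintype.piFinset (fun _ : Fin k => Finset.range L),
          (∏ j, (Complex.I * t j) ^ (x j) / ((x j).factorial : ℂ)) * ∏ j, ZZ af φ (x j) K)) :=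
      tendsto_finsetSum _ fun x _ => (hy x).const_mul _
    refine h3.congr fun N => ?_
    rw [Finset.sum_comm, Finset.sum_div]
    apply Finset.sum_congr rfl
    intro x _
    rw [← Finset.mul_sum, mul_div_assoc]
  · exact tendsto_finsetProd _ fun j _ => mK_lim af φ K (t j)
  · intro ε hε
    -- uniform approximation of the exponential
    set A := AA af K with hA
    have hA0 : 0 ≤ A := AA_nonneg _ _
    set Tm := ∑ j, |t j| with hTm
    have hTj : ∀ j, |t j| ≤ Tm := fun j => Finset.single_le_sum (f := fun j => |t j|) (fun _ _ => abs_nonneg _) (Finset.mem_univ j)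
    have hTm0 : 0 ≤ Tm := Finset.sum_nonneg fun _ _ => abs_nonneg _
    set B := Tm * A with hB
    have hB0 : 0 ≤ B := by positivity
    have h1 : Tendsto (fun L : ℕ => B ^ L / (L.factorial : ℝ) * 2) atTop (𝓝 0) := by
      have := (FloorSemiring.tendsto_pow_div_factorial_atTop B).mul_const 2
      simpa using this
    set η := min 1 (ε / (2 ^ k * (k + 1))) with hη
    have hη0 : 0 < η := by positivity
    obtain ⟨L1, hL1⟩ := exists_nat_ge (2 * B)
    filter_upwards [h1.eventually (gt_mem_nhds hη0), eventually_ge_atTop L1] with L hL hLL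
    have hbd : ∀ (n : ℕ) (j : Fin k), ‖Complex.exp (Complex.I * (t j * U af φ (q n j) K : ℝ)) -
        ∑ r ∈ Finset.range L, (Complex.I * (t j * U af φ (q n j) K : ℝ)) ^ r / (r.factorial : ℂ)‖ ≤ η := by
      intro n j
      have h2 : ‖Complex.I * (t j * U af φ (q n j) K : ℝ)‖ ≤ B := by
        rw [norm_mul, Complex.norm_I, one_mul, Complex.norm_real, Real.norm_eq_abs, abs_mul]
        exact mul_le_mul (hTj j) (abs_U_le' af φ _ K) (abs_nonneg _) hTm0
      have h3 : ‖Complex.I * (t j * U af φ (q n j) K : ℝ)‖ / (L.succ : ℝ) ≤ 1 / 2 := by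
        rw [div_le_iff₀ (by positivity)]
        have : (L1:ℝ) ≤ L := by exact_mod_cast hLL
        have e9 : ((L.succ : ℕ) : ℝ) = L + 1 := by push_cast; ring
        rw [e9]
        linarith
      refine (Complex.exp_bound' h3).trans ?_
      have h4 : ‖Complex.I * (t j * U af φ (q n j) K : ℝ)‖ ^ L / (L.factorial : ℝ) * 2 ≤ B ^ L / (L.factorial : ℝ) * 2 := by
        gcongr
      linarith
    refine Eventually.of_forall fun N => ?_
    rw [← sub_div, ← Finset.sum_sub_distrib]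
    rcases Nat.eq_zero_or_pos N with rfl | hN
    · simp [hε.le]
    have hN0 : (0:ℝ) < N := by exact_mod_cast hN
    rw [norm_div, Complex.norm_natCast, div_le_iff₀ hN0]
    have h5 : ∀ n : ℕ, ‖∏ j, Complex.exp (Complex.I * (t j * U af φ (q n j) K : ℝ)) -
        ∏ j, ∑ r ∈ Finset.range L, (Complex.I * (t j * U af φ (q n j) K : ℝ)) ^ r / (r.factorial : ℂ)‖ ≤ ε := by
      intro n
      have hone : ∀ j : Fin k, ‖Complex.exp (Complex.I * (t j * U af φ (q n j) K : ℝ))‖ ≤ 1 := by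
        intro j
        rw [mul_comm, Complex.norm_exp_ofReal_mul_I]
      have h6 := prod_diff (Finset.univ : Finset (Fin k)) hone (y := fun j => ∑ r ∈ Finset.range L,
        (Complex.I * (t j * U af φ (q n j) K : ℝ)) ^ r / (r.factorial : ℂ)) (fun j => by
          have h7 := hbd n j
          have h8 := hone j
          have h9 := norm_sub_norm_le (∑ r ∈ Finset.range L, (Complex.I * (t j * U af φ (q n j) K : ℝ)) ^ r / (r.factorial : ℂ))
            (Complex.exp (Complex.I * (t j * U af φ (q n j) K : ℝ)))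
          rw [norm_sub_rev] at h9
          have : η ≤ 1 := min_le_left _ _
          linarith)
      refine h6.trans ?_
      rw [Finset.card_univ, Fintype.card_fin]
      calc 2 ^ k * ∑ j : Fin k, ‖Complex.exp (Complex.I * (t j * U af φ (q n j) K : ℝ)) -
            ∑ r ∈ Finset.range L, (Complex.I * (t j * U af φ (q n j) K : ℝ)) ^ r / (r.factorial : ℂ)‖
          ≤ 2 ^ k * ∑ _j : Fin k, η := by
            apply mul_le_mul_of_nonneg_left _ (by positivity)
            exact Finset.sum_le_sum fun j _ => hbd n j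
        _ = 2 ^ k * k * η := by
            rw [Finset.sum_const, Finset.card_univ, Fintype.card_fin, nsmul_eq_mul]; ring
        _ ≤ 2 ^ k * (k + 1) * (ε / (2 ^ k * (k + 1))) := by
            apply mul_le_mul _ (min_le_right _ _) hη0.le (by positivity)
            apply mul_le_mul_of_nonneg_left _ (by positivity)
            linarith
        _ = ε := by field_simp
    calc ‖∑ n ∈ Finset.range N, (∏ j, Complex.exp (Complex.I * (t j * U af φ (q n j) K : ℝ)) -
        ∏ j, ∑ r ∈ Finset.range L, (Complex.I * (t j * U af φ (q n j) K : ℝ)) ^ r / (r.factorial : ℂ))‖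
        ≤ ∑ _n ∈ Finset.range N, ε := (norm_sum_le _ _).trans (Finset.sum_le_sum fun n _ => h5 n)
      _ = ε * N := by rw [Finset.sum_const, Finset.card_range, nsmul_eq_mul]; ring

end Pool.Agent.R306.GP
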