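import Mathlib

/-!
From characteristic functions and moments of the empirical measures to the convergence of the averages of all
continuous functions of polynomial growth.
-/

set_option autoImplicit false

open MeasureTheory Filter Topology Set
open scoped ENNReal RealInnerProductSpace

namespace Pool.Agent.R306.GP

/-- the empirical measure of `X 0, …, X N` -/
noncomputable def em {Ω : Type*} [MeasurableSpace Ω] (X : ℕ → Ω) (N : ℕ) : Measure Ω :=
  ((N + 1 : ℕ) : ℝ≥0∞)⁻¹ • ∑ n ∈ Finset.range (N + 1), Measure.dirac (X n)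

instance {Ω : Type*} [MeasurableSpace Ω] (X : ℕ → Ω) (N : ℕ) : IsProbabilityMeasure (em X N) := by
  constructor
  unfold em
  rw [Measure.smul_apply, Measure.finsetSum_apply]
  simp only [measure_univ, Finset.sum_const, Finset.card_range, nsmul_eq_mul, mul_one, smul_eq_mul]
  exact ENNReal.inv_mul_cancel (by simp) (by simp)

lemma em_integral {Ω : Type*} [MeasurableSpace Ω] [MeasurableSingletonClass Ω] {F : Type*} [NormedAddCommGroup F]
    [NormedSpace ℝ F] [CompleteSpace F]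
    (X : ℕ → Ω) (N : ℕ) (g : Ω → F) : ∫ x, g x ∂(em X N) = ((N + 1 : ℕ) : ℝ)⁻¹ • ∑ n ∈ Finset.range (N + 1), g (X n) := by
  unfold em
  rw [integral_smul_measure, integral_finsetSum_measure]
  · simp only [integral_dirac]
    congr 1
    rw [ENNReal.toReal_inv, ENNReal.toReal_natCast]
  · intro n _
    exact integrable_dirac (by simp)

/-- the law from the characteristic functions -/
theorem law_of_char {k : ℕ} {X : ℕ → Fin k → ℝ} {μ : ProbabilityMeasure ℝ}
    (h : ∀ t : Fin k → ℝ, Tendsto (fun N : ℕ => (∑ n ∈ Finset.range N,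
      ∏ j, Complex.exp (Complex.I * (t j * X n j : ℝ))) / (N:ℂ)) atTop (𝓝 (∏ j, charFun (μ : Measure ℝ) (t j))))
    {g : (Fin k → ℝ) → ℝ} (hg : Continuous g) (hb : ∃ B, ∀ x, |g x| ≤ B) :
    Tendsto (fun N : ℕ => (∑ n ∈ Finset.range N, g (X n)) / (N:ℝ)) atTop
      (𝓝 (∫ x, g x ∂(Measure.pi fun _ : Fin k => (μ : Measure ℝ)))) := by
  obtain ⟨B, hB⟩ := hb
  set Y : ℕ → EuclideanSpace ℝ (Fin k) := fun n => WithLp.toLp 2 (X n) with hY
  set ν : Measure (EuclideanSpace ℝ (Fin k)) := (Measure.pi fun _ : Fin k => (μ : Measure ℝ)).map (WithLp.toLp 2) with hν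
  have hmeas : Measurable (WithLp.toLp 2 : (Fin k → ℝ) → EuclideanSpace ℝ (Fin k)) :=
    (MeasurableEquiv.toLp 2 (Fin k → ℝ)).measurable
  haveI : IsProbabilityMeasure ν := Measure.isProbabilityMeasure_map hmeas.aemeasurable
  set PN : ℕ → ProbabilityMeasure (EuclideanSpace ℝ (Fin k)) := fun N => ⟨em Y N, inferInstance⟩ with hPN
  set P0 : ProbabilityMeasure (EuclideanSpace ℝ (Fin k)) := ⟨ν, inferInstance⟩ with hP0
  have hconv : Tendsto PN atTop (𝓝 P0) := by
    apply ProbabilityMeasure.tendsto_of_tendsto_charFun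
    intro t
    have h1 := (tendsto_add_atTop_iff_nat 1).mpr (h fun j => t j)
    have h2 : charFun ν t = ∏ j, charFun (μ : Measure ℝ) (t j) := by
      rw [hν]; exact charFun_pi t
    change Tendsto (fun N => charFun (em Y N) t) atTop (𝓝 (charFun ν t))
    rw [h2]
    refine h1.congr fun N => ?_
    rw [charFun_apply, em_integral]
    rw [Complex.real_smul, div_eq_inv_mul]
    congr 1
    · push_cast; rfl
    · apply Finset.sum_congr rfl
      intro n _
      rw [← Complex.exp_sum]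
      congr 1
      rw [PiLp.inner_apply]
      push_cast
      rw [Finset.sum_mul]
      apply Finset.sum_congr rfl
      intro j _
      simp only [hY]
      simp only [RCLike.inner_apply, conj_trivial]
      push_cast
      ring
  rw [ProbabilityMeasure.tendsto_iff_forall_integral_tendsto] at hconv
  have hgc : Continuous fun x : EuclideanSpace ℝ (Fin k) => g (WithLp.ofLp x) :=
    hg.comp (PiLp.continuous_ofLp 2 _)
  have h3 := hconv (BoundedContinuousFunction.ofNormedAddCommGroup (fun x => g (WithLp.ofLp x)) hgc B (fun x => hB _))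
  change Tendsto (fun N => ∫ x, g (WithLp.ofLp x) ∂(em Y N)) atTop (𝓝 (∫ x, g (WithLp.ofLp x) ∂ν)) at h3
  have h4 : ∫ x, g (WithLp.ofLp x) ∂ν = ∫ x, g x ∂(Measure.pi fun _ : Fin k => (μ : Measure ℝ)) := by
    rw [hν, integral_map hmeas.aemeasurable hgc.aestronglyMeasurable]
  rw [h4] at h3
  refine (tendsto_add_atTop_iff_nat 1).mp (h3.congr fun N => ?_)
  rw [em_integral, smul_eq_mul, div_eq_inv_mul]

/-- cut-off -/
noncomputable def cut {k : ℕ} (T : ℝ) (x : Fin k → ℝ) : ℝ := max 0 (min 1 (T + 1 - ‖x‖))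

lemma cut_cont {k : ℕ} (T : ℝ) : Continuous (cut T : (Fin k → ℝ) → ℝ) := by unfold cut; fun_prop

lemma cut_nonneg {k : ℕ} (T : ℝ) (x : Fin k → ℝ) : 0 ≤ cut T x := le_max_left _ _

lemma cut_le_one {k : ℕ} (T : ℝ) (x : Fin k → ℝ) : cut T x ≤ 1 := max_le zero_le_one (min_le_left _ _)

lemma cut_one {k : ℕ} {T : ℝ} {x : Fin k → ℝ} (h : ‖x‖ ≤ T) : cut T x = 1 := by
  unfold cut; rw [min_eq_left (by linarith), max_eq_right zero_le_one]

lemma cut_zero {k : ℕ} {T : ℝ} {x : Fin k → ℝ} (h : T + 1 ≤ ‖x‖) : cut T x = 0 := by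
  unfold cut
  rw [max_eq_left]
  exact (min_le_right _ _).trans (by linarith)

/-- functions of polynomial growth -/
theorem poly_conv {k : ℕ} {X : ℕ → Fin k → ℝ} {ν : Measure (Fin k → ℝ)} [IsProbabilityMeasure ν]
    (hlaw : ∀ g : (Fin k → ℝ) → ℝ, Continuous g → (∃ B, ∀ x, |g x| ≤ B) →
      Tendsto (fun N : ℕ => (∑ n ∈ Finset.range N, g (X n)) / (N:ℝ)) atTop (𝓝 (∫ x, g x ∂ν)))
    (hmom : ∀ m : ℕ, ∃ C : ℝ, ∀ᶠ N : ℕ in atTop, ∑ n ∈ Finset.range N, ‖X n‖ ^ m ≤ C * N)
    {f : (Fin k → ℝ) → ℝ} (hf : Continuous f) (hfg : ∃ (C : ℝ) (p : ℕ), ∀ x, |f x| ≤ C * (1 + ‖x‖ ^ p)) :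
    Integrable f ν ∧ Tendsto (fun N : ℕ => (∑ n ∈ Finset.range N, f (X n)) / (N:ℝ)) atTop (𝓝 (∫ x, f x ∂ν)) := by
  obtain ⟨C, p, hC⟩ := hfg
  have hC0 : 0 ≤ C := by
    have h1 := hC 0
    have h2 := abs_nonneg (f 0)
    have h3 : (0:ℝ) < 1 + ‖(0 : Fin k → ℝ)‖ ^ p := by positivity
    by_contra hneg
    push Not at hneg
    nlinarith
  -- moments of the limit law
  have hint : ∀ m : ℕ, ∃ D : ℝ, 0 ≤ D ∧ Integrable (fun x : Fin k → ℝ => ‖x‖ ^ m) ν ∧ ∫ x, ‖x‖ ^ m ∂ν ≤ D ∧
      ∀ᶠ N : ℕ in atTop, ∑ n ∈ Finset.range N, ‖X n‖ ^ m ≤ D * N := by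
    intro m
    obtain ⟨D, hD⟩ := hmom m
    have hD' : ∀ᶠ N : ℕ in atTop, ∑ n ∈ Finset.range N, ‖X n‖ ^ m ≤ |D| * N := by
      filter_upwards [hD] with N hN
      exact hN.trans (mul_le_mul_of_nonneg_right (le_abs_self D) (Nat.cast_nonneg N))
    have hB : ∀ B : ℕ, ∫ x, min (‖x‖ ^ m) (B:ℝ) ∂ν ≤ |D| := by
      intro B
      have h1 := hlaw (fun x => min (‖x‖ ^ m) (B:ℝ)) (by fun_prop) ⟨B, fun x => by
        rw [abs_of_nonneg (le_min (by positivity) (Nat.cast_nonneg B))]; exact min_le_right _ _⟩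
      refine le_of_tendsto h1 ?_
      filter_upwards [hD', eventually_ge_atTop 1] with N hN hN1
      have hN0 : (0:ℝ) < N := by exact_mod_cast hN1
      rw [div_le_iff₀ hN0]
      exact (Finset.sum_le_sum fun n _ => min_le_left _ _).trans hN
    have hli : ∫⁻ x, ENNReal.ofReal (‖x‖ ^ m) ∂ν ≤ ENNReal.ofReal |D| := by
      have h2 : ∀ x : Fin k → ℝ, Tendsto (fun B : ℕ => ENNReal.ofReal (min (‖x‖ ^ m) (B:ℝ))) atTop (𝓝 (ENNReal.ofReal (‖x‖ ^ m))) := by
        intro x
        obtain ⟨B0, hB0⟩ := exists_nat_ge (‖x‖ ^ m)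
        refine tendsto_const_nhds.congr' ?_
        filter_upwards [eventually_ge_atTop B0] with B hBB
        rw [min_eq_left (hB0.trans (by exact_mod_cast hBB))]
      have h3 : ∫⁻ x, ENNReal.ofReal (‖x‖ ^ m) ∂ν = ∫⁻ x, liminf (fun B : ℕ => ENNReal.ofReal (min (‖x‖ ^ m) (B:ℝ))) atTop ∂ν :=
        lintegral_congr fun x => ((h2 x).liminf_eq).symm
      rw [h3]
      refine (lintegral_liminf_le fun B => ?_).trans ?_
      · fun_prop
      · refine liminf_le_of_le (by isBoundedDefault) ?_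
        intro b hb
        obtain ⟨B, hB'⟩ := hb.exists
        refine hB'.trans ?_
        rw [← ofReal_integral_eq_lintegral_ofReal]
        · exact ENNReal.ofReal_le_ofReal (hB B)
        · have hc : Continuous fun x : Fin k → ℝ => min (‖x‖ ^ m) (B:ℝ) := by fun_prop
          refine Integrable.of_bound hc.aestronglyMeasurable (B:ℝ) (Eventually.of_forall fun x => ?_)
          rw [Real.norm_eq_abs, abs_of_nonneg (le_min (by positivity) (Nat.cast_nonneg B))]
          exact min_le_right _ _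
        · exact Eventually.of_forall fun x => le_min (by positivity) (Nat.cast_nonneg B)
    have hi : Integrable (fun x : Fin k → ℝ => ‖x‖ ^ m) ν := by
      refine ⟨(by fun_prop : Continuous fun x : Fin k → ℝ => ‖x‖ ^ m).aestronglyMeasurable, ?_⟩
      rw [hasFiniteIntegral_iff_ofReal (Eventually.of_forall fun x => by positivity)]
      exact lt_of_le_of_lt hli ENNReal.ofReal_lt_top
    refine ⟨|D|, abs_nonneg _, hi, ?_, hD'⟩
    have h4 := ofReal_integral_eq_lintegral_ofReal hi (Eventually.of_forall fun x => by positivity)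
    rw [← h4] at hli
    exact (ENNReal.ofReal_le_ofReal_iff (abs_nonneg _)).mp hli
  have hfi : Integrable f ν := by
    obtain ⟨D, -, hi, -, -⟩ := hint p
    refine (((integrable_const (1:ℝ)).add hi).const_mul C).mono' hf.aestronglyMeasurable (Eventually.of_forall fun x => ?_)
    rw [Real.norm_eq_abs]
    exact hC x
  refine ⟨hfi, ?_⟩
  obtain ⟨D, hD0, hDi, hDint, hDN⟩ := hint (p + 1)
  -- the tail
  have htail : ∀ T : ℝ, 1 ≤ T → ∀ x : Fin k → ℝ, |f x - f x * cut T x| ≤ 2 * C / T * ‖x‖ ^ (p + 1) := by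
    intro T hT x
    have e1 : f x - f x * cut T x = f x * (1 - cut T x) := by ring
    rw [e1, abs_mul, abs_of_nonneg (by linarith [cut_le_one T x] : 0 ≤ 1 - cut T x)]
    rcases le_total ‖x‖ T with hx | hx
    · rw [cut_one hx, sub_self, mul_zero]
      positivity
    · have h1 : 1 ≤ ‖x‖ := hT.trans hx
      have h2 : 1 - cut T x ≤ 1 := by linarith [cut_nonneg T x]
      have h3 : (1:ℝ) ≤ ‖x‖ ^ p := one_le_pow₀ h1
      have h4 : |f x| ≤ 2 * C * ‖x‖ ^ p := by
        refine (hC x).trans ?_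
        nlinarith
      have hT0 : 0 < T := by linarith
      calc |f x| * (1 - cut T x) ≤ |f x| * 1 := mul_le_mul_of_nonneg_left h2 (abs_nonneg _)
        _ ≤ 2 * C * ‖x‖ ^ p := by rw [mul_one]; exact h4
        _ = 2 * C / T * (‖x‖ ^ p * T) := by field_simp
        _ ≤ 2 * C / T * (‖x‖ ^ p * ‖x‖) := by gcongr
        _ = _ := by rw [pow_succ]
  rw [Metric.tendsto_nhds]
  intro ε hε
  set T : ℝ := max 1 (8 * C * D / ε + 1) with hT
  have hT1 : 1 ≤ T := le_max_left _ _
  have hT0 : 0 < T := by linarith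
  have hsm : 2 * C / T * D < ε / 3 := by
    have h1 : 8 * C * D / ε < T := by
      have : 8 * C * D / ε + 1 ≤ T := le_max_right _ _
      linarith
    rw [div_lt_iff₀ hε] at h1
    rw [div_mul_eq_mul_div, div_lt_iff₀ hT0]
    nlinarith [mul_nonneg hC0 hD0]
  have hbd : ∃ B, ∀ x : Fin k → ℝ, |f x * cut T x| ≤ B := by
    refine ⟨C * (1 + (T + 1) ^ p), fun x => ?_⟩
    rw [abs_mul, abs_of_nonneg (cut_nonneg T x)]
    rcases le_total ‖x‖ (T + 1) with hx | hx
    · calc |f x| * cut T x ≤ |f x| * 1 := mul_le_mul_of_nonneg_left (cut_le_one T x) (abs_nonneg _)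
        _ ≤ C * (1 + ‖x‖ ^ p) := by rw [mul_one]; exact hC x
        _ ≤ _ := by gcongr
    · rw [cut_zero hx, mul_zero]
      positivity
  have h5 := hlaw (fun x => f x * cut T x) (hf.mul (cut_cont T)) hbd
  filter_upwards [(Metric.tendsto_nhds.mp h5) (ε / 3) (by positivity), hDN, eventually_ge_atTop 1] with N h6 h7 hN1
  have hN0 : (0:ℝ) < N := by exact_mod_cast hN1
  rw [Real.dist_eq] at h6 ⊢
  have h8 : |(∑ n ∈ Finset.range N, f (X n)) / (N:ℝ) - (∑ n ∈ Finset.range N, f (X n) * cut T (X n)) / (N:ℝ)| ≤ 2 * C / T * D := by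
    rw [← sub_div, ← Finset.sum_sub_distrib, abs_div, abs_of_pos hN0, div_le_iff₀ hN0]
    calc |∑ n ∈ Finset.range N, (f (X n) - f (X n) * cut T (X n))|
        ≤ ∑ n ∈ Finset.range N, |f (X n) - f (X n) * cut T (X n)| := Finset.abs_sum_le_sum_abs _ _
      _ ≤ ∑ n ∈ Finset.range N, 2 * C / T * ‖X n‖ ^ (p + 1) := Finset.sum_le_sum fun n _ => htail T hT1 _
      _ = 2 * C / T * ∑ n ∈ Finset.range N, ‖X n‖ ^ (p + 1) := by rw [Finset.mul_sum]
      _ ≤ 2 * C / T * (D * N) := by gcongr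
      _ = _ := by ring
  have hfc : Integrable (fun x => f x * cut T x) ν := by
    refine hfi.mono (hf.mul (cut_cont T)).aestronglyMeasurable (Eventually.of_forall fun x => ?_)
    rw [norm_mul, Real.norm_eq_abs (cut T x), abs_of_nonneg (cut_nonneg T x)]
    exact mul_le_of_le_one_right (norm_nonneg _) (cut_le_one T x)
  have h9 : |∫ x, f x * cut T x ∂ν - ∫ x, f x ∂ν| ≤ 2 * C / T * D := by
    rw [← integral_sub hfc hfi]
    calc |∫ x, (f x * cut T x - f x) ∂ν| ≤ ∫ x, |f x * cut T x - f x| ∂ν := abs_integral_le_integral_abs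
      _ ≤ ∫ x, 2 * C / T * ‖x‖ ^ (p + 1) ∂ν := by
          apply integral_mono (hfc.sub hfi).abs (hDi.const_mul _)
          intro x
          simp only [Pi.sub_apply]
          rw [abs_sub_comm]
          exact htail T hT1 x
      _ = 2 * C / T * ∫ x, ‖x‖ ^ (p + 1) ∂ν := integral_const_mul _ _
      _ ≤ _ := by gcongr
  have e2 : (∑ n ∈ Finset.range N, f (X n)) / (N:ℝ) - ∫ x, f x ∂ν =
      ((∑ n ∈ Finset.range N, f (X n)) / (N:ℝ) - (∑ n ∈ Finset.range N, f (X n) * cut T (X n)) / (N:ℝ)) +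
      ((∑ n ∈ Finset.range N, f (X n) * cut T (X n)) / (N:ℝ) - ∫ x, f x * cut T x ∂ν) +
      (∫ x, f x * cut T x ∂ν - ∫ x, f x ∂ν) := by ring
  rw [e2]
  refine lt_of_le_of_lt (abs_add_three _ _ _) ?_
  linarith

end Pool.Agent.R306.GP
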