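import Mathlib
import Pool.Agent.R306.GP.Law

/-!
From averages of continuous functions to joint frequencies; uniqueness of the limit law.
-/

set_option autoImplicit false

open MeasureTheory Filter Topology Set
open scoped ENNReal

namespace Pool.Agent.R306.GP

open Classical in
/-- joint frequencies -/
theorem freq_of_law {k : ℕ} {X : ℕ → Fin k → ℝ} {μ : ProbabilityMeasure ℝ} (hat : ∀ x : ℝ, (μ : Measure ℝ) {x} = 0)
    (hlaw : ∀ g : (Fin k → ℝ) → ℝ, Continuous g → (∃ B, ∀ x, |g x| ≤ B) →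
      Tendsto (fun N : ℕ => (∑ n ∈ Finset.range N, g (X n)) / (N:ℝ)) atTop
        (𝓝 (∫ x, g x ∂(Measure.pi fun _ : Fin k => (μ : Measure ℝ))))) (u : Fin k → ℝ) :
    Tendsto (fun N : ℕ => (((Finset.range N).filter fun n => ∀ j, X n j ≤ u j).card : ℝ) / N) atTop
      (𝓝 (∏ j, (μ : Measure ℝ).real (Iic (u j)))) := by
  set PN : ℕ → ProbabilityMeasure (Fin k → ℝ) := fun N => ⟨em X N, inferInstance⟩ with hPN
  set P0 : ProbabilityMeasure (Fin k → ℝ) := ⟨Measure.pi fun _ : Fin k => (μ : Measure ℝ), inferInstance⟩ with hP0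
  have hconv : Tendsto PN atTop (𝓝 P0) := by
    rw [ProbabilityMeasure.tendsto_iff_forall_integral_tendsto]
    intro g
    have h1 := (tendsto_add_atTop_iff_nat 1).mpr (hlaw g g.continuous ⟨‖g‖, fun x => by
      have := g.norm_coe_le_norm x
      rwa [Real.norm_eq_abs] at this⟩)
    refine h1.congr fun N => ?_
    change _ = ∫ x, g x ∂(em X N)
    rw [em_integral, smul_eq_mul, div_eq_inv_mul]
  set S : Set (Fin k → ℝ) := {x | ∀ j, x j ≤ u j} with hS
  have hSpi : S = Set.pi univ fun j => Iic (u j) := by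
    ext x
    constructor
    · intro h j _
      exact h j
    · intro h j
      exact h j (mem_univ j)
  have hScl : IsClosed S := by
    rw [hSpi]
    exact isClosed_set_pi fun j _ => isClosed_Iic
  have hfr : frontier S ⊆ ⋃ j, {x : Fin k → ℝ | x j = u j} := by
    rw [hScl.frontier_eq]
    rintro x ⟨hx1, hx2⟩
    by_contra hne
    apply hx2
    rw [mem_interior]
    refine ⟨{x : Fin k → ℝ | ∀ j, x j < u j}, fun z hz j => (hz j).le, ?_, fun j => ?_⟩
    · have : {x : Fin k → ℝ | ∀ j, x j < u j} = ⋂ j, {x : Fin k → ℝ | x j < u j} := by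
        ext z; simp
      rw [this]
      exact isOpen_iInter_of_finite fun j => isOpen_lt (continuous_apply j) continuous_const
    · refine lt_of_le_of_ne (hx1 j) fun heq => hne ?_
      exact mem_iUnion.mpr ⟨j, heq⟩
  have hnull : (P0 : Measure (Fin k → ℝ)) (frontier S) = 0 := by
    refine measure_mono_null hfr ?_
    rw [measure_iUnion_null_iff]
    intro j
    have h1 := (measurePreserving_eval (fun _ : Fin k => (μ : Measure ℝ)) j).measure_preimage
      (measurableSet_singleton (u j)).nullMeasurableSet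
    rw [hat] at h1
    exact h1
  have h2 := ProbabilityMeasure.tendsto_measure_of_null_frontier_of_tendsto' hconv hnull
  have h3 : (P0 : Measure (Fin k → ℝ)) S = ∏ j, (μ : Measure ℝ) (Iic (u j)) := by
    change Measure.pi (fun _ : Fin k => (μ : Measure ℝ)) S = _
    rw [hSpi, Measure.pi_pi]
  have h4 := (ENNReal.tendsto_toReal (measure_ne_top (P0 : Measure (Fin k → ℝ)) S)).comp h2
  rw [h3, ENNReal.toReal_prod] at h4
  rw [← tendsto_add_atTop_iff_nat 1]
  refine h4.congr fun N => ?_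
  change (em X N S).toReal = _
  unfold em
  rw [Measure.smul_apply, Measure.finsetSum_apply, smul_eq_mul, ENNReal.toReal_mul, ENNReal.toReal_inv,
    ENNReal.toReal_natCast, div_eq_inv_mul]
  congr 1
  have h5 : ∀ n : ℕ, Measure.dirac (X n) S = if (∀ j, X n j ≤ u j) then 1 else 0 := by
    intro n
    rw [Measure.dirac_apply' _ hScl.measurableSet, Set.indicator_apply]
    rfl
  simp only [h5]
  rw [Finset.sum_ite, Finset.sum_const_zero, add_zero, Finset.sum_const, nsmul_eq_mul, mul_one, ENNReal.toReal_natCast]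

/-- uniqueness of the limit law -/
theorem law_unique {X : ℕ → ℝ} {μ μ' : ProbabilityMeasure ℝ}
    (h : ∀ x : ℝ, Tendsto (fun N : ℕ => (∑ n ∈ Finset.range N, (if X n ≤ x then (1:ℝ) else 0)) / (N:ℝ)) atTop
      (𝓝 ((μ : Measure ℝ).real (Iic x))))
    (h' : ∀ g : ℝ → ℝ, Continuous g → (∃ B, ∀ x, |g x| ≤ B) →
      Tendsto (fun N : ℕ => (∑ n ∈ Finset.range N, g (X n)) / (N:ℝ)) atTop (𝓝 (∫ x, g x ∂(μ' : Measure ℝ)))) :
    μ = μ' := by
  -- the cut-off functions
  set g : ℝ → ℝ → ℝ → ℝ := fun p q x => max 0 (min 1 ((q - x) / (q - p))) with hg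
  have gc : ∀ p q, Continuous (g p q) := by intro p q; simp only [hg]; fun_prop
  have g0 : ∀ p q x, 0 ≤ g p q x := fun p q x => le_max_left _ _
  have g1 : ∀ p q x, g p q x ≤ 1 := fun p q x => max_le zero_le_one (min_le_left _ _)
  have gone : ∀ p q x, p < q → x ≤ p → g p q x = 1 := by
    intro p q x hpq hx
    simp only [hg]
    have : 1 ≤ (q - x) / (q - p) := by
      rw [le_div_iff₀ (by linarith)]; linarith
    rw [min_eq_left this, max_eq_right zero_le_one]
  have gzero : ∀ p q x, p < q → q ≤ x → g p q x = 0 := by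
    intro p q x hpq hx
    simp only [hg]
    have h1 : (q - x) / (q - p) ≤ 0 := div_nonpos_of_nonpos_of_nonneg (by linarith) (by linarith)
    exact max_eq_left ((min_le_right _ _).trans h1)
  have gint : ∀ p q, Integrable (g p q) (μ' : Measure ℝ) := fun p q =>
    Integrable.of_bound (gc p q).aestronglyMeasurable 1 (Eventually.of_forall fun x => by
      rw [Real.norm_eq_abs, abs_of_nonneg (g0 p q x)]; exact g1 p q x)
  have hlim : ∀ p q, Tendsto (fun N : ℕ => (∑ n ∈ Finset.range N, g p q (X n)) / (N:ℝ)) atTop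
      (𝓝 (∫ x, g p q x ∂(μ' : Measure ℝ))) := fun p q => h' (g p q) (gc p q) ⟨1, fun x => by
        rw [abs_of_nonneg (g0 p q x)]; exact g1 p q x⟩
  have hlow : ∀ p q, p < q → (μ : Measure ℝ).real (Iic p) ≤ ∫ x, g p q x ∂(μ' : Measure ℝ) := by
    intro p q hpq
    refine le_of_tendsto_of_tendsto' (h p) (hlim p q) fun N => ?_
    apply div_le_div_of_nonneg_right _ (Nat.cast_nonneg N)
    apply Finset.sum_le_sum
    intro n _
    split_ifs with hx
    · rw [gone p q _ hpq hx]
    · exact g0 _ _ _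
  have hup : ∀ p q, p < q → ∫ x, g p q x ∂(μ' : Measure ℝ) ≤ (μ : Measure ℝ).real (Iic q) := by
    intro p q hpq
    refine le_of_tendsto_of_tendsto' (hlim p q) (h q) fun N => ?_
    apply div_le_div_of_nonneg_right _ (Nat.cast_nonneg N)
    apply Finset.sum_le_sum
    intro n _
    split_ifs with hx
    · exact g1 _ _ _
    · rw [gzero p q _ hpq (le_of_lt (not_le.mp hx))]
  have hlow' : ∀ p q, p < q → (μ' : Measure ℝ).real (Iic p) ≤ ∫ x, g p q x ∂(μ' : Measure ℝ) := by
    intro p q hpq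
    rw [← integral_indicator_one measurableSet_Iic]
    refine integral_mono (Integrable.indicator (integrable_const _) measurableSet_Iic) (gint p q) fun x => ?_
    rw [Set.indicator_apply]
    split_ifs with hx
    · rw [gone p q _ hpq hx]; rfl
    · exact g0 _ _ _
  have hup' : ∀ p q, p < q → ∫ x, g p q x ∂(μ' : Measure ℝ) ≤ (μ' : Measure ℝ).real (Iic q) := by
    intro p q hpq
    rw [← integral_indicator_one measurableSet_Iic]
    refine integral_mono (gint p q) (Integrable.indicator (integrable_const _) measurableSet_Iic) fun x => ?_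
    rw [Set.indicator_apply]
    split_ifs with hx
    · exact g1 _ _ _
    · rw [gzero p q _ hpq (le_of_lt (not_le.mp hx))]
  have hcdf : ProbabilityTheory.cdf (μ : Measure ℝ) = ProbabilityTheory.cdf (μ' : Measure ℝ) := by
    have key : ∀ ν ν' : ProbabilityMeasure ℝ, (∀ p q, p < q → (ν : Measure ℝ).real (Iic p) ≤ (ν' : Measure ℝ).real (Iic q)) →
        ∀ p, ProbabilityTheory.cdf (ν : Measure ℝ) p ≤ ProbabilityTheory.cdf (ν' : Measure ℝ) p := by
      intro ν ν' hνν p
      have h1 : Tendsto (ProbabilityTheory.cdf (ν' : Measure ℝ)) (𝓝[>] p) (𝓝 (ProbabilityTheory.cdf (ν' : Measure ℝ) p)) :=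
        ((ProbabilityTheory.cdf (ν' : Measure ℝ)).right_continuous p).mono Ioi_subset_Ici_self
      refine ge_of_tendsto h1 ?_
      filter_upwards [self_mem_nhdsWithin] with q hq
      rw [ProbabilityTheory.cdf_eq_real, ProbabilityTheory.cdf_eq_real]
      exact hνν p q hq
    ext p
    apply le_antisymm
    · exact key μ μ' (fun p q hpq => (hlow p q hpq).trans (hup' p q hpq)) p
    · exact key μ' μ (fun p q hpq => (hlow' p q hpq).trans (hup p q hpq)) p
  have h9 : (μ : Measure ℝ) = (μ' : Measure ℝ) := Measure.eq_of_cdf (μ : Measure ℝ) (μ' : Measure ℝ) hcdf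
  exact Subtype.ext h9

/-- bounded moments bound the terms -/
lemma small_of_mom {X : ℕ → ℝ} (h : ∀ m : ℕ, ∃ L : ℝ, Tendsto (fun N : ℕ => (∑ n ∈ Finset.range N, |X n| ^ m) / (N:ℝ))
    atTop (𝓝 L)) {ε : ℝ} (hε : 0 < ε) : ∀ᶠ n : ℕ in atTop, |X n| ≤ (n:ℝ) ^ ε := by
  obtain ⟨m, hm⟩ := exists_nat_ge (2 / ε)
  obtain ⟨L, hL⟩ := h m
  have h1 := (tendsto_add_atTop_iff_nat 1).mpr hL
  obtain ⟨n0, hn0⟩ := exists_nat_ge (2 * (|L| + 1) + 1)
  filter_upwards [h1.eventually (gt_mem_nhds (show L < |L| + 1 by linarith [le_abs_self L])), eventually_ge_atTop n0,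
    eventually_ge_atTop 1] with n hn hn1 hn2
  by_contra hne
  push Not at hne
  have hnR : (1:ℝ) ≤ n := by exact_mod_cast hn2
  have hn0' : (n0:ℝ) ≤ n := by exact_mod_cast hn1
  rw [div_lt_iff₀ (by positivity)] at hn
  have h2 : |X n| ^ m ≤ ∑ i ∈ Finset.range (n + 1), |X i| ^ m :=
    Finset.single_le_sum (f := fun i => |X i| ^ m) (fun i _ => by positivity) (Finset.mem_range.mpr (Nat.lt_succ_self n))
  have h3 : (n:ℝ) ^ (2:ℕ) ≤ |X n| ^ m := by
    have h4 : (n:ℝ) ^ (2:ℝ) ≤ (n:ℝ) ^ (ε * m) := by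
      apply Real.rpow_le_rpow_of_exponent_le hnR
      rw [div_le_iff₀ hε] at hm
      linarith
    have h5 : (n:ℝ) ^ (ε * m) = ((n:ℝ) ^ ε) ^ m := by
      rw [Real.rpow_mul (by linarith), Real.rpow_natCast]
    have h6 : ((n:ℝ) ^ ε) ^ m ≤ |X n| ^ m := pow_le_pow_left₀ (by positivity) hne.le m
    rw [show ((n:ℝ) ^ (2:ℕ)) = (n:ℝ) ^ (2:ℝ) by norm_cast]
    linarith
  push_cast at hn
  have hL0 : 0 ≤ |L| := abs_nonneg L
  have h7 : (n:ℝ) ^ (2:ℕ) < (|L| + 1) * (n + 1) := by linarith
  have h8 : (|L| + 1) * (n + 1) ≤ (n:ℝ) ^ (2:ℕ) := by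
    have h9 : (2 * (|L| + 1) + 1) * n ≤ (n:ℝ) * n := mul_le_mul_of_nonneg_right (by linarith) (by linarith)
    rw [pow_two]
    nlinarith
  linarith

end Pool.Agent.R306.GP
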