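import Mathlib
import Pool.Agent.R306.GP.AEe
import Pool.Agent.R306.GP.Law

/-!
The joint law of the error term at the points `b_n exp(a_n y) exp(j y)`.
-/

set_option autoImplicit false

open MeasureTheory Filter Topology Set Real
open scoped ENNReal
open Pool.Agent.H469R2.NK (e norm_e e_add conj_e e_zero)
open Pool.Agent.H383.Gen (U Bd)
open Pool.Agent.H383.GW (Wt Sand)
open Pool.Agent.Y969.TM

namespace Pool.Agent.R306.GP

variable {E : ℝ → ℝ} {af : ℕ → ℝ} {φ : ℝ} {a b : ℕ → ℝ} {δ c d : ℝ}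

/-- shifted sequences -/
lemma Sq.shift (h : Sq a b δ) (j : ℕ) : Sq (fun n => a n + j) b δ :=
  ⟨h.dpos, h.done, fun n => by
    have h1 := h.one n
    have h2 : (0:ℝ) ≤ j := Nat.cast_nonneg j
    show 1 ≤ a n + j
    linarith, fun n => by
    have h1 := h.gap n
    show a n + j + δ ≤ a (n + 1) + j
    linarith, h.pos, h.mono⟩

lemma pj_eq (a b : ℕ → ℝ) (n : ℕ) (y : ℝ) (j : ℕ) : pj a b n y j = pt (fun n => a n + j) b n y := by
  unfold pj pt
  rw [show (a n + j) * y = j * y + a n * y by ring, Real.exp_add]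
  ring

/-- from compact intervals to the half line -/
lemma ae_pos {p : ℝ → Prop} (h : ∀ c d : ℝ, 0 < c → c < d → ∀ᵐ y ∂(volume.restrict (Icc c d)), p y) :
    ∀ᵐ y : ℝ, 0 < y → p y := by
  have h1 : ∀ᵐ y : ℝ, ∀ c d : ℚ, (0 < (c:ℝ) ∧ (c:ℝ) < d) → y ∈ Icc (c:ℝ) d → p y := by
    rw [ae_all_iff]
    intro c
    rw [ae_all_iff]
    intro d
    by_cases hcd : 0 < (c:ℝ) ∧ (c:ℝ) < d
    · have h2 := h c d hcd.1 hcd.2
      rw [ae_restrict_iff' measurableSet_Icc] at h2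
      filter_upwards [h2] with y hy _
      exact hy
    · exact Eventually.of_forall fun y h0 => absurd h0 hcd
  filter_upwards [h1] with y hy hy0
  obtain ⟨c, hc1, hc2⟩ := exists_rat_btwn hy0
  obtain ⟨d, hd1, hd2⟩ := exists_rat_btwn (show y < y + 1 by linarith)
  exact hy c d ⟨by exact_mod_cast hc1, by linarith⟩ ⟨hc2.le, hd1.le⟩

theorem good1_pos (hX : Ctx E af φ) (h : Sq a b δ) : ∀ᵐ y : ℝ, 0 < y → ∀ (j k : ℕ), ∃ C : ℝ, ∀ᶠ N : ℕ in atTop,
      ∑ n ∈ Finset.range N, (E (pj a b n y j)) ^ (2 * k) ≤ C * N := by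
  have h1 : ∀ᵐ y : ℝ, ∀ j k : ℕ, 0 < y → ∃ C : ℝ, ∀ᶠ N : ℕ in atTop,
      ∑ n ∈ Finset.range N, (E (pj a b n y j)) ^ (2 * k) ≤ C * N := by
    rw [ae_all_iff]
    intro j
    rw [ae_all_iff]
    intro k
    simp only [pj_eq]
    exact ae_pos fun c d hc hcd => good1 hX (h.shift j) hc hcd k
  filter_upwards [h1] with y hy hy0 j k
  exact hy j k hy0

theorem good2_pos (hX : Ctx E af φ) (h : Sq a b δ) : ∀ᵐ y : ℝ, 0 < y → ∀ (j : ℕ), ∀ ε : ℝ, 0 < ε →
    ∀ᶠ K : ℕ in atTop, ∀ᶠ N : ℕ in atTop,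
      ∑ n ∈ Finset.range N, (E (pj a b n y j) - U af φ (pj a b n y j) K) ^ 2 ≤ ε * N := by
  have h1 : ∀ᵐ y : ℝ, ∀ j : ℕ, 0 < y → ∀ ε : ℝ, 0 < ε →
    ∀ᶠ K : ℕ in atTop, ∀ᶠ N : ℕ in atTop,
      ∑ n ∈ Finset.range N, (E (pj a b n y j) - U af φ (pj a b n y j) K) ^ 2 ≤ ε * N := by
    rw [ae_all_iff]
    intro j
    simp only [pj_eq]
    exact ae_pos fun c d hc hcd => good2 hX (h.shift j) hc hcd
  filter_upwards [h1] with y hy hy0 j
  exact hy j hy0

lemma exp_lip (x y : ℝ) : ‖Complex.exp (Complex.I * (x:ℝ)) - Complex.exp (Complex.I * (y:ℝ))‖ ≤ |x - y| := by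
  have e1 : Complex.exp (Complex.I * (x:ℝ)) - Complex.exp (Complex.I * (y:ℝ)) =
      Complex.exp (Complex.I * (y:ℝ)) * (Complex.exp (Complex.I * ((x - y : ℝ) : ℂ)) - 1) := by
    rw [mul_sub, mul_one, ← Complex.exp_add]
    congr 2
    push_cast
    ring
  rw [e1, norm_mul, mul_comm Complex.I ((y:ℝ):ℂ), Complex.norm_exp_ofReal_mul_I, one_mul]
  exact (Real.norm_exp_I_mul_ofReal_sub_one_le (x := x - y))

/-- closeness of the characteristic functions -/
lemma char_close {k : ℕ} {q : ℕ → Fin k → ℝ}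
    (h2 : ∀ (j : Fin k), ∀ ε : ℝ, 0 < ε → ∀ᶠ K : ℕ in atTop, ∀ᶠ N : ℕ in atTop,
      ∑ n ∈ Finset.range N, (E (q n j) - U af φ (q n j) K) ^ 2 ≤ ε * N) (t : Fin k → ℝ) :
    ∀ ε : ℝ, 0 < ε → ∀ᶠ K : ℕ in atTop, ∀ᶠ N : ℕ in atTop,
      ‖(∑ n ∈ Finset.range N, ∏ j, Complex.exp (Complex.I * (t j * E (q n j) : ℝ))) / (N:ℂ) -
        (∑ n ∈ Finset.range N, ∏ j, Complex.exp (Complex.I * (t j * U af φ (q n j) K : ℝ))) / (N:ℂ)‖ ≤ ε := by
  intro ε hε
  set Tm := ∑ j, |t j| with hTm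
  have hTj : ∀ j, |t j| ≤ Tm := fun j => Finset.single_le_sum (f := fun j => |t j|) (fun _ _ => abs_nonneg _) (Finset.mem_univ j)
  have hTm0 : 0 ≤ Tm := Finset.sum_nonneg fun _ _ => abs_nonneg _
  set D : ℝ := 2 ^ k * Tm * k + 1 with hD
  have hD0 : 0 < D := by positivity
  set η := ε / (2 * D) with hη
  have hη0 : 0 < η := by positivity
  have h3 : ∀ᶠ K : ℕ in atTop, ∀ j : Fin k, ∀ᶠ N : ℕ in atTop,
      ∑ n ∈ Finset.range N, (E (q n j) - U af φ (q n j) K) ^ 2 ≤ η ^ 2 * N :=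
    eventually_all.mpr fun j => h2 j (η ^ 2) (by positivity)
  filter_upwards [h3] with K hK
  filter_upwards [eventually_all.mpr hK, eventually_ge_atTop 1] with N hN hN1
  have hN0 : (0:ℝ) < N := by exact_mod_cast hN1
  rw [← sub_div, ← Finset.sum_sub_distrib, norm_div, Complex.norm_natCast, div_le_iff₀ hN0]
  have hpt : ∀ n : ℕ, ‖∏ j, Complex.exp (Complex.I * (t j * E (q n j) : ℝ)) -
      ∏ j, Complex.exp (Complex.I * (t j * U af φ (q n j) K : ℝ))‖ ≤
      2 ^ k * ∑ j : Fin k, Tm * (η + η⁻¹ * (E (q n j) - U af φ (q n j) K) ^ 2) := by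
    intro n
    have hone : ∀ x : ℝ, ‖Complex.exp (Complex.I * (x : ℝ))‖ = 1 := by
      intro x
      rw [mul_comm, Complex.norm_exp_ofReal_mul_I]
    have h6 := prod_diff (Finset.univ : Finset (Fin k)) (x := fun j => Complex.exp (Complex.I * (t j * E (q n j) : ℝ)))
      (y := fun j => Complex.exp (Complex.I * (t j * U af φ (q n j) K : ℝ))) (fun j => (hone _).le)
      (fun j => by rw [hone]; norm_num)
    rw [Finset.card_univ, Fintype.card_fin] at h6
    refine h6.trans ?_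
    apply mul_le_mul_of_nonneg_left _ (by positivity)
    apply Finset.sum_le_sum
    intro j _
    refine (exp_lip _ _).trans ?_
    rw [← mul_sub, abs_mul]
    apply mul_le_mul (hTj j) _ (abs_nonneg _) hTm0
    set v := E (q n j) - U af φ (q n j) K with hv
    have h7 : |v| ≤ η + η⁻¹ * v ^ 2 := by
      rcases le_total |v| η with h8 | h8
      · have : 0 ≤ η⁻¹ * v ^ 2 := by positivity
        linarith
      · have h9 : η⁻¹ * v ^ 2 = |v| * (|v| / η) := by
          rw [← sq_abs]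
          field_simp
        have h10 : 1 ≤ |v| / η := by rwa [one_le_div hη0]
        rw [h9]
        have := mul_le_mul_of_nonneg_left h10 (abs_nonneg v)
        linarith
    exact h7
  calc ‖∑ n ∈ Finset.range N, (∏ j, Complex.exp (Complex.I * (t j * E (q n j) : ℝ)) -
      ∏ j, Complex.exp (Complex.I * (t j * U af φ (q n j) K : ℝ)))‖
      ≤ ∑ n ∈ Finset.range N, 2 ^ k * ∑ j : Fin k, Tm * (η + η⁻¹ * (E (q n j) - U af φ (q n j) K) ^ 2) :=
        (norm_sum_le _ _).trans (Finset.sum_le_sum fun n _ => hpt n)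
    _ = 2 ^ k * ∑ j : Fin k, Tm * (η * N + η⁻¹ * ∑ n ∈ Finset.range N, (E (q n j) - U af φ (q n j) K) ^ 2) := by
        rw [← Finset.mul_sum, Finset.sum_comm]
        congr 1
        apply Finset.sum_congr rfl
        intro j _
        rw [← Finset.mul_sum, Finset.sum_add_distrib, Finset.sum_const, Finset.card_range, nsmul_eq_mul, ← Finset.mul_sum]
        ring
    _ ≤ 2 ^ k * ∑ _j : Fin k, Tm * (η * N + η⁻¹ * (η ^ 2 * N)) := by
        apply mul_le_mul_of_nonneg_left _ (by positivity)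
        apply Finset.sum_le_sum
        intro j _
        apply mul_le_mul_of_nonneg_left _ hTm0
        have := mul_le_mul_of_nonneg_left (hN j) (inv_nonneg.mpr hη0.le)
        linarith
    _ = (2 ^ k * Tm * k) * (2 * η) * N := by
        rw [Finset.sum_const, Finset.card_univ, Fintype.card_fin, nsmul_eq_mul]
        have : η⁻¹ * (η ^ 2 * N) = η * N := by field_simp
        rw [this]
        ring
    _ ≤ D * (2 * η) * N := by
        apply mul_le_mul_of_nonneg_right _ hN0.le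
        apply mul_le_mul_of_nonneg_right _ (by positivity)
        rw [hD]; linarith
    _ = ε * N := by
        rw [hη]
        field_simp

/-- characteristic functions of the error term -/
theorem charE {m : ℝ → ℂ} (hμ : ∀ t : ℝ, Tendsto (fun K => mK af φ K t) atTop (𝓝 (m t)))
    {k : ℕ} {q : ℕ → Fin k → ℝ} (hm : ∀ (p : Fin k → ℕ) (K : ℕ),
    Tendsto (fun N : ℕ => (∑ n ∈ Finset.range N, ∏ j : Fin k, ((U af φ (q n j) K : ℝ) : ℂ) ^ (p j)) / (N:ℂ)) atTop
      (𝓝 (∏ j, ZZ af φ (p j) K)))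
    (h2 : ∀ (j : Fin k), ∀ ε : ℝ, 0 < ε → ∀ᶠ K : ℕ in atTop, ∀ᶠ N : ℕ in atTop,
      ∑ n ∈ Finset.range N, (E (q n j) - U af φ (q n j) K) ^ 2 ≤ ε * N) (t : Fin k → ℝ) :
    Tendsto (fun N : ℕ => (∑ n ∈ Finset.range N, ∏ j, Complex.exp (Complex.I * (t j * E (q n j) : ℝ))) / (N:ℂ)) atTop
      (𝓝 (∏ j, m (t j))) :=
  lim3 (G := fun K N => (∑ n ∈ Finset.range N, ∏ j : Fin k, Complex.exp (Complex.I * (t j * U af φ (q n j) K : ℝ))) / (N:ℂ))
    (g := fun K => ∏ j, mK af φ K (t j)) (fun K => charK (hm · K) t) (tendsto_finsetProd _ fun j _ => hμ (t j))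
    (char_close h2 t)

/-- the limit of the characteristic functions of the model polynomials -/
theorem mK_conv {q : ℕ → ℝ} {l : ℂ} (t : ℝ) (hm : ∀ (p : ℕ) (K : ℕ),
    Tendsto (fun N : ℕ => (∑ n ∈ Finset.range N, ((U af φ (q n) K : ℝ) : ℂ) ^ p) / (N:ℂ)) atTop (𝓝 (ZZ af φ p K)))
    (h2 : ∀ ε : ℝ, 0 < ε → ∀ᶠ K : ℕ in atTop, ∀ᶠ N : ℕ in atTop,
      ∑ n ∈ Finset.range N, (E (q n) - U af φ (q n) K) ^ 2 ≤ ε * N)
    (hl : Tendsto (fun N : ℕ => (∑ n ∈ Finset.range N, Complex.exp (Complex.I * (t * E (q n) : ℝ))) / (N:ℂ)) atTop (𝓝 l)) :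
    Tendsto (fun K => mK af φ K t) atTop (𝓝 l) := by
  have h3 := char_close (E := E) (af := af) (φ := φ) (k := 1) (q := fun n _ => q n) (fun _ => h2) (fun _ => t)
  have h4 : ∀ K : ℕ, Tendsto (fun N : ℕ => (∑ n ∈ Finset.range N, Complex.exp (Complex.I * (t * U af φ (q n) K : ℝ))) / (N:ℂ))
      atTop (𝓝 (mK af φ K t)) := by
    intro K
    have h5 := charK (af := af) (φ := φ) (k := 1) (q := fun n _ => q n) (K := K) (fun p => by
      have := hm (p 0) K
      simpa using this) (fun _ => t)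
    simpa using h5
  simp only [Fin.prod_univ_one] at h3
  rw [Metric.tendsto_nhds]
  intro ε hε
  filter_upwards [h3 (ε / 2) (by positivity)] with K hK
  have h6 := (hl.sub (h4 K)).norm
  have h7 := le_of_tendsto h6 hK
  rw [dist_comm, dist_eq_norm]
  linarith

/-- the joint law -/
theorem iid {μ : ProbabilityMeasure ℝ} (hX : Ctx E af φ)
    (hμ : ∀ t : ℝ, Tendsto (fun K => mK af φ K t) atTop (𝓝 (charFun (μ : Measure ℝ) t)))
    (h : Sq a b δ) : ∀ᵐ y : ℝ, 0 < y → ∀ (k : ℕ) (f : (Fin k → ℝ) → ℝ), Continuous f →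
      (∃ (C : ℝ) (p : ℕ), ∀ x, |f x| ≤ C * (1 + ‖x‖ ^ p)) →
      Integrable f (Measure.pi fun _ : Fin k => (μ : Measure ℝ)) ∧
      Tendsto (fun N : ℕ => (∑ n ∈ Finset.range N, f (fun j => E (pj a b n y j))) / (N:ℝ)) atTop
        (𝓝 (∫ x, f x ∂(Measure.pi fun _ : Fin k => (μ : Measure ℝ)))) := by
  filter_upwards [mixed h af φ, good1_pos hX h, good2_pos hX h] with y h1 h2 h3 hy k f hf hfg
  refine poly_conv (X := fun n j => E (pj a b n y j)) (fun g hg hgb => law_of_char (fun t => ?_) hg hgb) ?_ hf hfg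
  · exact charE hμ (q := fun n (j : Fin k) => pj a b n y j) (fun p K => h1 hy k p K) (fun j => h3 hy j) t
  · intro m
    -- moments
    have h4 : ∀ j : Fin k, ∃ C : ℝ, ∀ᶠ N : ℕ in atTop,
        ∑ n ∈ Finset.range N, (E (pj a b n y j)) ^ (2 * m) ≤ C * N := fun j => h2 hy j m
    choose C hC using h4
    refine ⟨1 + ∑ j, C j, ?_⟩
    filter_upwards [eventually_all.mpr hC] with N hN
    have h5 : ∀ n : ℕ, ‖(fun j : Fin k => E (pj a b n y j))‖ ^ m ≤ 1 + ∑ j : Fin k, (E (pj a b n y j)) ^ (2 * m) := by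
      intro n
      set X : Fin k → ℝ := fun j => E (pj a b n y j) with hXd
      have h6 : ∀ j, 0 ≤ (X j) ^ (2 * m) := fun j => Even.pow_nonneg (even_two_mul m) _
      have h7 : ‖X‖ ^ (2 * m) ≤ 1 + ∑ j, (X j) ^ (2 * m) := by
        by_cases hk : Nonempty (Fin k)
        · obtain ⟨j, hj⟩ := (Finite.exists_max fun j => ‖X j‖)
          have h8 : ‖X‖ ≤ ‖X j‖ := (pi_norm_le_iff_of_nonneg (norm_nonneg _)).mpr hj
          have h9 : (X j) ^ (2 * m) ≤ ∑ j, (X j) ^ (2 * m) :=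
            Finset.single_le_sum (f := fun j => (X j) ^ (2 * m)) (fun i _ => h6 i) (Finset.mem_univ j)
          have h10 : ‖X j‖ ^ (2 * m) = (X j) ^ (2 * m) := by
            rw [Real.norm_eq_abs, pow_mul, sq_abs, ← pow_mul]
          have h11 := pow_le_pow_left₀ (norm_nonneg X) h8 (2 * m)
          linarith
        · have hk0 : k = 0 := by
            by_contra hne
            exact hk ⟨⟨0, Nat.pos_of_ne_zero hne⟩⟩
          subst hk0
          have h8 : ‖X‖ = 0 := by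
            rw [norm_eq_zero]; exact Subsingleton.elim _ _
          rw [h8]
          have h9 : (0:ℝ) ^ (2 * m) ≤ 1 := pow_le_one₀ le_rfl zero_le_one
          simpa using h9
      rcases le_total ‖X‖ 1 with h12 | h12
      · have h13 : ‖X‖ ^ m ≤ 1 := pow_le_one₀ (norm_nonneg _) h12
        have : 0 ≤ ∑ j, (X j) ^ (2 * m) := Finset.sum_nonneg fun j _ => h6 j
        linarith
      · exact (pow_le_pow_right₀ h12 (by omega : m ≤ 2 * m)).trans h7
    calc ∑ n ∈ Finset.range N, ‖(fun j : Fin k => E (pj a b n y j))‖ ^ m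
        ≤ ∑ n ∈ Finset.range N, (1 + ∑ j : Fin k, (E (pj a b n y j)) ^ (2 * m)) := Finset.sum_le_sum fun n _ => h5 n
      _ = N + ∑ j : Fin k, ∑ n ∈ Finset.range N, (E (pj a b n y j)) ^ (2 * m) := by
          rw [Finset.sum_add_distrib, Finset.sum_comm]
          simp
      _ ≤ N + ∑ j : Fin k, C j * N := by
          have := Finset.sum_le_sum (s := Finset.univ) fun (j : Fin k) _ => hN j
          linarith
      _ = _ := by rw [← Finset.sum_mul]; ring

end Pool.Agent.R306.GP
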