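import Mathlib
import Pool.Agent.R306.GP.IID

/-!
The joint law of the error term at the points `b_n α ^ (a_n) α ^ j`.
-/

set_option autoImplicit false

open MeasureTheory Filter Topology Set Real
open scoped ENNReal
open Pool.Agent.H383.Gen (U Bd)
open Pool.Agent.Y969.TM

namespace Pool.Agent.R306.GP

variable {E : ℝ → ℝ} {af : ℕ → ℝ} {φ : ℝ}

/-- Cesàro means of a shifted sequence -/
lemma ces_shift {x : ℕ → ℝ} {l : ℝ} (n0 : ℕ)
    (h : Tendsto (fun N : ℕ => (∑ n ∈ Finset.range N, x (n + n0)) / (N:ℝ)) atTop (𝓝 l)) :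
    Tendsto (fun N : ℕ => (∑ n ∈ Finset.range N, x n) / (N:ℝ)) atTop (𝓝 l) := by
  rw [← tendsto_add_atTop_iff_nat n0]
  have hN : Tendsto (fun N : ℕ => ((N + n0 : ℕ) : ℝ)) atTop atTop :=
    tendsto_natCast_atTop_atTop.comp (tendsto_add_atTop_nat n0)
  have h1 : Tendsto (fun N : ℕ => (∑ n ∈ Finset.range n0, x n) / ((N + n0 : ℕ) : ℝ)) atTop (𝓝 0) :=
    tendsto_const_nhds.div_atTop hN
  have h2 : Tendsto (fun N : ℕ => (n0:ℝ) / ((N + n0 : ℕ) : ℝ)) atTop (𝓝 0) := tendsto_const_nhds.div_atTop hN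
  have h3 : Tendsto (fun N : ℕ => (N:ℝ) / ((N + n0 : ℕ) : ℝ)) atTop (𝓝 1) := by
    have h4 : Tendsto (fun N : ℕ => 1 - (n0:ℝ) / ((N + n0 : ℕ) : ℝ)) atTop (𝓝 (1 - 0)) := h2.const_sub 1
    rw [sub_zero] at h4
    refine h4.congr' ?_
    filter_upwards [eventually_ge_atTop 1] with N hN1
    have : ((N + n0 : ℕ) : ℝ) ≠ 0 := by
      have : N + n0 ≠ 0 := by omega
      exact_mod_cast this
    rw [eq_div_iff this, sub_mul, div_mul_cancel₀ _ this]
    push_cast
    ring
  have h5 := h1.add (h3.mul h)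
  rw [zero_add, one_mul] at h5
  refine h5.congr' ?_
  filter_upwards [eventually_ge_atTop 1] with N hN1
  have hN0 : (N:ℝ) ≠ 0 := by
    have : N ≠ 0 := by omega
    exact_mod_cast this
  have h6 : ∑ n ∈ Finset.range (N + n0), x n = ∑ n ∈ Finset.range n0, x n + ∑ n ∈ Finset.range N, x (n + n0) := by
    rw [add_comm N n0, Finset.sum_range_add]
    congr 1
    apply Finset.sum_congr rfl
    intro n _
    rw [add_comm]
  rw [h6, add_div]
  congr 1
  field_simp

/-- from `y` to `α = exp y` -/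
lemma ae_exp {p : ℝ → Prop} (h : ∀ᵐ y : ℝ, 0 < y → p (exp y)) : ∀ᵐ α : ℝ, 1 < α → p α := by
  rw [ae_iff] at h ⊢
  have h3 := MeasureTheory.addHaar_image_eq_zero_of_differentiableOn_of_addHaar_eq_zero
    (volume : Measure ℝ) (f := Real.exp) Real.differentiable_exp.differentiableOn h
  refine measure_mono_null ?_ h3
  intro α hα
  have hα' : ¬ (1 < α → p α) := hα
  push Not at hα'
  obtain ⟨hα1, hα2⟩ := hα'
  have hα0 : 0 < α := by linarith
  refine ⟨Real.log α, ?_, Real.exp_log hα0⟩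
  change ¬ _
  intro hall
  apply hα2
  have := hall (Real.log_pos hα1)
  rwa [Real.exp_log hα0] at this

/-- the joint law along powers -/
theorem iid_alpha {μ : ProbabilityMeasure ℝ} (hX : Ctx E af φ)
    (hμ : ∀ t : ℝ, Tendsto (fun K => mK af φ K t) atTop (𝓝 (charFun (μ : Measure ℝ) t)))
    {a b : ℕ → ℝ} {δ : ℝ} (hδ : 0 < δ) (hgap : ∀ n, a n + δ ≤ a (n + 1)) (hb : ∀ n, 0 < b n) (hmono : Monotone b) :
    ∀ᵐ α : ℝ, 1 < α → ∀ (k : ℕ) (f : (Fin k → ℝ) → ℝ), Continuous f →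
      (∃ (C : ℝ) (p : ℕ), ∀ x, |f x| ≤ C * (1 + ‖x‖ ^ p)) →
      Integrable f (Measure.pi fun _ : Fin k => (μ : Measure ℝ)) ∧
      Tendsto (fun N : ℕ => (∑ n ∈ Finset.range N, f (fun j => E (b n * α ^ (a n) * α ^ (j:ℕ)))) / (N:ℝ)) atTop
        (𝓝 (∫ x, f x ∂(Measure.pi fun _ : Fin k => (μ : Measure ℝ)))) := by
  -- the sequence `a` is eventually at least one
  have hlow : ∀ n : ℕ, a 0 + δ * n ≤ a n := by
    intro n
    induction n with
    | zero => simp
    | succ n ih =>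
      have := hgap n
      push_cast
      linarith
  obtain ⟨n0, hn0⟩ := exists_nat_ge ((1 - a 0) / δ)
  have hone : ∀ n : ℕ, 1 ≤ a (n + n0) := by
    intro n
    have h1 := hlow (n + n0)
    rw [div_le_iff₀ hδ] at hn0
    push_cast at h1
    have h2 : (0:ℝ) ≤ n := Nat.cast_nonneg n
    nlinarith
  have hSq : Sq (fun n => a (n + n0)) (fun n => b (n + n0)) (min δ 1) :=
    ⟨lt_min hδ one_pos, min_le_right _ _, hone, fun n => by
      have h1 := hgap (n + n0)
      have h2 := min_le_left δ 1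
      show a (n + n0) + min δ 1 ≤ a (n + 1 + n0)
      have h3 : n + 1 + n0 = n + n0 + 1 := by ring
      rw [h3]
      linarith, fun n => hb _, fun n m hnm => hmono (by omega)⟩
  apply ae_exp
  filter_upwards [iid hX hμ hSq] with y hy hy0 k f hf hfg
  obtain ⟨h1, h2⟩ := hy hy0 k f hf hfg
  refine ⟨h1, ces_shift n0 (h2.congr fun N => ?_)⟩
  congr 1
  apply Finset.sum_congr rfl
  intro n _
  congr 1
  funext j
  congr 1
  unfold pj pt
  rw [← Real.exp_mul, ← Real.exp_nat_mul]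
  rw [show y * a (n + n0) = a (n + n0) * y by ring]
  ring

end Pool.Agent.R306.GP
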