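import Mathlib
import Pool.Agent.R306.GP.IIDa
import Pool.Agent.R306.GP.Freq
import Pool.Agent.R306.CircLawFin
import Pool.Agent.H425R3.JL.Q2
import Pool.Agent.Y969.DM1

/-!
The circle problem: joint law of the error term at the points `b_n α ^ (a_n) α ^ j`.
-/

set_option autoImplicit false

open MeasureTheory Filter Topology Set Real
open scoped ENNReal
open Pool.Agent.H383.AP (HasMean cm)
open Pool.Agent.H383.Gauss (Tl Tl_nonneg Tl_tendsto)
open Pool.Agent.H383.Gen (U Bd)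
open Pool.Agent.H383.GW (Wt Sand)
open Pool.Agent.Y969.TM

namespace Pool.Agent.R306.GP

variable {E : ℝ → ℝ} {af : ℕ → ℝ} {φ : ℝ}

lemma ZR_eq {τ : ℝ} (hτ : Transcendental ℤ τ) (af : ℕ → ℝ) (φ X : ℝ) (r M : ℕ) : ZR af φ τ X r M = ZZ af φ r M := by
  classical
  unfold ZR ZZ
  have h1 : (TT r M).filter (fun y => ∃ k : ℤ, τ * ∑ i, fq (y i) = k) = (TT r M).filter (fun y => ∑ i, fq (y i) = 0) := by
    apply Finset.filter_congr
    intro y _
    constructor
    · intro h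
      by_contra hne
      exact no_res hτ y hne h
    · intro h
      exact ⟨0, by rw [h]; simp⟩
  rw [h1]
  apply Finset.sum_congr rfl
  intro y hy
  rw [(Finset.mem_filter.mp hy).2, mul_zero, Pool.Agent.H469R2.NK.e_zero, mul_one]

/-- mean square approximation along a progression -/
lemma h2_prog (ha : Bd af) (ha0 : af 0 = 0) {w : ℝ → ℂ} (hw : Wt w) {κ₁ κ₂ C0 : ℝ} (hC0 : 0 < C0)
    (hS : Sand E af φ w κ₁ κ₂ C0) {τ : ℝ} (hτ : 0 < τ) (X : ℝ) : ∀ ε : ℝ, 0 < ε → ∀ᶠ K : ℕ in atTop, ∀ᶠ N : ℕ in atTop,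
      ∑ n ∈ Finset.range N, (E (X + n * τ) - U af φ (X + n * τ) K) ^ 2 ≤ ε * N := by
  obtain ⟨C, hC, N0, h⟩ := Pool.Agent.H425R3.JL.ap_q ha ha0 hw hC0 hS hτ X (Rn := fun n => X + n * τ)
    ⟨0, fun n => by simp⟩
  intro ε hε
  have h1 : Tendsto (fun K => C * Tl K) atTop (𝓝 (C * 0)) := Tl_tendsto.const_mul C
  rw [mul_zero] at h1
  filter_upwards [h1.eventually (gt_mem_nhds (half_pos hε)), eventually_ge_atTop 1] with K hK hK1
  have h2 : Tendsto (fun N : ℕ => C * (N:ℝ) ^ (-(1/100):ℝ)) atTop (𝓝 (C * 0)) :=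
    ((tendsto_rpow_neg_atTop (by norm_num : (0:ℝ) < 1/100)).comp tendsto_natCast_atTop_atTop).const_mul C
  rw [mul_zero] at h2
  have h3 : Tendsto (fun N : ℕ => (N:ℝ) ^ (1/200:ℝ)) atTop atTop :=
    (tendsto_rpow_atTop (by norm_num : (0:ℝ) < 1/200)).comp tendsto_natCast_atTop_atTop
  filter_upwards [h2.eventually (gt_mem_nhds (half_pos hε)), h3.eventually_ge_atTop (K:ℝ), eventually_ge_atTop N0] with N hN hKN hN0
  refine (h N hN0 K hK1 hKN).trans ?_
  apply mul_le_mul_of_nonneg_right _ (Nat.cast_nonneg N)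
  rw [mul_add]
  linarith

/-- characteristic function of a limit law -/
lemma char_of_law {μ : ProbabilityMeasure ℝ} {x : ℕ → ℝ}
    (h : ∀ f : ℝ → ℝ, Continuous f → (∃ C : ℝ, ∀ x, |f x| ≤ C * (1 + x ^ 2)) →
      Tendsto (fun N : ℕ => (∑ n ∈ Finset.range N, f (x n)) / (N:ℝ)) atTop (𝓝 (∫ x, f x ∂(μ : Measure ℝ)))) (t : ℝ) :
    Tendsto (fun N : ℕ => (∑ n ∈ Finset.range N, Complex.exp (Complex.I * (t * x n : ℝ))) / (N:ℂ)) atTop
      (𝓝 (charFun (μ : Measure ℝ) t)) := by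
  have h1 := h (fun x => Real.cos (t * x)) (by fun_prop) ⟨1, fun x => by
    have := Real.abs_cos_le_one (t * x)
    nlinarith [sq_nonneg x]⟩
  have h2 := h (fun x => Real.sin (t * x)) (by fun_prop) ⟨1, fun x => by
    have := Real.abs_sin_le_one (t * x)
    nlinarith [sq_nonneg x]⟩
  have h3 := ((Complex.continuous_ofReal.tendsto _).comp h1).add
    (((Complex.continuous_ofReal.tendsto _).comp h2).mul_const Complex.I)
  have e1 : charFun (μ : Measure ℝ) t = ((∫ x, Real.cos (t * x) ∂(μ : Measure ℝ) : ℝ) : ℂ) +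
      ((∫ x, Real.sin (t * x) ∂(μ : Measure ℝ) : ℝ) : ℂ) * Complex.I := by
    rw [charFun_apply_real]
    have hi : Integrable (fun x : ℝ => Complex.exp (t * x * Complex.I)) (μ : Measure ℝ) := by
      refine Integrable.of_bound (by fun_prop) 1 (Eventually.of_forall fun x => ?_)
      have : (t:ℂ) * x * Complex.I = ((t * x : ℝ) : ℂ) * Complex.I := by push_cast; ring
      rw [this, Complex.norm_exp_ofReal_mul_I]
    rw [← integral_re_add_im hi]
    congr 2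
    · congr 1
      funext x
      have : (t:ℂ) * x * Complex.I = ((t * x : ℝ) : ℂ) * Complex.I := by push_cast; ring
      rw [this]
      exact Complex.exp_ofReal_mul_I_re _
    · congr 1
      apply integral_congr_ae
      refine Eventually.of_forall fun x => ?_
      have : (t:ℂ) * x * Complex.I = ((t * x : ℝ) : ℂ) * Complex.I := by push_cast; ring
      show RCLike.im (Complex.exp ((t:ℂ) * x * Complex.I)) = _
      rw [this]
      exact Complex.exp_ofReal_mul_I_im _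
  rw [e1]
  refine h3.congr fun N => ?_
  simp only [Function.comp]
  push_cast
  rw [div_mul_eq_mul_div, ← add_div, Finset.sum_mul, ← Finset.sum_add_distrib]
  congr 1
  apply Finset.sum_congr rfl
  intro n _
  rw [mul_comm Complex.I, Complex.exp_mul_I]

/-- the characteristic function of the limit law from the model polynomials -/
theorem hmu_of (ha : Bd af) (ha0 : af 0 = 0) {w : ℝ → ℂ} (hw : Wt w) {κ₁ κ₂ C0 : ℝ} (hC0 : 0 < C0)
    (hS : Sand E af φ w κ₁ κ₂ C0) {τ : ℝ} (hτ : 0 < τ) (hτt : Transcendental ℤ τ) (X : ℝ) {μ : ProbabilityMeasure ℝ}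
    (h : ∀ f : ℝ → ℝ, Continuous f → (∃ C : ℝ, ∀ x, |f x| ≤ C * (1 + x ^ 2)) →
      Tendsto (fun N : ℕ => (∑ n ∈ Finset.range N, f (E (X + n * τ))) / (N:ℝ)) atTop (𝓝 (∫ x, f x ∂(μ : Measure ℝ)))) (t : ℝ) :
    Tendsto (fun K => mK af φ K t) atTop (𝓝 (charFun (μ : Measure ℝ) t)) := by
  refine mK_conv (E := E) (q := fun n => X + n * τ) t (fun p K => ?_) (h2_prog ha ha0 hw hC0 hS hτ X) (char_of_law h t)
  have h1 := powR_mean af φ τ X p K
  rw [ZR_eq hτt] at h1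
  exact h1

end Pool.Agent.R306.GP

namespace Pool.Agent.R306.Circ

open Pool.Agent.R306.GP
open Pool.Agent.H383.Gauss (En)
open Pool.Agent.H383.Circ (ag_Bd ag_zero wg_Wt En_Sand Cx)

lemma P_En (R : ℝ) : P R / √R = En R := rfl

lemma En_meas : Measurable En := by
  have h1 : Measurable fun R : ℝ => Nn (R ^ 2) := Nn_mono.measurable.comp (by fun_prop)
  have h2 : En = fun R => (Nn (R ^ 2) - Real.pi * R ^ 2) / √R := rfl
  rw [h2]
  exact (h1.sub (by fun_prop)).div (by fun_prop)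

/-- independence for one law -/
theorem iid0 : ∃ μ : ProbabilityMeasure ℝ, ∀ (a b : ℕ → ℝ) (δ : ℝ), 0 < δ → (∀ n, a n + δ ≤ a (n + 1)) →
      (∀ n, 0 < b n) → Monotone b →
      ∀ᵐ α : ℝ, 1 < α → ∀ (k : ℕ) (f : (Fin k → ℝ) → ℝ), Continuous f →
        (∃ (C : ℝ) (p : ℕ), ∀ x, |f x| ≤ C * (1 + ‖x‖ ^ p)) →
        Integrable f (Measure.pi fun _ : Fin k => (μ : Measure ℝ)) ∧
        Tendsto (fun N : ℕ => (∑ n ∈ Finset.range N, f (fun j => En (b n * α ^ (a n) * α ^ (j:ℕ)))) / (N:ℝ)) atTop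
          (𝓝 (∫ x, f x ∂(Measure.pi fun _ : Fin k => (μ : Measure ℝ)))) := by
  obtain ⟨τ, hτ, hτt⟩ := exists_tr
  obtain ⟨C0, hC0, hS⟩ := En_Sand
  have hX := Ctx.of ag_Bd ag_zero wg_Wt hC0 hS En_meas
  obtain ⟨μ, g, -, -, -, -, -, hf, -⟩ := Pool.Agent.H383.Circ.distr3 (a := τ ^ 2) (b := 2 * τ ^ 2)
    (c := τ ^ 2) (by positivity) (fun n => by positivity)
  refine ⟨μ, fun a b δ hδ hgap hb hmono => iid_alpha hX (hmu_of ag_Bd ag_zero wg_Wt hC0 hS hτ hτt τ ?_) hδ hgap hb hmono⟩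
  intro f hfc hfb
  rw [Metric.tendsto_atTop]
  intro ε hε
  obtain ⟨N₀, hN₀⟩ := hf f hfc hfb 1 one_pos (ε / 2) (by linarith)
  refine ⟨N₀, fun N hN => ?_⟩
  rw [Real.dist_eq]
  have h1 := hN₀ N hN 0 (by
    rw [Nat.cast_zero, Real.zero_rpow (by norm_num)]
    positivity)
  have e1 : ∀ n : ℕ, Cx (τ ^ 2 * n^2 + (2 * τ ^ 2) * n + τ ^ 2) / (τ ^ 2 * (n:ℝ)^2 + (2 * τ ^ 2) * n + τ ^ 2) ^ (1/4:ℝ) =
      En (τ + n * τ) := by
    intro n
    have h2 : (0:ℝ) ≤ τ ^ 2 * (n:ℝ)^2 + (2 * τ ^ 2) * n + τ ^ 2 := by positivity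
    rw [← Pool.Agent.H383.Circ.En_quad h2]
    congr 1
    rw [Real.sqrt_eq_iff_mul_self_eq h2 (by positivity)]
    ring
  simp only [e1, zero_add, Nat.Ico_zero_eq_range] at h1
  exact h1.trans_lt (by linarith)

/-- the law of lawMain is the law of iid0 -/
theorem iidMain : ∃ μ : ProbabilityMeasure ℝ, (∀ x : ℝ, (μ : Measure ℝ) {x} = 0) ∧
    (∀ u v : ℝ, u < v → 0 < (μ : Measure ℝ) (Ioo u v)) ∧
    (∀ x η : ℝ, 0 < η → ∃ R₀ : ℝ, ∀ R : ℝ, R₀ ≤ R → ∀ H : ℝ, R ^ (3 / 4 : ℝ) ≤ H → H ≤ R →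
      |volume.real {r : ℝ | R < r ∧ r ≤ R + H ∧ P r ≤ x * √r} - (μ : Measure ℝ).real (Iic x) * H| ≤ η * H) ∧
    ∀ (a b : ℕ → ℝ) (δ : ℝ), 0 < δ → (∀ n, a n + δ ≤ a (n + 1)) → (∀ n, 0 < b n) → Monotone b →
      ∀ᵐ α : ℝ, 1 < α →
        (∀ (k : ℕ) (f : (Fin k → ℝ) → ℝ), Continuous f →
          (∃ (C : ℝ) (p : ℕ), ∀ x, |f x| ≤ C * (1 + ‖x‖ ^ p)) →
          Integrable f (Measure.pi fun _ : Fin k => (μ : Measure ℝ)) ∧
          Tendsto (fun N : ℕ => (∑ n ∈ Finset.range N, f (fun j => En (b n * α ^ (a n) * α ^ (j:ℕ)))) / (N:ℝ)) atTop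
            (𝓝 (∫ x, f x ∂(Measure.pi fun _ : Fin k => (μ : Measure ℝ))))) ∧
        (∀ (k : ℕ) (u : Fin k → ℝ), Tendsto (fun N : ℕ =>
            (((Finset.range N).filter fun n => ∀ j : Fin k, En (b n * α ^ (a n) * α ^ (j:ℕ)) ≤ u j).card : ℝ) / N) atTop
          (𝓝 (∏ j, (μ : Measure ℝ).real (Iic (u j))))) ∧
        ∀ ε : ℝ, 0 < ε → ∀ᶠ n : ℕ in atTop, |P (b n * α ^ (a n))| ≤ (n:ℝ) ^ ε * √(b n * α ^ (a n)) := by
  classical
  obtain ⟨μ, h1, h2, h3, h4⟩ := lawMain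
  obtain ⟨μ', h5⟩ := iid0
  have hμ : μ = μ' := by
    have g1 := h4 (fun n => 2 ^ n) (fun _ => 1) (fun n => one_le_pow₀ (by norm_num)) (fun _ => le_rfl)
      (by
        intro n m hnm
        show (2:ℝ) ^ n + Real.log 1 ≤ 2 ^ m + Real.log 1
        have := pow_le_pow_right₀ (by norm_num : (1:ℝ) ≤ 2) hnm
        linarith)
      (by
        simp only [Real.log_one, add_zero]
        exact tendsto_pow_atTop_atTop_of_one_lt (by norm_num))
      ⟨2, fun n => by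
        simp only [Real.log_one, add_zero]
        rw [pow_succ]; linarith⟩
    have g2 := h5 (fun n => 2 ^ n) (fun _ => 1) 1 one_pos (fun n => by
      have : (1:ℝ) ≤ 2 ^ n := one_le_pow₀ (by norm_num)
      show (2:ℝ) ^ n + 1 ≤ 2 ^ (n + 1)
      rw [pow_succ]; linarith) (fun _ => one_pos) monotone_const
    have g3 : ∀ᵐ α ∂(volume.restrict (Ioi (1:ℝ))), (∀ x : ℝ,
        Tendsto (fun N => (∑ n ∈ Finset.range N, if P (CatHit.pt (fun n => 2 ^ n) (fun _ => 1) n α) ≤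
            x * √(CatHit.pt (fun n => 2 ^ n) (fun _ => 1) n α) then wt (fun n => 2 ^ n) (fun _ => 1) n
          else 0) / ∑ n ∈ Finset.range N, wt (fun n => 2 ^ n) (fun _ => 1) n) atTop (𝓝 ((μ : Measure ℝ).real (Iic x)))) ∧
        (∀ (k : ℕ) (f : (Fin k → ℝ) → ℝ), Continuous f →
          (∃ (C : ℝ) (p : ℕ), ∀ x, |f x| ≤ C * (1 + ‖x‖ ^ p)) →
          Integrable f (Measure.pi fun _ : Fin k => (μ' : Measure ℝ)) ∧
          Tendsto (fun N : ℕ => (∑ n ∈ Finset.range N, f (fun j => En (1 * α ^ ((2:ℝ) ^ n) * α ^ (j:ℕ)))) / (N:ℝ)) atTop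
            (𝓝 (∫ x, f x ∂(Measure.pi fun _ : Fin k => (μ' : Measure ℝ))))) ∧ 1 < α := by
      rw [ae_restrict_iff' measurableSet_Ioi]
      filter_upwards [g1, g2] with α ha1 ha2 hα
      exact ⟨ha1 hα, ha2 hα, hα⟩
    have : (ae (volume.restrict (Ioi (1:ℝ)))).NeBot := ae_restrict_neBot.mpr (by simp)
    obtain ⟨α, ha1, ha2, hα⟩ := g3.exists
    have hw : ∀ n : ℕ, wt (fun n => 2 ^ n) (fun _ => 1) n = Real.log 2 := by
      intro n
      unfold wt
      simp only [Real.log_one, add_zero]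
      rw [pow_succ, Real.log_mul (by positivity) (by norm_num)]
      ring
    have hl2 : 0 < Real.log 2 := Real.log_pos (by norm_num)
    refine law_unique (X := fun n => En (1 * α ^ ((2:ℝ) ^ n))) ?_ ?_
    · intro x
      refine (ha1 x).congr fun N => ?_
      simp only [hw]
      have hα0 : 0 < α := by linarith
      have e1 : ∀ n : ℕ, (P (CatHit.pt (fun n => 2 ^ n) (fun _ => 1) n α) ≤ x * √(CatHit.pt (fun n => 2 ^ n) (fun _ => 1) n α)) ↔
          En (1 * α ^ ((2:ℝ) ^ n)) ≤ x := by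
        intro n
        have e2 : CatHit.pt (fun n => 2 ^ n) (fun _ => 1) n α = 1 * α ^ ((2:ℝ) ^ n) := rfl
        have e3 : 0 < 1 * α ^ ((2:ℝ) ^ n) := by
          have := Real.rpow_pos_of_pos hα0 ((2:ℝ) ^ n)
          linarith
        rw [e2, ← P_En, div_le_iff₀ (Real.sqrt_pos.mpr e3)]
      simp only [e1]
      rw [Finset.sum_const, Finset.card_range, nsmul_eq_mul]
      have e4 : ∑ n ∈ Finset.range N, (if En (1 * α ^ ((2:ℝ) ^ n)) ≤ x then Real.log 2 else 0) =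
          Real.log 2 * ∑ n ∈ Finset.range N, (if En (1 * α ^ ((2:ℝ) ^ n)) ≤ x then (1:ℝ) else 0) := by
        rw [Finset.mul_sum]
        apply Finset.sum_congr rfl
        intro n _
        split_ifs <;> simp
      rw [e4, mul_comm (N:ℝ)]
      exact mul_div_mul_left _ _ hl2.ne'
    · intro g hg hgb
      obtain ⟨B, hB⟩ := hgb
      have h6 := (ha2 1 (fun x => g (x 0)) (by fun_prop) ⟨B, 0, fun x => by
        have h7 := hB (x 0)
        have h8 : 0 ≤ B := (abs_nonneg _).trans h7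
        simp only [pow_zero]
        linarith⟩).2
      have e5 : ∫ x, g (x 0) ∂(Measure.pi fun _ : Fin 1 => (μ' : Measure ℝ)) = ∫ x, g x ∂(μ' : Measure ℝ) := by
        have h9 := (measurePreserving_eval (fun _ : Fin 1 => (μ' : Measure ℝ)) 0)
        have h10 := integral_map (f := g) (μ := Measure.pi fun _ : Fin 1 => (μ' : Measure ℝ))
          h9.measurable.aemeasurable hg.aestronglyMeasurable
        rw [h9.map_eq] at h10
        exact h10.symm
      rw [e5] at h6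
      simpa using h6
  refine ⟨μ, h1, h2, h3, ?_⟩
  intro a b δ hδ hgap hb hmono
  rw [hμ]
  filter_upwards [h5 a b δ hδ hgap hb hmono] with α hα hα1
  refine ⟨hα hα1, fun k u => ?_, fun ε hε => ?_⟩
  swap
  · have h6 : ∀ m : ℕ, ∃ L : ℝ, Tendsto (fun N : ℕ => (∑ n ∈ Finset.range N, |En (b n * α ^ (a n))| ^ m) / (N:ℝ))
        atTop (𝓝 L) := by
      intro m
      have h7 := (hα hα1 1 (fun x => |x 0| ^ m) (by fun_prop) ⟨1, m, fun x => by
        have h8 : |x 0| ^ m ≤ ‖x‖ ^ m := pow_le_pow_left₀ (abs_nonneg _) (norm_le_pi_norm x 0) m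
        rw [abs_of_nonneg (by positivity : 0 ≤ |x 0| ^ m)]
        linarith⟩).2
      refine ⟨_, h7.congr fun N => ?_⟩
      simp
    filter_upwards [small_of_mom h6 hε] with n hn
    have hR : 0 < b n * α ^ (a n) := mul_pos (hb n) (Real.rpow_pos_of_pos (by linarith) _)
    have hs : 0 < √(b n * α ^ (a n)) := Real.sqrt_pos.mpr hR
    rw [← P_En, abs_div, abs_of_pos hs, div_le_iff₀ hs] at hn
    exact hn
  rw [hμ] at h1
  exact freq_of_law (X := fun n j => En (b n * α ^ (a n) * α ^ (j:ℕ))) h1 (fun g hg hgb => by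
    obtain ⟨B, hB⟩ := hgb
    exact (hα hα1 k g hg ⟨B, 0, fun x => by
      have h7 := hB x
      have h8 : 0 ≤ B := (abs_nonneg _).trans h7
      simp only [pow_zero]
      linarith⟩).2) u

end Pool.Agent.R306.Circ
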